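import Mathlib

/-!
Algebraic identities on quaternions used for the winding form on the 3-sphere.
-/

namespace Pool.Agent.H81.Flat

open Quaternion

/-- Euclidean inner product on quaternions. -/
def ip (a b : ℍ[ℝ]) : ℝ := a.re * b.re + a.imI * b.imI + a.imJ * b.imJ + a.imK * b.imK

/-- Triple product of the imaginary parts. -/
def t3 (a b c : ℍ[ℝ]) : ℝ :=
  a.imI * (b.imJ * c.imK - b.imK * c.imJ)
  + a.imJ * (b.imK * c.imI - b.imI * c.imK)
  + a.imK * (b.imI * c.imJ - b.imJ * c.imI)

/-- `t3 (σ H) A B = (re H) ⟨σ A, B⟩` under the constraints. -/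
theorem id1 (s H A B : ℍ[ℝ]) (hs : s.re = 0) (hH : ip H H = 1) (hA : ip H A = 0)
    (hB : ip H B = 0) : t3 (s * H) A B = H.re * ip (s * A) B := by
  have h : ip H H * t3 (s * H) A B =
      H.re * (ip H H * ip (s * A) B - ip H A * ip (s * H) B + ip H B * ip (s * H) A)
      - ip H A * t3 H (s * H) B + ip H B * t3 H (s * H) A := by
    simp only [ip, t3, Quaternion.re_mul, Quaternion.imI_mul, Quaternion.imJ_mul,
      Quaternion.imK_mul, hs]
    ring
  rw [hH, hA, hB] at h
  linarith

theorem id2 (s H A B : ℍ[ℝ]) (hs : s.re = 0) (hH : ip H H = 1) (hA : ip H A = 0)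
    (hB : ip H B = 0) :
    - (s * H).re * t3 H A B + A.re * t3 H (s * H) B - B.re * t3 H (s * H) A
      = (1 - H.re ^ 2) * ip (s * A) B := by
  have h1 := id1 s H A B hs hH hA hB
  have h : (ip H H * ip (s * A) B - ip H A * ip (s * H) B + ip H B * ip (s * H) A)
      - H.re * t3 (s * H) A B + (s * H).re * t3 H A B - A.re * t3 H (s * H) B
      + B.re * t3 H (s * H) A = 0 := by
    simp only [ip, t3, Quaternion.re_mul, Quaternion.imI_mul, Quaternion.imJ_mul,
      Quaternion.imK_mul, hs]
    ring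
  rw [hH, hA, hB, h1] at h
  linarith

end Pool.Agent.H81.Flat
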