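import Mathlib

/-!
A Goursat/Gronwall lemma with data on the diagonal.
-/

namespace Pool.Agent.H81.Flat

open Set

theorem goursat {E : Type*} [NormedAddCommGroup E] [NormedSpace ℝ E] (E1 E2 Z : ℝ → ℝ → E)
    (C B : ℝ) (hC : 0 ≤ C)
    (hd1 : ∀ t τ, HasDerivAt (fun τ => E1 t τ) (-Z t τ) τ)
    (hd2 : ∀ t τ, HasDerivAt (fun t => E2 t τ) (Z t τ) t)
    (h1 : ∀ t, E1 t t = 0) (h2 : ∀ t, E2 t t = 0)
    (hZ : ∀ t τ, ‖Z t τ‖ ≤ C * (‖E1 t τ‖ + ‖E2 t τ‖))
    (hB : ∀ t τ, ‖E1 t τ‖ + ‖E2 t τ‖ ≤ B) :
    ∀ t τ, t ≤ τ → E1 t τ = 0 ∧ E2 t τ = 0 := by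
  have hind : ∀ n : ℕ, ∀ t τ, t ≤ τ →
      ‖E1 t τ‖ + ‖E2 t τ‖ ≤ B * ((2 * C * (τ - t)) ^ n / n.factorial) := by
    intro n
    induction n with
    | zero => intro t τ _; simpa using hB t τ
    | succ n ih =>
      intro t τ htτ
      -- the comparison function
      set Bf : ℝ → ℝ := fun s => C * B * (2 * C) ^ n * (s ^ (n + 1) / (n + 1).factorial) with hBf
      have hBf' : ∀ s, HasDerivAt Bf (C * (B * ((2 * C * s) ^ n / n.factorial))) s := by
        intro s
        have h := ((hasDerivAt_pow (n + 1) s).div_const ((n + 1).factorial : ℝ)).const_mul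
          (C * B * (2 * C) ^ n)
        refine h.congr_deriv ?_
        have hf : ((n + 1).factorial : ℝ) = (n + 1) * n.factorial := by
          rw [Nat.factorial_succ]; push_cast; ring
        have hn : (n.factorial : ℝ) ≠ 0 := by positivity
        have hn1 : (n : ℝ) + 1 ≠ 0 := by positivity
        rw [hf, Nat.add_sub_cancel, mul_pow (2 * C) s n]
        push_cast
        field_simp
      have hBf0 : Bf 0 = 0 := by simp [hBf]
      have e1 : ‖E1 t τ‖ ≤ Bf (τ - t) := by
        have h := image_norm_le_of_norm_deriv_right_le_deriv_boundary (a := 0) (b := τ - t)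
          (f := fun s => E1 t (t + s)) (f' := fun s => -Z t (t + s)) (B := Bf)
          (B' := fun s => C * (B * ((2 * C * s) ^ n / n.factorial))) ?_ ?_ ?_ hBf' ?_
          (right_mem_Icc.2 (by linarith))
        · simpa using h
        · intro s _
          exact ((hd1 t (t + s)).comp_const_add t s).continuousAt.continuousWithinAt
        · intro s _
          exact ((hd1 t (t + s)).comp_const_add t s).hasDerivWithinAt
        · simp [h1, hBf0]
        · intro s hs
          rw [norm_neg]
          refine (hZ _ _).trans ?_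
          apply mul_le_mul_of_nonneg_left _ hC
          have := ih t (t + s) (by linarith [hs.1])
          simpa using this
      have e2 : ‖E2 t τ‖ ≤ Bf (τ - t) := by
        have hder : ∀ s, HasDerivAt (fun s => E2 (τ - s) τ) (-Z (τ - s) τ) s := by
          intro s
          have h3 : HasDerivAt (fun s : ℝ => τ - s) (-1) s := by
            simpa using (hasDerivAt_id s).const_sub τ
          have h4 : HasDerivAt (fun s => E2 (τ - s) τ) ((-1 : ℝ) • Z (τ - s) τ) s :=
            (hd2 (τ - s) τ).scomp s h3
          simpa using h4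
        have h := image_norm_le_of_norm_deriv_right_le_deriv_boundary (a := 0) (b := τ - t)
          (f := fun s => E2 (τ - s) τ) (f' := fun s => -Z (τ - s) τ) (B := Bf)
          (B' := fun s => C * (B * ((2 * C * s) ^ n / n.factorial))) ?_ ?_ ?_ hBf' ?_
          (right_mem_Icc.2 (by linarith))
        · simpa using h
        · intro s _
          exact (hder s).continuousAt.continuousWithinAt
        · intro s _
          exact (hder s).hasDerivWithinAt
        · simp [h2, hBf0]
        · intro s hs
          rw [norm_neg]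
          refine (hZ _ _).trans ?_
          apply mul_le_mul_of_nonneg_left _ hC
          have := ih (τ - s) τ (by linarith [hs.1])
          simpa using this
      have e3 : Bf (τ - t) + Bf (τ - t) = B * ((2 * C * (τ - t)) ^ (n + 1) / (n + 1).factorial) := by
        simp only [hBf]
        rw [mul_pow (2 * C) (τ - t) (n + 1)]
        ring
      rw [← e3]
      exact add_le_add e1 e2
  intro t τ htτ
  have hlim : Filter.Tendsto (fun n : ℕ => B * ((2 * C * (τ - t)) ^ n / n.factorial)) Filter.atTop
      (nhds (B * 0)) := (FloorSemiring.tendsto_pow_div_factorial_atTop _).const_mul B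
  rw [mul_zero] at hlim
  have hle := ge_of_tendsto' hlim fun n => hind n t τ htτ
  have n1 := norm_nonneg (E1 t τ)
  have n2 := norm_nonneg (E2 t τ)
  constructor
  · rw [← norm_eq_zero]; linarith
  · rw [← norm_eq_zero]; linarith

end Pool.Agent.H81.Flat
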