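import Mathlib
import Pool.Agent.H81.Flat.Goursat

/-!
Planar part: idempotent closed matrix fields on the plane, periodic under a lattice.
-/

namespace Pool.Agent.H81.Flat

open Set

abbrev E2 := EuclideanSpace ℝ (Fin 2)

theorem exists_coords (u v : E2) (h : LinearIndependent ℝ ![u, v]) (p : E2) :
    ∃ x y : ℝ, x • u + y • v = p := by
  have hs : Submodule.span ℝ (Set.range ![u, v]) = ⊤ := by
    apply h.span_eq_top_of_card_eq_finrank; simp
  have hp : p ∈ Submodule.span ℝ (Set.range ![u, v]) := by rw [hs]; trivial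
  rw [Matrix.range_cons, Matrix.range_cons, Matrix.range_empty, union_empty] at hp
  exact Submodule.mem_span_pair.1 hp

theorem exists_compact (u v : E2) (h : LinearIndependent ℝ ![u, v]) :
    ∃ K : Set E2, IsCompact K ∧ ∀ p, ∃ p' ∈ K, ∃ m n : ℤ, p = p' + (m:ℝ) • u + (n:ℝ) • v := by
  refine ⟨(fun q : ℝ × ℝ => q.1 • u + q.2 • v) '' (Icc 0 1 ×ˢ Icc 0 1), ?_, ?_⟩
  · exact (isCompact_Icc.prod isCompact_Icc).image (by fun_prop)
  · intro p
    obtain ⟨x, y, hxy⟩ := exists_coords u v h p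
    refine ⟨Int.fract x • u + Int.fract y • v, ⟨(Int.fract x, Int.fract y), ⟨⟨Int.fract_nonneg x,
      (Int.fract_lt_one x).le⟩, ⟨Int.fract_nonneg y, (Int.fract_lt_one y).le⟩⟩, rfl⟩,
      ⌊x⌋, ⌊y⌋, ?_⟩
    rw [← hxy]
    have e1 : x • u = Int.fract x • u + (⌊x⌋:ℝ) • u := by rw [← add_smul, Int.fract_add_floor]
    have e2 : y • v = Int.fract y • v + (⌊y⌋:ℝ) • v := by rw [← add_smul, Int.fract_add_floor]
    rw [e1, e2]
    abel

theorem periodic_red {α : Type*} (g : E2 → α) (u v : E2) (hu : ∀ p, g (p + u) = g p)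
    (hv : ∀ p, g (p + v) = g p) (m n : ℤ) (p : E2) : g (p + (m:ℝ) • u + (n:ℝ) • v) = g p := by
  have h1 : Function.Periodic g u := hu
  have h2 : Function.Periodic g v := hv
  have e1 := (h1.zsmul m) p
  have e2 := (h2.zsmul n) (p + m • u)
  rw [Int.cast_smul_eq_zsmul, Int.cast_smul_eq_zsmul, e2, e1]

theorem bounded_of_periodic {F : Type*} [NormedAddCommGroup F] (g : E2 → F) (hg : Continuous g)
    (u v : E2) (h : LinearIndependent ℝ ![u, v]) (hu : ∀ p, g (p + u) = g p)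
    (hv : ∀ p, g (p + v) = g p) : ∃ C : ℝ, 0 ≤ C ∧ ∀ p, ‖g p‖ ≤ C := by
  obtain ⟨K, hK, hred⟩ := exists_compact u v h
  obtain ⟨C, hC⟩ := (hK.image hg).isBounded.exists_norm_le
  refine ⟨|C|, abs_nonneg _, fun p => ?_⟩
  obtain ⟨p', hp', m, n, rfl⟩ := hred p
  rw [periodic_red g u v hu hv]
  exact (hC _ ⟨p', hp', rfl⟩).trans (le_abs_self _)

theorem min_of_periodic (g : E2 → ℝ) (hg : Continuous g)
    (u v : E2) (h : LinearIndependent ℝ ![u, v]) (hu : ∀ p, g (p + u) = g p)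
    (hv : ∀ p, g (p + v) = g p) (hpos : ∀ p, 0 < g p) : ∃ c : ℝ, 0 < c ∧ ∀ p, c ≤ g p := by
  obtain ⟨K, hK, hred⟩ := exists_compact u v h
  have hne : K.Nonempty := by
    obtain ⟨p', hp', -⟩ := hred 0
    exact ⟨p', hp'⟩
  obtain ⟨x, hx, hmin⟩ := hK.exists_isMinOn hne hg.continuousOn
  refine ⟨g x, hpos x, fun p => ?_⟩
  obtain ⟨p', hp', m, n, rfl⟩ := hred p
  rw [periodic_red g u v hu hv]
  exact hmin hp'

/-- the planar structure -/
structure Planar where
  M : E2 → E2 →L[ℝ] E2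
  M' : E2 → E2 →L[ℝ] E2 →L[ℝ] E2
  hM : ∀ p, HasFDerivAt M (M' p) p
  hM' : Continuous M'
  idem : ∀ p v, M p (M p v) = M p v
  symm : ∀ p u v, M' p u v = M' p v u
  u : E2
  v : E2
  ind : LinearIndependent ℝ ![u, v]
  hu : ∀ p, M (p + u) = M p
  hv : ∀ p, M (p + v) = M p
  ker : ∀ p, ∃ w, w ≠ 0 ∧ M p w = 0
  im : ∀ p, ∃ w, w ≠ 0 ∧ M p w = w

namespace Planar

variable (P : Planar)

theorem exists_S : ∃ S : E2 → E2, S 0 = 0 ∧ ∀ p, HasFDerivAt S (P.M p) p := by
  obtain ⟨f, hf⟩ := (convex_univ (𝕜 := ℝ) (E := E2)).exists_forall_hasFDerivAt_of_fderiv_symmetric isOpen_univ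
    (ω := P.M) (fun a _ => (P.hM a).differentiableAt.differentiableWithinAt)
    (fun a _ x y => by rw [(P.hM a).fderiv]; exact P.symm a x y)
  exact ⟨fun p => f p - f 0, by simp, fun p => (hf p (mem_univ _)).sub_const _⟩

noncomputable def S : E2 → E2 := P.exists_S.choose
theorem S_zero : P.S 0 = 0 := P.exists_S.choose_spec.1
theorem hS (p : E2) : HasFDerivAt P.S (P.M p) p := P.exists_S.choose_spec.2 p

/-- the complementary projection -/
noncomputable def T (p : E2) : E2 := p - P.S p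
theorem T_zero : P.T 0 = 0 := by simp [T, S_zero]
theorem hT (p : E2) : HasFDerivAt P.T (ContinuousLinearMap.id ℝ E2 - P.M p) p :=
  (hasFDerivAt_id p).sub (P.hS p)
theorem S_add_T (p : E2) : P.S p + P.T p = p := by simp [T]

theorem contM : Continuous P.M := continuous_iff_continuousAt.2 fun p => (P.hM p).continuousAt
theorem contS : Continuous P.S := continuous_iff_continuousAt.2 fun p => (P.hS p).continuousAt
theorem contT : Continuous P.T := continuous_iff_continuousAt.2 fun p => (P.hT p).continuousAt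

theorem M'_per (w : E2) (hw : ∀ p, P.M (p + w) = P.M p) (p : E2) : P.M' (p + w) = P.M' p := by
  have h1 : HasFDerivAt (fun p => P.M (p + w)) (P.M' (p + w)) p := by
    have : HasFDerivAt (fun p => P.M (p + w)) ((P.M' (p + w)).comp (ContinuousLinearMap.id ℝ E2)) p :=
      (P.hM (p + w)).comp p ((hasFDerivAt_id p).add_const w)
    rwa [ContinuousLinearMap.comp_id] at this
  have h2 : (fun p => P.M (p + w)) = P.M := funext hw
  rw [h2] at h1
  exact h1.unique (P.hM p)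

/-- derivative of the idempotency -/
theorem idem' (p u v : E2) : P.M' p u (P.M p v) + P.M p (P.M' p u v) = P.M' p u v := by
  have h1 : HasFDerivAt (fun p => P.M p v) ((ContinuousLinearMap.apply ℝ E2 v).comp (P.M' p)) p :=
    (ContinuousLinearMap.apply ℝ E2 v).hasFDerivAt.comp p (P.hM p)
  have h2 := (P.hM p).clm_apply h1
  have h3 : (fun p => P.M p (P.M p v)) = fun p => P.M p v := funext fun p => P.idem p v
  rw [h3] at h2
  have h4 := congrArg (fun L : E2 →L[ℝ] E2 => L u) (h2.unique h1)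
  simp at h4
  rw [add_comm]
  exact h4

theorem bounds : ∃ C : ℝ, 0 ≤ C ∧ (∀ p, ‖P.M p‖ ≤ C) ∧ ∀ p, ‖P.M' p‖ ≤ C := by
  obtain ⟨C1, h1, h1'⟩ := bounded_of_periodic P.M P.contM P.u P.v P.ind P.hu P.hv
  obtain ⟨C2, h2, h2'⟩ := bounded_of_periodic P.M' P.hM' P.u P.v P.ind (P.M'_per _ P.hu)
    (P.M'_per _ P.hv)
  exact ⟨max C1 C2, h1.trans (le_max_left _ _), fun p => (h1' p).trans (le_max_left _ _),
    fun p => (h2' p).trans (le_max_right _ _)⟩

/-- the key identity -/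
theorem S_key (p q : E2) : P.S (P.S p + P.T q) = P.S p := by
  obtain ⟨C, hC, hM, hM'⟩ := P.bounds
  set d : E2 := q - p with hd
  set γ : ℝ → E2 := fun t => p + t • d with hγ
  have hγ' : ∀ t, HasDerivAt γ d t := by
    intro t
    have : HasDerivAt γ ((1:ℝ) • d) t := ((hasDerivAt_id t).smul_const d).const_add p
    rwa [one_smul] at this
  set a : ℝ → E2 := fun t => P.S (γ t) with ha
  set b : ℝ → E2 := fun t => P.T (γ t) with hb
  set a' : ℝ → E2 := fun t => P.M (γ t) d with ha'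
  set b' : ℝ → E2 := fun t => d - P.M (γ t) d with hb'
  have hda : ∀ t, HasDerivAt a (a' t) t := fun t => (P.hS (γ t)).comp_hasDerivAt t (hγ' t)
  have hdb : ∀ t, HasDerivAt b (b' t) t := fun t => (P.hT (γ t)).comp_hasDerivAt t (hγ' t)
  set X : ℝ → ℝ → E2 := fun t τ => a t + b τ with hX
  have hXt : ∀ t τ, HasDerivAt (fun t => X t τ) (a' t) t := fun t τ => (hda t).add_const _
  have hXτ : ∀ t τ, HasDerivAt (fun τ => X t τ) (b' τ) τ := fun t τ => (hdb τ).const_add _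
  have hXX : ∀ t, X t t = γ t := fun t => P.S_add_T _
  have hMt : ∀ t τ, HasDerivAt (fun t => P.M (X t τ)) (P.M' (X t τ) (a' t)) t :=
    fun t τ => (P.hM (X t τ)).comp_hasDerivAt t (hXt t τ)
  have hMτ : ∀ t τ, HasDerivAt (fun τ => P.M (X t τ)) (P.M' (X t τ) (b' τ)) τ :=
    fun t τ => (P.hM (X t τ)).comp_hasDerivAt τ (hXτ t τ)
  set E1 : ℝ → ℝ → E2 := fun t τ => a' t - P.M (X t τ) (a' t) with hE1
  set E2' : ℝ → ℝ → E2 := fun t τ => P.M (X t τ) (b' τ) with hE2
  set Z : ℝ → ℝ → E2 := fun t τ => P.M' (X t τ) (a' t) (b' τ) with hZ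
  have hd1 : ∀ t τ, HasDerivAt (fun τ => E1 t τ) (-Z t τ) τ := by
    intro t τ
    have h := ((hMτ t τ).clm_apply (hasDerivAt_const τ (a' t))).const_sub (a' t)
    refine h.congr_deriv ?_
    simp only [hZ, map_zero, add_zero]
    rw [P.symm]
  have hd2 : ∀ t τ, HasDerivAt (fun t => E2' t τ) (Z t τ) t := by
    intro t τ
    have h := (hMt t τ).clm_apply (hasDerivAt_const t (b' τ))
    refine h.congr_deriv ?_
    simp only [hZ, map_zero, add_zero]
  have hZeq : ∀ t τ, Z t τ = P.M' (X t τ) (b' τ) (E1 t τ) + P.M' (X t τ) (a' t) (E2' t τ) := by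
    intro t τ
    have h1 := P.idem' (X t τ) (a' t) (b' τ)
    have h2 := P.idem' (X t τ) (b' τ) (a' t)
    have h3 := P.symm (X t τ) (a' t) (b' τ)
    simp only [hZ, hE1, hE2, map_sub]
    rw [← h3] at h2 ⊢
    -- h1 : M'(a')(M b') + M (M' a' b') = M' a' b'
    -- h2 : M'(b')(M a') + M (M' a' b') = M' a' b'
    have h5 : P.M' (X t τ) (a' t) (P.M (X t τ) (b' τ)) = P.M' (X t τ) (b' τ) (P.M (X t τ) (a' t)) :=
      add_right_cancel (h1.trans h2.symm)
    rw [h5]
    abel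
  have hbd_a : ∀ t, ‖a' t‖ ≤ C * ‖d‖ := fun t =>
    ((P.M (γ t)).le_opNorm d).trans (mul_le_mul_of_nonneg_right (hM _) (norm_nonneg _))
  have hbd_b : ∀ t, ‖b' t‖ ≤ (1 + C) * ‖d‖ := by
    intro t
    refine (norm_sub_le _ _).trans ?_
    have := hbd_a t
    simp only [ha'] at this
    linarith
  have hd0 := norm_nonneg d
  have hZb : ∀ t τ, ‖Z t τ‖ ≤ (C * ((1 + C) * ‖d‖)) * (‖E1 t τ‖ + ‖E2' t τ‖) := by
    intro t τ
    rw [hZeq]
    refine (norm_add_le _ _).trans ?_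
    have e1 : ‖P.M' (X t τ) (b' τ) (E1 t τ)‖ ≤ C * ((1 + C) * ‖d‖) * ‖E1 t τ‖ := by
      refine ((P.M' (X t τ) (b' τ)).le_opNorm _).trans ?_
      apply mul_le_mul_of_nonneg_right _ (norm_nonneg _)
      refine ((P.M' (X t τ)).le_opNorm _).trans ?_
      exact mul_le_mul (hM' _) (hbd_b τ) (norm_nonneg _) hC
    have e2 : ‖P.M' (X t τ) (a' t) (E2' t τ)‖ ≤ C * ((1 + C) * ‖d‖) * ‖E2' t τ‖ := by
      refine ((P.M' (X t τ) (a' t)).le_opNorm _).trans ?_
      apply mul_le_mul_of_nonneg_right _ (norm_nonneg _)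
      refine ((P.M' (X t τ)).le_opNorm _).trans ?_
      refine mul_le_mul (hM' _) ((hbd_a t).trans ?_) (norm_nonneg _) hC
      nlinarith
    linarith
  have hEb : ∀ t τ, ‖E1 t τ‖ + ‖E2' t τ‖ ≤ (C * ‖d‖ + C * (C * ‖d‖)) + C * ((1 + C) * ‖d‖) := by
    intro t τ
    have e0 : ‖P.M (X t τ) (a' t)‖ ≤ C * (C * ‖d‖) :=
      ((P.M (X t τ)).le_opNorm _).trans (mul_le_mul (hM _) (hbd_a t) (norm_nonneg _) hC)
    have e1 : ‖E1 t τ‖ ≤ C * ‖d‖ + C * (C * ‖d‖) :=
      (norm_sub_le _ _).trans (add_le_add (hbd_a t) e0)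
    have e2 : ‖E2' t τ‖ ≤ C * ((1 + C) * ‖d‖) :=
      ((P.M (X t τ)).le_opNorm _).trans (mul_le_mul (hM _) (hbd_b τ) (norm_nonneg _) hC)
    linarith
  have h1 : ∀ t, E1 t t = 0 := by
    intro t
    simp only [hE1, hXX, ha']
    rw [P.idem, sub_self]
  have h2 : ∀ t, E2' t t = 0 := by
    intro t
    simp only [hE2, hXX, hb', map_sub]
    rw [P.idem, sub_self]
  have hgo := goursat E1 E2' Z (C * ((1 + C) * ‖d‖)) _ (by positivity) hd1 hd2 h1 h2 hZb hEb
  -- conclude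
  have hder : ∀ t ∈ Icc (0:ℝ) 1, HasDerivWithinAt (fun t => P.S (X t 1) - a t) 0 (Icc 0 1) t := by
    intro t ht
    have h3 : HasDerivAt (fun t => P.S (X t 1) - a t) (P.M (X t 1) (a' t) - a' t) t :=
      ((P.hS (X t 1)).comp_hasDerivAt t (hXt t 1)).sub (hda t)
    have h4 := (hgo t 1 ht.2).1
    simp only [hE1] at h4
    have h5 : P.M (X t 1) (a' t) - a' t = 0 := by
      rw [← neg_eq_zero, neg_sub]; exact h4
    rw [h5] at h3
    exact h3.hasDerivWithinAt
  have hconst : (fun t => P.S (X t 1) - a t) 0 = (fun t => P.S (X t 1) - a t) 1 := by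
    have := (convex_Icc (0:ℝ) 1).norm_image_sub_le_of_norm_hasDerivWithin_le (C := 0) hder
      (fun x _ => by simp) (right_mem_Icc.2 zero_le_one) (left_mem_Icc.2 zero_le_one)
    rw [zero_mul, norm_le_zero_iff, sub_eq_zero] at this
    exact this
  simp only [hXX] at hconst
  have e1 : γ 0 = p := by simp [hγ]
  have e2 : γ 1 = q := by simp [hγ, hd]
  simp only [hX, ha, hb, e1, e2] at hconst
  rw [sub_self, sub_eq_zero] at hconst
  exact hconst

theorem T_key (p q : E2) : P.T (P.S p + P.T q) = P.T q := by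
  unfold T
  have := P.S_key p q
  unfold T at this
  rw [this]
  abel

/-- image is constant along `T`-fibres -/
theorem M_key1 (p q z : E2) : P.M (P.S p + P.T q) (P.M p z) = P.M p z := by
  have h1 : HasFDerivAt (fun p => P.S (P.S p + P.T q)) ((P.M (P.S p + P.T q)).comp (P.M p)) p :=
    (P.hS (P.S p + P.T q)).comp p ((P.hS p).add_const _)
  have h2 : (fun p => P.S (P.S p + P.T q)) = P.S := funext fun p => P.S_key p q
  rw [h2] at h1
  have h3 := congrArg (fun L : E2 →L[ℝ] E2 => L z) (h1.unique (P.hS p))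
  simpa using h3

theorem M_key2 (p q z : E2) : P.M (P.S p + P.T q) (z - P.M q z) = 0 := by
  have h1 : HasFDerivAt (fun q => P.S (P.S p + P.T q))
      ((P.M (P.S p + P.T q)).comp (ContinuousLinearMap.id ℝ E2 - P.M q)) q :=
    (P.hS (P.S p + P.T q)).comp q ((P.hT q).const_add _)
  have h2 : (fun q => P.S (P.S p + P.T q)) = fun _ => P.S p := funext fun q => P.S_key p q
  rw [h2] at h1
  have h3 := congrArg (fun L : E2 →L[ℝ] E2 => L z) (h1.unique (hasFDerivAt_const (P.S p) q))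
  simpa using h3

end Planar

end Pool.Agent.H81.Flat
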