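import Mathlib
import Pool.Agent.H81.Flat.Planar

/-!
A direction transverse to both line fields and the induced global parametrisation.
-/

namespace Pool.Agent.H81.Flat

open Set
open scoped RealInnerProductSpace

namespace Planar

variable (P : Planar)

theorem exists_w : ∃ w : E2, ‖w‖ = 1 ∧ ∀ p, P.M p w ≠ w ∧ P.M p w ≠ 0 := by
  by_contra hcon
  push Not at hcon
  obtain ⟨K, hK, hred⟩ := exists_compact P.u P.v P.ind
  have hredM : ∀ p, ∃ p' ∈ K, P.M p = P.M p' := by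
    intro p
    obtain ⟨p', hp', m, n, h⟩ := hred p
    exact ⟨p', hp', by rw [h, periodic_red P.M P.u P.v P.hu P.hv]⟩
  have hcM : Continuous fun q : E2 × E2 => P.M q.1 q.2 :=
    (P.contM.comp continuous_fst).clm_apply continuous_snd
  have hsph : IsCompact (Metric.sphere (0:E2) 1) := isCompact_sphere 0 1
  -- closedness
  have hcl : ∀ g : E2 × E2 → E2, Continuous g →
      IsClosed (Prod.snd '' ((K ×ˢ Metric.sphere (0:E2) 1) ∩ {q | g q = 0})) := by
    intro g hg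
    apply IsCompact.isClosed
    apply IsCompact.image _ continuous_snd
    exact (hK.prod hsph).inter_right (isClosed_eq hg continuous_const)
  set W1 : Set E2 := Prod.snd '' ((K ×ˢ Metric.sphere (0:E2) 1) ∩ {q | P.M q.1 q.2 - q.2 = 0}) with hW1
  set W2 : Set E2 := Prod.snd '' ((K ×ˢ Metric.sphere (0:E2) 1) ∩ {q | P.M q.1 q.2 = 0}) with hW2
  have hc1 : IsClosed W1 := hcl _ (hcM.sub continuous_snd)
  have hc2 : IsClosed W2 := hcl _ hcM
  have hconn : IsPreconnected (Metric.sphere (0:E2) 1) := by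
    apply (isConnected_sphere _ 0 zero_le_one).isPreconnected
    have : Module.finrank ℝ E2 = 2 := by simp
    rw [← Module.finrank_eq_rank, this]
    norm_num
  have hcov : Metric.sphere (0:E2) 1 ⊆ W1 ∪ W2 := by
    intro w hw
    rw [mem_sphere_zero_iff_norm] at hw
    obtain ⟨p, hp⟩ := hcon w hw
    obtain ⟨p', hp', hMM⟩ := hredM p
    have hw' : w ∈ Metric.sphere (0:E2) 1 := by rw [mem_sphere_zero_iff_norm]; exact hw
    by_cases h : P.M p w = w
    · left
      refine ⟨(p', w), ⟨⟨hp', hw'⟩, ?_⟩, rfl⟩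
      show P.M p' w - w = 0
      rw [← hMM, h, sub_self]
    · right
      refine ⟨(p', w), ⟨⟨hp', hw'⟩, ?_⟩, rfl⟩
      show P.M p' w = 0
      rw [← hMM, hp h]
  have hn1 : (Metric.sphere (0:E2) 1 ∩ W1).Nonempty := by
    obtain ⟨w, hw0, hw⟩ := P.im 0
    have hn : ‖w‖ ≠ 0 := norm_ne_zero_iff.2 hw0
    have hs : ‖w‖⁻¹ • w ∈ Metric.sphere (0:E2) 1 := by
      rw [mem_sphere_zero_iff_norm, norm_smul, norm_inv, norm_norm, inv_mul_cancel₀ hn]
    obtain ⟨p', hp', hMM⟩ := hredM 0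
    refine ⟨_, hs, ⟨(p', ‖w‖⁻¹ • w), ⟨⟨hp', hs⟩, ?_⟩, rfl⟩⟩
    show P.M p' (‖w‖⁻¹ • w) - ‖w‖⁻¹ • w = 0
    rw [← hMM, map_smul, hw, sub_self]
  have hn2 : (Metric.sphere (0:E2) 1 ∩ W2).Nonempty := by
    obtain ⟨w, hw0, hw⟩ := P.ker 0
    have hn : ‖w‖ ≠ 0 := norm_ne_zero_iff.2 hw0
    have hs : ‖w‖⁻¹ • w ∈ Metric.sphere (0:E2) 1 := by
      rw [mem_sphere_zero_iff_norm, norm_smul, norm_inv, norm_norm, inv_mul_cancel₀ hn]
    obtain ⟨p', hp', hMM⟩ := hredM 0
    refine ⟨_, hs, ⟨(p', ‖w‖⁻¹ • w), ⟨⟨hp', hs⟩, ?_⟩, rfl⟩⟩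
    show P.M p' (‖w‖⁻¹ • w) = 0
    rw [← hMM, map_smul, hw, smul_zero]
  obtain ⟨w, hw, ⟨⟨⟨p, _⟩, ⟨_, h1⟩, rfl⟩, ⟨⟨q, w'⟩, ⟨_, h2⟩, h3⟩⟩⟩ :=
    isPreconnected_closed_iff.1 hconn W1 W2 hc1 hc2 hcov hn1 hn2
  simp only at h3 hw
  subst h3
  have h1' : P.M p w' - w' = 0 := h1
  have h2' : P.M q w' = 0 := h2
  rw [sub_eq_zero] at h1'
  have e1 := P.M_key1 p q w'
  have e2 := P.M_key2 p q w'
  rw [h1'] at e1
  rw [h2', sub_zero] at e2
  rw [e2] at e1
  rw [← e1, mem_sphere_zero_iff_norm, norm_zero] at hw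
  exact zero_ne_one hw

/-- rotation by a right angle -/
noncomputable def rotJ (w : E2) : E2 := !₂[-(w 1), w 0]

theorem inner_E2 (a b : E2) : ⟪a, b⟫ = a 0 * b 0 + a 1 * b 1 := by
  simp [PiLp.inner_apply, Fin.sum_univ_two]
  ring

theorem rotJ_0 (w : E2) : rotJ w 0 = -(w 1) := by simp [rotJ]
theorem rotJ_1 (w : E2) : rotJ w 1 = w 0 := by simp [rotJ]

theorem sq_of_norm (w : E2) (hw : ‖w‖ = 1) : w 0 * w 0 + w 1 * w 1 = 1 := by
  rw [← inner_E2, real_inner_self_eq_norm_sq, hw]; norm_num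

theorem expand (w : E2) (hw : ‖w‖ = 1) (z : E2) : z = ⟪w, z⟫ • w + ⟪rotJ w, z⟫ • rotJ w := by
  have h := sq_of_norm w hw
  ext i
  fin_cases i
  · simp only [inner_E2, rotJ_0, rotJ_1, PiLp.add_apply, PiLp.smul_apply, smul_eq_mul,
      Fin.zero_eta, Fin.isValue]
    linear_combination (-(z 0)) * h
  · simp only [inner_E2, rotJ_0, rotJ_1, PiLp.add_apply, PiLp.smul_apply, smul_eq_mul,
      Fin.mk_one, Fin.isValue]
    linear_combination (-(z 1)) * h

/-- a good frame -/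
structure Frame where
  w : E2
  n : E2
  hw : ⟪w, w⟫ = 1
  hn : ⟪n, n⟫ = 1
  hwn : ⟪w, n⟫ = 0
  hexp : ∀ z : E2, z = ⟪w, z⟫ • w + ⟪n, z⟫ • n
  c : ℝ
  hc : 0 < c
  hb : ∀ p, c ≤ ⟪n, P.M p w⟫

theorem exists_frame : Nonempty P.Frame := by
  obtain ⟨w, hw, hne⟩ := P.exists_w
  have hsq := sq_of_norm w hw
  set n0 := rotJ w with hn0
  have hww : ⟪w, w⟫ = 1 := by rw [inner_E2, hsq]
  have hnn : ⟪n0, n0⟫ = 1 := by rw [inner_E2, rotJ_0, rotJ_1]; linarith
  have hwn : ⟪w, n0⟫ = 0 := by rw [inner_E2, rotJ_0, rotJ_1]; ring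
  have hb : ∀ p, ⟪n0, P.M p w⟫ ≠ 0 := by
    intro p h0
    have h1 := expand w hw (P.M p w)
    rw [← hn0, h0, zero_smul, add_zero] at h1
    have h2 := P.idem p w
    rw [h1, map_smul] at h2
    set cc := ⟪w, P.M p w⟫ with hcc
    rw [h1] at h2
    have h3 := congrArg (fun z => ⟪w, z⟫) h2
    simp only [inner_smul_right, hww, mul_one] at h3
    have h4 : cc * (cc - 1) = 0 := by linarith
    rcases mul_eq_zero.1 h4 with h5 | h5
    · apply (hne p).2
      rw [h1, h5, zero_smul]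
    · apply (hne p).1
      rw [h1, sub_eq_zero.1 h5, one_smul]
  have hcont : Continuous fun p => ⟪n0, P.M p w⟫ :=
    continuous_const.inner (P.contM.clm_apply continuous_const)
  have hsign : (∀ p, 0 < ⟪n0, P.M p w⟫) ∨ (∀ p, ⟪n0, P.M p w⟫ < 0) := by
    by_contra hcon
    push Not at hcon
    obtain ⟨⟨p, hp⟩, ⟨q, hq⟩⟩ := hcon
    obtain ⟨x, hx⟩ := mem_range_of_exists_le_of_exists_ge hcont ⟨p, hp⟩ ⟨q, hq⟩
    exact hb x hx
  rcases hsign with h | h
  · obtain ⟨c, hc, hc'⟩ := min_of_periodic _ hcont P.u P.v P.ind (fun p => by rw [P.hu])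
      (fun p => by rw [P.hv]) h
    exact ⟨⟨w, n0, hww, hnn, hwn, expand w hw, c, hc, hc'⟩⟩
  · obtain ⟨c, hc, hc'⟩ := min_of_periodic (fun p => -⟪n0, P.M p w⟫) hcont.neg P.u P.v P.ind
      (fun p => by rw [P.hu]) (fun p => by rw [P.hv]) (fun p => neg_pos.2 (h p))
    refine ⟨⟨w, -n0, hww, by rw [inner_neg_neg, hnn], by rw [inner_neg_right, hwn, neg_zero], ?_,
      c, hc, fun p => by rw [inner_neg_left]; exact hc' p⟩⟩
    intro z
    rw [inner_neg_left, smul_neg, neg_smul, neg_neg]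
    exact expand w hw z

variable {P}

namespace Frame

variable (F : P.Frame)

/-- the height function along the line `ℝ w` -/
noncomputable def x (t : ℝ) : ℝ := ⟪F.n, P.S (t • F.w)⟫

theorem hx (t : ℝ) : HasDerivAt F.x ⟪F.n, P.M (t • F.w) F.w⟫ t := by
  have h1 : HasDerivAt (fun t : ℝ => t • F.w) ((1:ℝ) • F.w) t := (hasDerivAt_id t).smul_const F.w
  rw [one_smul] at h1
  have h2 : HasDerivAt (fun t : ℝ => P.S (t • F.w)) (P.M (t • F.w) F.w) t :=
    (P.hS (t • F.w)).comp_hasDerivAt t h1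
  have h3 : HasDerivAt F.x (⟪F.n, P.M (t • F.w) F.w⟫ + ⟪(0:E2), P.S (t • F.w)⟫) t :=
    (hasDerivAt_const t F.n).inner ℝ h2
  rwa [inner_zero_left, add_zero] at h3

theorem x_zero : F.x 0 = 0 := by simp [x, P.S_zero]

theorem x_strict : StrictMono F.x := by
  apply strictMono_of_deriv_pos
  intro t
  rw [(F.hx t).deriv]
  exact F.hc.trans_le (F.hb _)

theorem contx : Continuous F.x := continuous_iff_continuousAt.2 fun t => (F.hx t).continuousAt

theorem x_surj : Function.Surjective F.x := by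
  have hmono : Monotone fun t => F.x t - F.c * t := by
    apply monotone_of_deriv_nonneg
    · intro t
      exact ((F.hx t).sub ((hasDerivAt_id t).const_mul F.c)).differentiableAt
    · intro t
      have h := ((F.hx t).sub ((hasDerivAt_id t).const_mul F.c)).deriv
      have h2 : deriv (fun t => F.x t - F.c * t) t = ⟪F.n, P.M (t • F.w) F.w⟫ - F.c * 1 := h
      rw [h2]
      have := F.hb (t • F.w)
      linarith
  have hc := F.hc
  intro y
  have hr := mem_range_of_exists_le_of_exists_ge (c := y) F.contx ?_ ?_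
  · exact hr
  · refine ⟨min 0 (y / F.c), ?_⟩
    have h1 := hmono (min_le_left 0 (y / F.c))
    simp only [mul_zero, F.x_zero, sub_zero] at h1
    have h2 : F.c * min 0 (y / F.c) ≤ y := by
      have := min_le_right 0 (y / F.c)
      calc F.c * min 0 (y / F.c) ≤ F.c * (y / F.c) := mul_le_mul_of_nonneg_left this hc.le
        _ = y := by field_simp
    linarith
  · refine ⟨max 0 (y / F.c), ?_⟩
    have h1 := hmono (le_max_left 0 (y / F.c))
    simp only [mul_zero, F.x_zero, sub_zero] at h1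
    have h2 : y ≤ F.c * max 0 (y / F.c) := by
      have := le_max_right 0 (y / F.c)
      calc y = F.c * (y / F.c) := by field_simp
        _ ≤ F.c * max 0 (y / F.c) := mul_le_mul_of_nonneg_left this hc.le
    linarith

noncomputable def iso : ℝ ≃o ℝ := F.x_strict.orderIsoOfSurjective F.x F.x_surj

/-- the inverse of the height function -/
noncomputable def τ (s : ℝ) : ℝ := F.iso.symm s

theorem x_τ (s : ℝ) : F.x (F.τ s) = s := F.iso.apply_symm_apply s
theorem τ_x (t : ℝ) : F.τ (F.x t) = t := F.iso.symm_apply_apply t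
theorem contτ : Continuous F.τ := F.iso.symm.continuous

/-- the speed -/
noncomputable def b (s : ℝ) : ℝ := ⟪F.n, P.M (F.τ s • F.w) F.w⟫

theorem b_pos (s : ℝ) : 0 < F.b s := F.hc.trans_le (F.hb _)

theorem hτ (s : ℝ) : HasDerivAt F.τ (F.b s)⁻¹ s := by
  apply HasDerivAt.of_local_left_inverse F.contτ.continuousAt (F.hx (F.τ s)) (F.b_pos s).ne'
  exact Filter.Eventually.of_forall F.x_τ

theorem contb : Continuous F.b := by
  unfold b
  exact continuous_const.inner ((P.contM.comp (F.contτ.smul continuous_const)).clm_apply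
    continuous_const)

theorem nS (s : ℝ) : ⟪F.n, P.S (F.τ s • F.w)⟫ = s := F.x_τ s

theorem nw : ⟪F.n, F.w⟫ = 0 := by rw [real_inner_comm]; exact F.hwn

theorem nT (s : ℝ) : ⟪F.n, P.T (F.τ s • F.w)⟫ = -s := by
  unfold Planar.T
  rw [inner_sub_right, F.nS, inner_smul_right, F.nw, mul_zero, zero_sub]

theorem S_surj (q : E2) : P.S (F.τ ⟪F.n, P.S q⟫ • F.w) = P.S q := by
  set s := ⟪F.n, P.S q⟫ with hs
  set z := P.S q + P.T (F.τ s • F.w) with hz
  have h1 : ⟪F.n, z⟫ = 0 := by rw [hz, inner_add_right, F.nT, ← hs, add_neg_cancel]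
  have h2 := F.hexp z
  rw [h1, zero_smul, add_zero] at h2
  have h3 : P.S z = P.S q := P.S_key _ _
  have h4 : F.x ⟪F.w, z⟫ = F.x (F.τ s) := by
    rw [F.x_τ]; unfold x; rw [← h2, h3]
  have h5 := F.x_strict.injective h4
  rw [← h5, ← h2, h3]

theorem T_surj (q : E2) : P.T (F.τ (-⟪F.n, P.T q⟫) • F.w) = P.T q := by
  set s := -⟪F.n, P.T q⟫ with hs
  set z := P.S (F.τ s • F.w) + P.T q with hz
  have h1 : ⟪F.n, z⟫ = 0 := by rw [hz, inner_add_right, F.nS, hs, neg_add_cancel]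
  have h2 := F.hexp z
  rw [h1, zero_smul, add_zero] at h2
  have h3 : P.T z = P.T q := P.T_key _ _
  have h3' : P.S z = P.S (F.τ s • F.w) := P.S_key _ _
  have h4 : F.x ⟪F.w, z⟫ = F.x (F.τ s) := by
    rw [F.x_τ]; unfold x; rw [← h2, h3', F.nS]
  have h5 := F.x_strict.injective h4
  rw [← h5, ← h2, h3]

end Frame

variable (P)

theorem S_add (l : E2) (hl : ∀ p, P.M (p + l) = P.M p) (p : E2) : P.S (p + l) = P.S p + P.S l := by
  have h1 : ∀ p, HasFDerivAt (fun p => P.S (p + l) - P.S p) (0 : E2 →L[ℝ] E2) p := by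
    intro p
    have h : HasFDerivAt (fun p => P.S (p + l)) ((P.M (p + l)).comp (ContinuousLinearMap.id ℝ E2)) p :=
      (P.hS (p + l)).comp p ((hasFDerivAt_id p).add_const l)
    rw [ContinuousLinearMap.comp_id, hl] at h
    have h2 := h.sub (P.hS p)
    rwa [sub_self] at h2
  have h2 := is_const_of_fderiv_eq_zero (𝕜 := ℝ) (fun p => (h1 p).differentiableAt)
    (fun p => (h1 p).fderiv) p 0
  simp only [zero_add, P.S_zero, sub_zero] at h2
  rw [← h2]; abel

theorem T_add (l : E2) (hl : ∀ p, P.M (p + l) = P.M p) (p : E2) : P.T (p + l) = P.T p + P.T l := by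
  unfold T; rw [P.S_add l hl]; abel

variable {P}

namespace Frame

variable (F : P.Frame)

theorem S_period (l : E2) (hl : ∀ p, P.M (p + l) = P.M p) (s : ℝ) :
    P.S (F.τ (s + ⟪F.n, P.S l⟫) • F.w) = P.S (F.τ s • F.w + l) := by
  have := F.S_surj (F.τ s • F.w + l)
  rw [← this]
  congr 3
  rw [P.S_add l hl, inner_add_right, F.nS]

theorem T_period (l : E2) (hl : ∀ p, P.M (p + l) = P.M p) (s : ℝ) :
    P.T (F.τ (s - ⟪F.n, P.T l⟫) • F.w) = P.T (F.τ s • F.w + l) := by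
  have := F.T_surj (F.τ s • F.w + l)
  rw [← this]
  congr 3
  rw [P.T_add l hl, inner_add_right, F.nT]
  ring

theorem exists_S_period : ⟪F.n, P.S P.u⟫ ≠ 0 ∨ ⟪F.n, P.S P.v⟫ ≠ 0 := by
  by_contra hcon
  push Not at hcon
  obtain ⟨C, hC, h⟩ := bounded_of_periodic (fun p => ⟪F.n, P.S p⟫)
    (continuous_const.inner P.contS) P.u P.v P.ind
    (fun p => by rw [P.S_add _ P.hu, inner_add_right, hcon.1, add_zero])
    (fun p => by rw [P.S_add _ P.hv, inner_add_right, hcon.2, add_zero])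
  have h1 := h (F.τ (C + 1) • F.w)
  rw [F.nS, Real.norm_eq_abs, abs_of_pos (by linarith)] at h1
  linarith

theorem exists_T_period : ⟪F.n, P.T P.u⟫ ≠ 0 ∨ ⟪F.n, P.T P.v⟫ ≠ 0 := by
  by_contra hcon
  push Not at hcon
  obtain ⟨C, hC, h⟩ := bounded_of_periodic (fun p => ⟪F.n, P.T p⟫)
    (continuous_const.inner P.contT) P.u P.v P.ind
    (fun p => by rw [P.T_add _ P.hu, inner_add_right, hcon.1, add_zero])
    (fun p => by rw [P.T_add _ P.hv, inner_add_right, hcon.2, add_zero])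
  have h1 := h (F.τ (C + 1) • F.w)
  rw [F.nT, Real.norm_eq_abs, abs_neg, abs_of_pos (by linarith)] at h1
  linarith

end Frame

end Planar

end Pool.Agent.H81.Flat
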