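import Mathlib

/-!
A Fubini/Stokes lemma on a box `[0,T] × [0,L] × [0,L]`, periodic in the last two variables.
-/

namespace Pool.Agent.H81.Flat

open MeasureTheory intervalIntegral Set

/-- uncurried continuity in three variables -/
def C3 (f : ℝ → ℝ → ℝ → ℝ) : Prop := Continuous fun p : ℝ × ℝ × ℝ => f p.1 p.2.1 p.2.2

theorem C3.inner {f : ℝ → ℝ → ℝ → ℝ} (hf : C3 f) (L : ℝ) :
    Continuous fun p : ℝ × ℝ => ∫ b in (0:ℝ)..L, f p.1 p.2 b := by
  apply continuous_parametric_intervalIntegral_of_continuous'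
  exact hf.comp (f := fun q : (ℝ × ℝ) × ℝ => (q.1.1, q.1.2, q.2)) (by fun_prop)

theorem swap2 {f : ℝ → ℝ → ℝ} (hf : Continuous fun p : ℝ × ℝ => f p.1 p.2) (a b c d : ℝ) :
    ∫ x in a..b, ∫ y in c..d, f x y = ∫ y in c..d, ∫ x in a..b, f x y := by
  apply intervalIntegral_intervalIntegral_swap
  have h : IntegrableOn (Function.uncurry f) (uIcc a b ×ˢ uIcc c d) := by
    apply ContinuousOn.integrableOn_compact (isCompact_uIcc.prod isCompact_uIcc)
    exact hf.continuousOn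
  exact h.mono_set (prod_mono uIoc_subset_uIcc uIoc_subset_uIcc)

theorem cont_int {f : ℝ → ℝ → ℝ} (hf : Continuous fun p : ℝ × ℝ => f p.1 p.2) (a b : ℝ) :
    Continuous fun x => ∫ y in a..b, f x y := by
  apply continuous_parametric_intervalIntegral_of_continuous'
  exact hf

/-- The Stokes lemma. -/
theorem stokes3 (T L : ℝ) (f g gt Mb Mba Ma Mab : ℝ → ℝ → ℝ → ℝ)
    (hgt : C3 gt) (hMba : C3 Mba) (hMab : C3 Mab)
    (dg : ∀ t a b, HasDerivAt (fun t => g t a b) (gt t a b) t)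
    (dMb : ∀ t a b, HasDerivAt (fun a => Mb t a b) (Mba t a b) a)
    (dMa : ∀ t a b, HasDerivAt (fun b => Ma t a b) (Mab t a b) b)
    (pb : ∀ t b, Mb t L b = Mb t 0 b) (pa : ∀ t a, Ma t a L = Ma t a 0)
    (hf : ∀ t a b, f t a b = - gt t a b - Mba t a b + Mab t a b)
    (hg0 : Continuous fun p : ℝ × ℝ => g 0 p.1 p.2)
    (hgT : Continuous fun p : ℝ × ℝ => g T p.1 p.2) :
    ∫ t in (0:ℝ)..T, ∫ a in (0:ℝ)..L, ∫ b in (0:ℝ)..L, f t a b
      = (∫ a in (0:ℝ)..L, ∫ b in (0:ℝ)..L, g 0 a b)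
        - ∫ a in (0:ℝ)..L, ∫ b in (0:ℝ)..L, g T a b := by
  -- inner integral of each piece
  have c3 : ∀ {h : ℝ → ℝ → ℝ → ℝ}, C3 h → ∀ t a, Continuous fun b => h t a b := by
    intro h hh t a
    exact hh.comp (f := fun b : ℝ => (t, a, b)) (by fun_prop)
  have c3a : ∀ {h : ℝ → ℝ → ℝ → ℝ}, C3 h → ∀ t, Continuous fun p : ℝ × ℝ => h t p.1 p.2 := by
    intro h hh t
    exact hh.comp (f := fun p : ℝ × ℝ => (t, p.1, p.2)) (by fun_prop)
  have c3c : ∀ {h : ℝ → ℝ → ℝ → ℝ}, C3 h → ∀ a, Continuous fun p : ℝ × ℝ => h p.1 a p.2 := by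
    intro h hh a
    exact hh.comp (f := fun p : ℝ × ℝ => (p.1, a, p.2)) (by fun_prop)
  have i3 : ∀ {h : ℝ → ℝ → ℝ → ℝ}, C3 h → Continuous fun p : ℝ × ℝ => ∫ b in (0:ℝ)..L, h p.1 p.2 b :=
    fun hh => hh.inner L
  have i2 : ∀ {h : ℝ → ℝ → ℝ → ℝ}, C3 h →
      Continuous fun t => ∫ a in (0:ℝ)..L, ∫ b in (0:ℝ)..L, h t a b := by
    intro h hh
    exact cont_int (f := fun t a => ∫ b in (0:ℝ)..L, h t a b) (i3 hh) 0 L
  have i1 : ∀ {h : ℝ → ℝ → ℝ → ℝ}, C3 h → ∀ t, Continuous fun a => ∫ b in (0:ℝ)..L, h t a b := by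
    intro h hh t
    exact cont_int (f := fun a b => h t a b) (c3a hh t) 0 L
  have zb : ∀ t a, ∫ b in (0:ℝ)..L, Mab t a b = 0 := by
    intro t a
    rw [integral_eq_sub_of_hasDerivAt (f := fun b => Ma t a b) (fun b _ => dMa t a b)
      ((c3 hMab t a).intervalIntegrable _ _), pa t a, sub_self]
  have za : ∀ t, ∫ a in (0:ℝ)..L, ∫ b in (0:ℝ)..L, Mba t a b = 0 := by
    intro t
    rw [swap2 (f := fun a b => Mba t a b) (c3a hMba t)]
    have : ∀ b, ∫ a in (0:ℝ)..L, Mba t a b = 0 := by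
      intro b
      rw [integral_eq_sub_of_hasDerivAt (f := fun a => Mb t a b) (fun a _ => dMb t a b), pb t b,
        sub_self]
      apply Continuous.intervalIntegrable
      exact hMba.comp (f := fun a : ℝ => (t, a, b)) (by fun_prop)
    simp only [this, intervalIntegral.integral_zero]
  have zt : ∫ t in (0:ℝ)..T, ∫ a in (0:ℝ)..L, ∫ b in (0:ℝ)..L, gt t a b
      = (∫ a in (0:ℝ)..L, ∫ b in (0:ℝ)..L, g T a b)
        - ∫ a in (0:ℝ)..L, ∫ b in (0:ℝ)..L, g 0 a b := by
    rw [swap2 (f := fun t a => ∫ b in (0:ℝ)..L, gt t a b) (i3 hgt)]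
    have e1 : ∀ a, ∫ t in (0:ℝ)..T, ∫ b in (0:ℝ)..L, gt t a b
        = (∫ b in (0:ℝ)..L, g T a b) - ∫ b in (0:ℝ)..L, g 0 a b := by
      intro a
      rw [swap2 (f := fun t b => gt t a b) (c3c hgt a)]
      rw [← intervalIntegral.integral_sub]
      · congr 1
        ext b
        rw [integral_eq_sub_of_hasDerivAt (f := fun t => g t a b) (fun t _ => dg t a b)]
        apply Continuous.intervalIntegrable
        exact hgt.comp (f := fun t : ℝ => (t, a, b)) (by fun_prop)
      · apply Continuous.intervalIntegrable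
        exact hgT.comp (f := fun b : ℝ => (a, b)) (by fun_prop)
      · apply Continuous.intervalIntegrable
        exact hg0.comp (f := fun b : ℝ => (a, b)) (by fun_prop)
    simp only [e1]
    rw [intervalIntegral.integral_sub]
    · exact (cont_int (f := fun a b => g T a b) hgT 0 L).intervalIntegrable _ _
    · exact (cont_int (f := fun a b => g 0 a b) hg0 0 L).intervalIntegrable _ _
  have split : ∀ t a, ∫ b in (0:ℝ)..L, f t a b
      = - (∫ b in (0:ℝ)..L, gt t a b) - (∫ b in (0:ℝ)..L, Mba t a b) := by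
    intro t a
    have : ∀ b, f t a b = (- gt t a b - Mba t a b) + Mab t a b := fun b => hf t a b
    simp only [this]
    rw [intervalIntegral.integral_add, zb, add_zero, intervalIntegral.integral_sub,
      intervalIntegral.integral_neg]
    · exact (c3 hgt t a).neg.intervalIntegrable _ _
    · exact (c3 hMba t a).intervalIntegrable _ _
    · exact ((c3 hgt t a).neg.sub (c3 hMba t a)).intervalIntegrable _ _
    · exact (c3 hMab t a).intervalIntegrable _ _
  have split2 : ∀ t, ∫ a in (0:ℝ)..L, ∫ b in (0:ℝ)..L, f t a b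
      = - ∫ a in (0:ℝ)..L, ∫ b in (0:ℝ)..L, gt t a b := by
    intro t
    simp only [split t]
    rw [intervalIntegral.integral_sub, za, sub_zero, intervalIntegral.integral_neg]
    · exact (i1 hgt t).neg.intervalIntegrable _ _
    · exact (i1 hMba t).intervalIntegrable _ _
  simp only [split2]
  rw [intervalIntegral.integral_neg, zt]
  ring

end Pool.Agent.H81.Flat
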