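import Mathlib
import Pool.Agent.H81.Flat.Alg
import Pool.Agent.H81.Flat.Stokes

/-!
The exact forms `η_n` on the 3-sphere.
-/

namespace Pool.Agent.H81.Flat

open Quaternion MeasureTheory intervalIntegral Set

/-! ### components as continuous linear maps -/

noncomputable def Lre : ℍ[ℝ] →L[ℝ] ℝ :=
  LinearMap.toContinuousLinearMap { toFun := fun q => q.re, map_add' := by intro a b; simp, map_smul' := by intro a b; simp }
noncomputable def LI : ℍ[ℝ] →L[ℝ] ℝ :=
  LinearMap.toContinuousLinearMap { toFun := fun q => q.imI, map_add' := by intro a b; simp, map_smul' := by intro a b; simp }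
noncomputable def LJ : ℍ[ℝ] →L[ℝ] ℝ :=
  LinearMap.toContinuousLinearMap { toFun := fun q => q.imJ, map_add' := by intro a b; simp, map_smul' := by intro a b; simp }
noncomputable def LK : ℍ[ℝ] →L[ℝ] ℝ :=
  LinearMap.toContinuousLinearMap { toFun := fun q => q.imK, map_add' := by intro a b; simp, map_smul' := by intro a b; simp }
noncomputable def Lstar : ℍ[ℝ] →L[ℝ] ℍ[ℝ] :=
  LinearMap.toContinuousLinearMap { toFun := fun q => star q, map_add' := by intro a b; simp, map_smul' := by intro a b; simp }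

theorem dre {f : ℝ → ℍ[ℝ]} {f' : ℍ[ℝ]} {x : ℝ} (h : HasDerivAt f f' x) :
    HasDerivAt (fun t => (f t).re) f'.re x := Lre.hasFDerivAt.comp_hasDerivAt x h
theorem dI {f : ℝ → ℍ[ℝ]} {f' : ℍ[ℝ]} {x : ℝ} (h : HasDerivAt f f' x) :
    HasDerivAt (fun t => (f t).imI) f'.imI x := LI.hasFDerivAt.comp_hasDerivAt x h
theorem dJ {f : ℝ → ℍ[ℝ]} {f' : ℍ[ℝ]} {x : ℝ} (h : HasDerivAt f f' x) :
    HasDerivAt (fun t => (f t).imJ) f'.imJ x := LJ.hasFDerivAt.comp_hasDerivAt x h
theorem dK {f : ℝ → ℍ[ℝ]} {f' : ℍ[ℝ]} {x : ℝ} (h : HasDerivAt f f' x) :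
    HasDerivAt (fun t => (f t).imK) f'.imK x := LK.hasFDerivAt.comp_hasDerivAt x h

theorem dip {f g : ℝ → ℍ[ℝ]} {f' g' : ℍ[ℝ]} {x : ℝ} (hf : HasDerivAt f f' x)
    (hg : HasDerivAt g g' x) :
    HasDerivAt (fun t => ip (f t) (g t)) (ip f' (g x) + ip (f x) g') x := by
  have h := ((((dre hf).mul (dre hg)).add ((dI hf).mul (dI hg))).add
    ((dJ hf).mul (dJ hg))).add ((dK hf).mul (dK hg))
  exact h.congr_deriv (by simp only [ip]; ring)

theorem dt3 {f g k : ℝ → ℍ[ℝ]} {f' g' k' : ℍ[ℝ]} {x : ℝ} (hf : HasDerivAt f f' x)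
    (hg : HasDerivAt g g' x) (hk : HasDerivAt k k' x) :
    HasDerivAt (fun t => t3 (f t) (g t) (k t))
      (t3 f' (g x) (k x) + t3 (f x) g' (k x) + t3 (f x) (g x) k') x := by
  have h := (((dI hf).mul (((dJ hg).mul (dK hk)).sub ((dK hg).mul (dJ hk)))).add
    ((dJ hf).mul (((dK hg).mul (dI hk)).sub ((dI hg).mul (dK hk))))).add
    ((dK hf).mul (((dI hg).mul (dJ hk)).sub ((dJ hg).mul (dI hk))))
  exact h.congr_deriv (by simp only [t3, Pi.mul_apply, Pi.sub_apply]; ring)

theorem cont_ip {X : Type*} [TopologicalSpace X] {f g : X → ℍ[ℝ]} (hf : Continuous f)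
    (hg : Continuous g) : Continuous fun x => ip (f x) (g x) := by
  have h1 := Quaternion.continuous_re
  have h2 := Quaternion.continuous_imI
  have h3 := Quaternion.continuous_imJ
  have h4 := Quaternion.continuous_imK
  unfold ip
  exact ((((h1.comp hf).mul (h1.comp hg)).add ((h2.comp hf).mul (h2.comp hg))).add
    ((h3.comp hf).mul (h3.comp hg))).add ((h4.comp hf).mul (h4.comp hg))

theorem cont_t3 {X : Type*} [TopologicalSpace X] {f g k : X → ℍ[ℝ]} (hf : Continuous f)
    (hg : Continuous g) (hk : Continuous k) : Continuous fun x => t3 (f x) (g x) (k x) := by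
  have h2 := Quaternion.continuous_imI
  have h3 := Quaternion.continuous_imJ
  have h4 := Quaternion.continuous_imK
  unfold t3
  exact (((h2.comp hf).mul (((h3.comp hg).mul (h4.comp hk)).sub ((h4.comp hg).mul (h3.comp hk)))).add
    ((h3.comp hf).mul (((h4.comp hg).mul (h2.comp hk)).sub ((h2.comp hg).mul (h4.comp hk))))).add
    ((h4.comp hf).mul (((h2.comp hg).mul (h3.comp hk)).sub ((h3.comp hg).mul (h2.comp hk))))

/-! ### algebra of `ip` -/

theorem ip_comm (a b : ℍ[ℝ]) : ip a b = ip b a := by simp only [ip]; ring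

theorem ip_mul_left (x p q : ℍ[ℝ]) : ip (x * p) (x * q) = ip x x * ip p q := by
  simp only [ip, Quaternion.re_mul, Quaternion.imI_mul, Quaternion.imJ_mul, Quaternion.imK_mul]
  ring

theorem ip_mul_right (x p q : ℍ[ℝ]) : ip (p * x) (q * x) = ip x x * ip p q := by
  simp only [ip, Quaternion.re_mul, Quaternion.imI_mul, Quaternion.imJ_mul, Quaternion.imK_mul]
  ring

theorem ip_star (p q : ℍ[ℝ]) : ip (star p) (star q) = ip p q := by
  simp only [ip, Quaternion.re_star, Quaternion.imI_star, Quaternion.imJ_star,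
    Quaternion.imK_star]
  ring

theorem star_mul_self_of (c : ℍ[ℝ]) (h : ip c c = 1) : star c * c = 1 := by
  simp only [ip] at h
  ext <;> simp [Quaternion.re_mul, Quaternion.imI_mul, Quaternion.imJ_mul, Quaternion.imK_mul] <;>
    linarith

theorem self_mul_star_of (c : ℍ[ℝ]) (h : ip c c = 1) : c * star c = 1 := by
  simp only [ip] at h
  ext <;> simp [Quaternion.re_mul, Quaternion.imI_mul, Quaternion.imJ_mul, Quaternion.imK_mul] <;>
    linarith

/-- A closed curve in the unit 3-sphere of class `C¹`. -/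
structure Loop where
  c : ℝ → ℍ[ℝ]
  c' : ℝ → ℍ[ℝ]
  L : ℝ
  hL : 0 < L
  hc : ∀ s, HasDerivAt c (c' s) s
  hc' : Continuous c'
  hn : ∀ s, ip (c s) (c s) = 1
  per : ∀ s, c (s + L) = c s
  per' : ∀ s, c' (s + L) = c' s

namespace Loop

variable (l : Loop)

noncomputable def G (a b : ℝ) : ℍ[ℝ] := star (l.c a) * l.c b
noncomputable def Ga (a b : ℝ) : ℍ[ℝ] := star (l.c' a) * l.c b
noncomputable def Gb (a b : ℝ) : ℍ[ℝ] := star (l.c a) * l.c' b
noncomputable def Gab (a b : ℝ) : ℍ[ℝ] := star (l.c' a) * l.c' b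

theorem contc : Continuous l.c := continuous_iff_continuousAt.2 fun s => (l.hc s).continuousAt

theorem cc' (s : ℝ) : ip (l.c s) (l.c' s) = 0 := by
  have h := dip (l.hc s) (l.hc s)
  have h0 : (fun t => ip (l.c t) (l.c t)) = fun _ => 1 := by ext t; exact l.hn t
  rw [h0] at h
  have h1 := h.unique (hasDerivAt_const s (1:ℝ))
  rw [ip_comm (l.c' s)] at h1
  linarith

theorem hasDerivAt_star {f : ℝ → ℍ[ℝ]} {f' : ℍ[ℝ]} {x : ℝ} (h : HasDerivAt f f' x) :
    HasDerivAt (fun t => star (f t)) (star f') x := by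
  exact Lstar.hasFDerivAt.comp_hasDerivAt x h

theorem dGa (a b : ℝ) : HasDerivAt (fun a => l.G a b) (l.Ga a b) a := by
  unfold G Ga
  exact (hasDerivAt_star (l.hc a)).mul_const _

theorem dGb (a b : ℝ) : HasDerivAt (fun b => l.G a b) (l.Gb a b) b := by
  unfold G Gb
  exact (l.hc b).const_mul _

theorem dGab (a b : ℝ) : HasDerivAt (fun a => l.Gb a b) (l.Gab a b) a := by
  unfold Gb Gab
  exact (hasDerivAt_star (l.hc a)).mul_const _

theorem dGba (a b : ℝ) : HasDerivAt (fun b => l.Ga a b) (l.Gab a b) b := by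
  unfold Ga Gab
  exact (l.hc b).const_mul _

theorem cG : Continuous fun p : ℝ × ℝ => l.G p.1 p.2 := by
  unfold G; exact (continuous_star.comp (l.contc.comp continuous_fst)).mul (l.contc.comp continuous_snd)
theorem cGa : Continuous fun p : ℝ × ℝ => l.Ga p.1 p.2 := by
  unfold Ga; exact (continuous_star.comp (l.hc'.comp continuous_fst)).mul (l.contc.comp continuous_snd)
theorem cGb : Continuous fun p : ℝ × ℝ => l.Gb p.1 p.2 := by
  unfold Gb; exact (continuous_star.comp (l.contc.comp continuous_fst)).mul (l.hc'.comp continuous_snd)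
theorem cGab : Continuous fun p : ℝ × ℝ => l.Gab p.1 p.2 := by
  unfold Gab; exact (continuous_star.comp (l.hc'.comp continuous_fst)).mul (l.hc'.comp continuous_snd)

theorem GG (a b : ℝ) : ip (l.G a b) (l.G a b) = 1 := by
  unfold G; rw [ip_mul_left, l.hn, mul_one, ip_star, l.hn]

theorem GGa (a b : ℝ) : ip (l.G a b) (l.Ga a b) = 0 := by
  unfold G Ga; rw [ip_mul_right, ip_star, l.cc', mul_zero]

theorem GGb (a b : ℝ) : ip (l.G a b) (l.Gb a b) = 0 := by
  unfold G Gb; rw [ip_mul_left, l.cc', mul_zero]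

end Loop

/-! ### the polynomials `χ_n` -/

theorem exists_chi (n : ℕ) : ∃ (χ χ' : ℝ → ℝ) (m : ℝ), (∀ v, HasDerivAt χ (χ' v) v) ∧
    Continuous χ' ∧ ∀ v, v * (2 - v) * χ' v - 3 * (v - 1) * χ v = m - v ^ n := by
  induction n with
  | zero =>
    refine ⟨fun _ => 0, fun _ => 0, 1, fun v => hasDerivAt_const v 0, continuous_const, ?_⟩
    intro v; simp
  | succ k ih =>
    obtain ⟨χ, χ', m, h1, h2, h3⟩ := ih
    have hk : (k:ℝ) + 3 ≠ 0 := by positivity
    refine ⟨fun v => ((2 * k + 3) * χ v + v ^ k) / (k + 3),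
      fun v => ((2 * k + 3) * χ' v + k * v ^ (k - 1)) / (k + 3), (2 * k + 3) / (k + 3) * m,
      ?_, ?_, ?_⟩
    · intro v
      exact (((h1 v).const_mul _).add (hasDerivAt_pow k v)).div_const _
    · exact ((continuous_const.mul h2).add (continuous_const.mul (continuous_pow _))).div_const _
    · intro v
      have h := h3 v
      have hp : (k:ℝ) * v ^ (k - 1) * v = k * v ^ k := by
        rcases k with _ | k
        · simp
        · simp only [Nat.add_sub_cancel]; ring
      field_simp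
      rw [pow_succ]
      linear_combination (2 * (k:ℝ) + 3) * h + (2 - v) * hp

noncomputable def chi (n : ℕ) : ℝ → ℝ := (exists_chi n).choose
noncomputable def chi' (n : ℕ) : ℝ → ℝ := (exists_chi n).choose_spec.choose
noncomputable def mm (n : ℕ) : ℝ := (exists_chi n).choose_spec.choose_spec.choose
theorem chi_deriv (n : ℕ) (v : ℝ) : HasDerivAt (chi n) (chi' n v) v :=
  (exists_chi n).choose_spec.choose_spec.choose_spec.1 v
theorem chi'_cont (n : ℕ) : Continuous (chi' n) :=
  (exists_chi n).choose_spec.choose_spec.choose_spec.2.1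
theorem chi_eq (n : ℕ) (v : ℝ) : v * (2 - v) * chi' n v - 3 * (v - 1) * chi n v = mm n - v ^ n :=
  (exists_chi n).choose_spec.choose_spec.choose_spec.2.2 v
theorem chi_cont (n : ℕ) : Continuous (chi n) :=
  continuous_iff_continuousAt.2 fun v => (chi_deriv n v).continuousAt

/-- The potential. -/
noncomputable def Loop.B (l : Loop) (n : ℕ) (u : ℍ[ℝ]) : ℝ :=
  ∫ a in (0:ℝ)..l.L, ∫ b in (0:ℝ)..l.L,
    chi n (1 + (u * l.G a b).re) * t3 (u * l.G a b) (u * l.Ga a b) (u * l.Gb a b)

/-- rotation in the direction `-s`. -/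
noncomputable def rot (s : ℍ[ℝ]) (t : ℝ) : ℍ[ℝ] := (Real.cos t : ℝ) • (1:ℍ[ℝ]) - (Real.sin t : ℝ) • s

theorem rot_zero (s : ℍ[ℝ]) : rot s 0 = 1 := by simp [rot]

theorem rot_unit (s : ℍ[ℝ]) (t : ℝ) (hs : s.re = 0) (hs1 : ip s s = 1) : ip (rot s t) (rot s t) = 1 := by
  have h := Real.sin_sq_add_cos_sq t
  simp only [ip, hs] at hs1
  simp only [ip, rot, Quaternion.re_sub, Quaternion.imI_sub, Quaternion.imJ_sub,
    Quaternion.imK_sub, Quaternion.re_smul, Quaternion.imI_smul, Quaternion.imJ_smul,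
    Quaternion.imK_smul, hs, Quaternion.re_one, Quaternion.imI_one, Quaternion.imJ_one,
    Quaternion.imK_one, smul_eq_mul]
  linear_combination h + (Real.sin t)^2 * hs1

theorem sq_of_unit (s : ℍ[ℝ]) (hs : s.re = 0) (hs1 : ip s s = 1) : s * s = -1 := by
  simp only [ip, hs] at hs1
  ext <;> simp [hs] <;> linarith

theorem rot_deriv (s : ℍ[ℝ]) (t : ℝ) (hs : s.re = 0) (hs1 : ip s s = 1) :
    HasDerivAt (rot s) (- (s * rot s t)) t := by
  have h1 : HasDerivAt (rot s) ((-Real.sin t : ℝ) • (1:ℍ[ℝ]) - (Real.cos t : ℝ) • s) t :=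
    ((Real.hasDerivAt_cos t).smul_const (1:ℍ[ℝ])).sub ((Real.hasDerivAt_sin t).smul_const s)
  convert h1 using 1
  have h2 := sq_of_unit s hs hs1
  rw [rot, mul_sub, mul_smul_comm, mul_smul_comm, mul_one, h2]
  module

theorem rot_cont (s : ℍ[ℝ]) : Continuous (rot s) := by
  unfold rot
  exact ((Real.continuous_cos).smul continuous_const).sub ((Real.continuous_sin).smul continuous_const)

/-- The exactness theorem. -/
theorem exact (l : Loop) (n : ℕ) (s u : ℍ[ℝ]) (hs : s.re = 0) (hs1 : ip s s = 1)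
    (hu : ip u u = 1) (T : ℝ) :
    ∫ t in (0:ℝ)..T, ∫ a in (0:ℝ)..l.L, ∫ b in (0:ℝ)..l.L,
      (1 + ((rot s t * u) * l.G a b).re) ^ n
        * ip (s * ((rot s t * u) * l.Ga a b)) ((rot s t * u) * l.Gb a b)
      = l.B n u - l.B n (rot s T * u) := by
  set H : ℝ → ℝ → ℝ → ℍ[ℝ] := fun t a b => (rot s t * u) * l.G a b with hH
  set A : ℝ → ℝ → ℝ → ℍ[ℝ] := fun t a b => (rot s t * u) * l.Ga a b with hA
  set B : ℝ → ℝ → ℝ → ℍ[ℝ] := fun t a b => (rot s t * u) * l.Gb a b with hB
  set C : ℝ → ℝ → ℝ → ℍ[ℝ] := fun t a b => (rot s t * u) * l.Gab a b with hC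
  have dt : ∀ (X : ℍ[ℝ]) (t : ℝ), HasDerivAt (fun t => rot s t * u * X) (-(s * (rot s t * u * X))) t := by
    intro X t
    have h := ((rot_deriv s t hs hs1).mul_const u).mul_const X
    exact h.congr_deriv (by simp only [neg_mul, mul_assoc])
  have dHt : ∀ t a b, HasDerivAt (fun t => H t a b) (-(s * H t a b)) t := fun t a b => dt _ t
  have dAt : ∀ t a b, HasDerivAt (fun t => A t a b) (-(s * A t a b)) t := fun t a b => dt _ t
  have dBt : ∀ t a b, HasDerivAt (fun t => B t a b) (-(s * B t a b)) t := fun t a b => dt _ t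
  have dHa : ∀ t a b, HasDerivAt (fun a => H t a b) (A t a b) a := fun t a b =>
    (l.dGa a b).const_mul _
  have dHb : ∀ t a b, HasDerivAt (fun b => H t a b) (B t a b) b := fun t a b =>
    (l.dGb a b).const_mul _
  have dBa : ∀ t a b, HasDerivAt (fun a => B t a b) (C t a b) a := fun t a b =>
    (l.dGab a b).const_mul _
  have dAb : ∀ t a b, HasDerivAt (fun b => A t a b) (C t a b) b := fun t a b =>
    (l.dGba a b).const_mul _
  have hHH : ∀ t a b, ip (H t a b) (H t a b) = 1 := by
    intro t a b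
    simp only [hH]
    rw [ip_mul_left, ip_mul_left, rot_unit s t hs hs1, hu, l.GG]; norm_num
  have hHA : ∀ t a b, ip (H t a b) (A t a b) = 0 := by
    intro t a b
    simp only [hH, hA]
    rw [ip_mul_left, l.GGa]; ring
  have hHB : ∀ t a b, ip (H t a b) (B t a b) = 0 := by
    intro t a b
    simp only [hH, hB]
    rw [ip_mul_left, l.GGb]; ring
  -- continuity
  have cr : Continuous fun p : ℝ × ℝ × ℝ => rot s p.1 * u :=
    ((rot_cont s).comp continuous_fst).mul continuous_const
  have cH : Continuous fun p : ℝ × ℝ × ℝ => H p.1 p.2.1 p.2.2 := cr.mul (l.cG.comp continuous_snd)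
  have cA : Continuous fun p : ℝ × ℝ × ℝ => A p.1 p.2.1 p.2.2 := cr.mul (l.cGa.comp continuous_snd)
  have cB : Continuous fun p : ℝ × ℝ × ℝ => B p.1 p.2.1 p.2.2 := cr.mul (l.cGb.comp continuous_snd)
  have cC : Continuous fun p : ℝ × ℝ × ℝ => C p.1 p.2.1 p.2.2 := cr.mul (l.cGab.comp continuous_snd)
  have cs : ∀ {f : ℝ × ℝ × ℝ → ℍ[ℝ]}, Continuous f → Continuous fun p => s * f p :=
    fun hf => continuous_const.mul hf
  have cre : ∀ {f : ℝ × ℝ × ℝ → ℍ[ℝ]}, Continuous f → Continuous fun p => (f p).re :=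
    fun hf => Quaternion.continuous_re.comp hf
  have cchi : Continuous fun p : ℝ × ℝ × ℝ => chi n (1 + (H p.1 p.2.1 p.2.2).re) :=
    (chi_cont n).comp (continuous_const.add (cre cH))
  have cchi' : Continuous fun p : ℝ × ℝ × ℝ => chi' n (1 + (H p.1 p.2.1 p.2.2).re) :=
    (chi'_cont n).comp (continuous_const.add (cre cH))
  -- derivative of chi
  have dchi : ∀ {f : ℝ → ℍ[ℝ]} {f' : ℍ[ℝ]} {x : ℝ}, HasDerivAt f f' x →
      HasDerivAt (fun t => chi n (1 + (f t).re)) (chi' n (1 + (f x).re) * f'.re) x := by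
    intro f f' x hf
    exact (chi_deriv n _).comp x ((dre hf).const_add 1)
  have key := stokes3 T l.L
    (fun t a b => (1 + (H t a b).re) ^ n * ip (s * A t a b) (B t a b))
    (fun t a b => chi n (1 + (H t a b).re) * t3 (H t a b) (A t a b) (B t a b))
    (fun t a b => chi' n (1 + (H t a b).re) * (-(s * H t a b)).re * t3 (H t a b) (A t a b) (B t a b)
      + chi n (1 + (H t a b).re) * (t3 (-(s * H t a b)) (A t a b) (B t a b)
        + t3 (H t a b) (-(s * A t a b)) (B t a b) + t3 (H t a b) (A t a b) (-(s * B t a b))))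
    (fun t a b => chi n (1 + (H t a b).re) * t3 (H t a b) (s * H t a b) (B t a b)
      - mm n / 2 * ip (s * H t a b) (B t a b))
    (fun t a b => (chi' n (1 + (H t a b).re) * (A t a b).re * t3 (H t a b) (s * H t a b) (B t a b)
      + chi n (1 + (H t a b).re) * (t3 (A t a b) (s * H t a b) (B t a b)
        + t3 (H t a b) (s * A t a b) (B t a b) + t3 (H t a b) (s * H t a b) (C t a b)))
      - mm n / 2 * (ip (s * A t a b) (B t a b) + ip (s * H t a b) (C t a b)))
    (fun t a b => chi n (1 + (H t a b).re) * t3 (H t a b) (s * H t a b) (A t a b)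
      - mm n / 2 * ip (s * H t a b) (A t a b))
    (fun t a b => (chi' n (1 + (H t a b).re) * (B t a b).re * t3 (H t a b) (s * H t a b) (A t a b)
      + chi n (1 + (H t a b).re) * (t3 (B t a b) (s * H t a b) (A t a b)
        + t3 (H t a b) (s * B t a b) (A t a b) + t3 (H t a b) (s * H t a b) (C t a b)))
      - mm n / 2 * (ip (s * B t a b) (A t a b) + ip (s * H t a b) (C t a b)))
    ?_ ?_ ?_ ?_ ?_ ?_ ?_ ?_ ?_ ?_ ?_
  · rw [key]
    unfold Loop.B
    simp only [hH, hA, hB, rot_zero, one_mul]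
  · -- gt continuous
    exact ((cchi'.mul (cre (cs cH).neg)).mul (cont_t3 cH cA cB)).add
      (cchi.mul (((cont_t3 (cs cH).neg cA cB).add (cont_t3 cH (cs cA).neg cB)).add
        (cont_t3 cH cA (cs cB).neg)))
  · exact (((cchi'.mul (cre cA)).mul (cont_t3 cH (cs cH) cB)).add
      (cchi.mul (((cont_t3 cA (cs cH) cB).add (cont_t3 cH (cs cA) cB)).add
        (cont_t3 cH (cs cH) cC)))).sub
      (continuous_const.mul ((cont_ip (cs cA) cB).add (cont_ip (cs cH) cC)))
  · exact (((cchi'.mul (cre cB)).mul (cont_t3 cH (cs cH) cA)).add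
      (cchi.mul (((cont_t3 cB (cs cH) cA).add (cont_t3 cH (cs cB) cA)).add
        (cont_t3 cH (cs cH) cC)))).sub
      (continuous_const.mul ((cont_ip (cs cB) cA).add (cont_ip (cs cH) cC)))
  · intro t a b
    exact (dchi (dHt t a b)).mul (dt3 (dHt t a b) (dAt t a b) (dBt t a b))
  · intro t a b
    exact ((dchi (dHa t a b)).mul (dt3 (dHa t a b) ((dHa t a b).const_mul s) (dBa t a b))).sub
      ((dip ((dHa t a b).const_mul s) (dBa t a b)).const_mul _)
  · intro t a b
    exact ((dchi (dHb t a b)).mul (dt3 (dHb t a b) ((dHb t a b).const_mul s) (dAb t a b))).sub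
      ((dip ((dHb t a b).const_mul s) (dAb t a b)).const_mul _)
  · intro t b
    have e1 : l.G l.L b = l.G 0 b := by
      unfold Loop.G; rw [← l.per 0, zero_add]
    have e2 : l.Gb l.L b = l.Gb 0 b := by
      unfold Loop.Gb; rw [← l.per 0, zero_add]
    simp only [hH, hB, e1, e2]
  · intro t a
    have e1 : l.G a l.L = l.G a 0 := by
      unfold Loop.G; rw [← l.per 0, zero_add]
    have e2 : l.Ga a l.L = l.Ga a 0 := by
      unfold Loop.Ga; rw [← l.per 0, zero_add]
    simp only [hH, hA, e1, e2]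
  · intro t a b
    have i1 := id1 s (H t a b) (A t a b) (B t a b) hs (hHH t a b) (hHA t a b) (hHB t a b)
    have i2 := id2 s (H t a b) (A t a b) (B t a b) hs (hHH t a b) (hHA t a b) (hHB t a b)
    have i3 := chi_eq n (1 + (H t a b).re)
    have j1 : t3 (-(s * H t a b)) (A t a b) (B t a b) = - t3 (s * H t a b) (A t a b) (B t a b) := by
      simp only [t3, Quaternion.imI_neg, Quaternion.imJ_neg, Quaternion.imK_neg]; ring
    have j2 : t3 (H t a b) (-(s * A t a b)) (B t a b) = - t3 (H t a b) (s * A t a b) (B t a b) := by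
      simp only [t3, Quaternion.imI_neg, Quaternion.imJ_neg, Quaternion.imK_neg]; ring
    have j3 : t3 (H t a b) (A t a b) (-(s * B t a b)) = t3 (H t a b) (s * B t a b) (A t a b) := by
      simp only [t3, Quaternion.imI_neg, Quaternion.imJ_neg, Quaternion.imK_neg]; ring
    have j4 : t3 (A t a b) (s * H t a b) (B t a b) = - t3 (s * H t a b) (A t a b) (B t a b) := by
      simp only [t3]; ring
    have j5 : t3 (B t a b) (s * H t a b) (A t a b) = t3 (s * H t a b) (A t a b) (B t a b) := by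
      simp only [t3]; ring
    have j6 : ip (s * B t a b) (A t a b) = - ip (s * A t a b) (B t a b) := by
      simp only [ip, Quaternion.re_mul, Quaternion.imI_mul, Quaternion.imJ_mul,
        Quaternion.imK_mul, hs]
      ring
    rw [j1, j2, j3, j4, j5, j6, i1, Quaternion.re_neg]
    linear_combination (ip (s * A t a b) (B t a b)) * i3 + (chi' n (1 + (H t a b).re)) * i2
  · exact ((chi_cont n).comp (continuous_const.add (Quaternion.continuous_re.comp
      (continuous_const.mul l.cG)))).mul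
      (cont_t3 (continuous_const.mul l.cG) (continuous_const.mul l.cGa) (continuous_const.mul l.cGb))
  · exact ((chi_cont n).comp (continuous_const.add (Quaternion.continuous_re.comp
      (continuous_const.mul l.cG)))).mul
      (cont_t3 (continuous_const.mul l.cG) (continuous_const.mul l.cGa) (continuous_const.mul l.cGb))

end Pool.Agent.H81.Flat
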