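import Mathlib
import Pool.Agent.H81.Flat.Stokes

/-!
Exponential growth of `∫ q (1+f)^n` when `f` reaches its maximum `1` and `q > 0` there.
-/

namespace Pool.Agent.H81.Flat

open MeasureTheory intervalIntegral Set

theorem exists_sub (T t0 η : ℝ) (hT : 0 < T) (h0 : 0 ≤ t0) (h1 : t0 ≤ T) (hη : 0 < η) :
    ∃ p q : ℝ, 0 ≤ p ∧ p < q ∧ q ≤ T ∧ ∀ x ∈ Icc p q, |x - t0| < η := by
  rcases lt_or_ge t0 T with h | h
  · refine ⟨t0, min T (t0 + η / 2), h0, lt_min h (by linarith), min_le_left _ _, ?_⟩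
    intro x hx
    have := hx.2.trans (min_le_right _ _)
    rw [abs_lt]; constructor <;> linarith [hx.1]
  · refine ⟨max 0 (T - η / 2), T, le_max_left _ _, max_lt hT (by linarith), le_refl _, ?_⟩
    intro x hx
    have := (le_max_right _ _).trans hx.1
    rw [abs_lt]; constructor <;> linarith [hx.2]

/-- lower bound of an iterated integral of a function which is nonnegative on the box -/
theorem lower3 (T L : ℝ) (F : ℝ → ℝ → ℝ → ℝ) (hF : C3 F) (p1 q1 p2 q2 p3 q3 m : ℝ)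
    (h1 : 0 ≤ p1 ∧ p1 ≤ q1 ∧ q1 ≤ T) (h2 : 0 ≤ p2 ∧ p2 ≤ q2 ∧ q2 ≤ L)
    (h3 : 0 ≤ p3 ∧ p3 ≤ q3 ∧ q3 ≤ L)
    (hpos : ∀ t ∈ Icc 0 T, ∀ a ∈ Icc 0 L, ∀ b ∈ Icc 0 L, 0 ≤ F t a b)
    (hm : ∀ t ∈ Icc p1 q1, ∀ a ∈ Icc p2 q2, ∀ b ∈ Icc p3 q3, m ≤ F t a b) :
    (q1 - p1) * ((q2 - p2) * ((q3 - p3) * m))
      ≤ ∫ t in (0:ℝ)..T, ∫ a in (0:ℝ)..L, ∫ b in (0:ℝ)..L, F t a b := by
  have c3 : ∀ t a, Continuous fun b => F t a b := by
    intro t a
    exact hF.comp (f := fun b : ℝ => (t, a, b)) (by fun_prop)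
  have c2 : ∀ t, Continuous fun a => ∫ b in (0:ℝ)..L, F t a b := by
    intro t
    apply cont_int (f := fun a b => F t a b)
    exact hF.comp (f := fun p : ℝ × ℝ => (t, p.1, p.2)) (by fun_prop)
  have c1 : Continuous fun t => ∫ a in (0:ℝ)..L, ∫ b in (0:ℝ)..L, F t a b := by
    exact cont_int (f := fun t a => ∫ b in (0:ℝ)..L, F t a b) (hF.inner L) 0 L
  have hL : (0:ℝ) ≤ L := h2.1.trans (h2.2.1.trans h2.2.2)
  have hT : (0:ℝ) ≤ T := h1.1.trans (h1.2.1.trans h1.2.2)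
  -- one-dimensional lemma
  have one : ∀ (g : ℝ → ℝ) (R p q k : ℝ), Continuous g → 0 ≤ p → p ≤ q → q ≤ R →
      (∀ x ∈ Icc 0 R, 0 ≤ g x) → (∀ x ∈ Icc p q, k ≤ g x) →
      (q - p) * k ≤ ∫ x in (0:ℝ)..R, g x := by
    intro g R p q k hg hp hpq hq hpos hk
    have e1 : (q - p) * k ≤ ∫ x in p..q, g x := by
      have : ∫ x in p..q, k ≤ ∫ x in p..q, g x := by
        apply intervalIntegral.integral_mono_on hpq
        · exact continuous_const.intervalIntegrable _ _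
        · exact hg.intervalIntegrable _ _
        · intro x hx; exact hk x hx
      simpa using this
    refine e1.trans ?_
    apply intervalIntegral.integral_mono_interval hp hpq hq
    · rw [Filter.EventuallyLE, ae_restrict_iff' measurableSet_Ioc]
      exact Filter.Eventually.of_forall fun x hx => hpos x ⟨hx.1.le, hx.2⟩
    · exact hg.intervalIntegrable _ _
  have npos2 : ∀ t ∈ Icc 0 T, ∀ a ∈ Icc 0 L, 0 ≤ ∫ b in (0:ℝ)..L, F t a b := by
    intro t ht a ha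
    exact intervalIntegral.integral_nonneg hL fun b hb => hpos t ht a ha b hb
  have npos1 : ∀ t ∈ Icc 0 T, 0 ≤ ∫ a in (0:ℝ)..L, ∫ b in (0:ℝ)..L, F t a b := by
    intro t ht
    exact intervalIntegral.integral_nonneg hL fun a ha => npos2 t ht a ha
  apply one _ T p1 q1 _ c1 h1.1 h1.2.1 h1.2.2 npos1
  intro t ht
  have ht' : t ∈ Icc 0 T := ⟨h1.1.trans ht.1, ht.2.trans h1.2.2⟩
  apply one _ L p2 q2 _ (c2 t) h2.1 h2.2.1 h2.2.2 (npos2 t ht')
  intro a ha
  have ha' : a ∈ Icc 0 L := ⟨h2.1.trans ha.1, ha.2.trans h2.2.2⟩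
  exact one _ L p3 q3 _ (c3 t a) h3.1 h3.2.1 h3.2.2 (hpos t ht' a ha') (hm t ht a ha)

/-- The growth lemma. -/
theorem growth (T L : ℝ) (hT : 0 < T) (hL : 0 < L) (f q : ℝ → ℝ → ℝ → ℝ) (hf : C3 f) (hq : C3 q)
    (hf1 : ∀ t a b, -1 ≤ f t a b ∧ f t a b ≤ 1)
    (h1 : ∀ t ∈ Icc 0 T, ∀ a ∈ Icc 0 L, ∀ b ∈ Icc 0 L, f t a b = 1 → 0 < q t a b)
    (h2 : ∃ t ∈ Icc 0 T, ∃ a ∈ Icc 0 L, ∃ b ∈ Icc 0 L, f t a b = 1)
    (K r : ℝ) (hr : r < 2) (hr0 : 0 ≤ r)
    (hI : ∀ n : ℕ, ∫ t in (0:ℝ)..T, ∫ a in (0:ℝ)..L, ∫ b in (0:ℝ)..L,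
      (1 + f t a b) ^ n * q t a b ≤ K * r ^ n) : False := by
  classical
  set X : Set (ℝ × ℝ × ℝ) := Icc 0 T ×ˢ (Icc 0 L ×ˢ Icc 0 L) with hX
  have hXc : IsCompact X := isCompact_Icc.prod (isCompact_Icc.prod isCompact_Icc)
  have hf' : Continuous fun p : ℝ × ℝ × ℝ => f p.1 p.2.1 p.2.2 := hf
  have hq' : Continuous fun p : ℝ × ℝ × ℝ => q p.1 p.2.1 p.2.2 := hq
  -- bound for q
  obtain ⟨M, hM⟩ := (hXc.image hq').isBounded.exists_norm_le
  have hM0 : 0 ≤ |M| := abs_nonneg _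
  have hMq : ∀ t ∈ Icc 0 T, ∀ a ∈ Icc 0 L, ∀ b ∈ Icc 0 L, -|M| ≤ q t a b := by
    intro t ht a ha b hb
    have := hM (q t a b) ⟨(t, a, b), ⟨ht, ha, hb⟩, rfl⟩
    rw [Real.norm_eq_abs] at this
    have h3 := neg_abs_le (q t a b)
    have h4 := le_abs_self M
    linarith
  -- δ0
  have hδ : ∃ d0 : ℝ, d0 < 1 ∧ 0 ≤ 1 + d0 ∧ ∀ t ∈ Icc 0 T, ∀ a ∈ Icc 0 L, ∀ b ∈ Icc 0 L,
      q t a b ≤ 0 → f t a b ≤ d0 := by
    set Y : Set (ℝ × ℝ × ℝ) := X ∩ {p | q p.1 p.2.1 p.2.2 ≤ 0} with hY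
    have hYc : IsCompact Y := hXc.inter_right (isClosed_le hq' continuous_const)
    rcases Y.eq_empty_or_nonempty with h | h
    · refine ⟨0, by norm_num, by norm_num, ?_⟩
      intro t ht a ha b hb hle
      exfalso
      have : (t, a, b) ∈ Y := ⟨⟨ht, ha, hb⟩, hle⟩
      rw [h] at this; exact this
    · obtain ⟨x, hx, hmax⟩ := hYc.exists_isMaxOn h hf'.continuousOn
      refine ⟨f x.1 x.2.1 x.2.2, ?_, by linarith [(hf1 x.1 x.2.1 x.2.2).1], ?_⟩
      · rcases lt_or_eq_of_le (hf1 x.1 x.2.1 x.2.2).2 with h3 | h3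
        · exact h3
        · exfalso
          have := h1 x.1 hx.1.1 x.2.1 hx.1.2.1 x.2.2 hx.1.2.2 h3
          exact absurd hx.2 (not_le.2 this)
      · intro t ht a ha b hb hle
        exact hmax (show (t, a, b) ∈ Y from ⟨⟨ht, ha, hb⟩, hle⟩)
  obtain ⟨d0, hd1, hd0, hd⟩ := hδ
  obtain ⟨t0, ht0, a0, ha0, b0, hb0, hfx⟩ := h2
  have hq0 := h1 t0 ht0 a0 ha0 b0 hb0 hfx
  set q0 := q t0 a0 b0 with hq0d
  set ρ := max r (1 + d0) with hρ
  have hρ2 : ρ < 2 := max_lt hr (by linarith)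
  have hρ0 : 0 ≤ ρ := hr0.trans (le_max_left _ _)
  set σ := (ρ + 2) / 2 with hσ
  have hσρ : ρ < σ := by rw [hσ]; linarith
  have hσ2 : σ < 2 := by rw [hσ]; linarith
  have hσ1 : 1 ≤ σ := by rw [hσ]; linarith
  -- neighbourhood of x0
  have hnb : ∀ᶠ p : ℝ × ℝ × ℝ in nhds (t0, a0, b0), σ < 1 + f p.1 p.2.1 p.2.2 ∧ q0 / 2 < q p.1 p.2.1 p.2.2 := by
    apply Filter.Eventually.and
    · have hc : ContinuousAt (fun p : ℝ × ℝ × ℝ => 1 + f p.1 p.2.1 p.2.2) (t0, a0, b0) :=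
        (continuous_const.add hf').continuousAt
      apply hc.eventually (lt_mem_nhds _)
      simp only [hfx]; linarith
    · have hc : ContinuousAt (fun p : ℝ × ℝ × ℝ => q p.1 p.2.1 p.2.2) (t0, a0, b0) := hq'.continuousAt
      apply hc.eventually (lt_mem_nhds _)
      show q0 / 2 < q t0 a0 b0
      linarith
  obtain ⟨η, hη, hball⟩ := Metric.eventually_nhds_iff.1 hnb
  obtain ⟨p1, q1, hp1, hpq1, hq1, hx1⟩ := exists_sub T t0 η hT ht0.1 ht0.2 hη
  obtain ⟨p2, q2, hp2, hpq2, hq2, hx2⟩ := exists_sub L a0 η hL ha0.1 ha0.2 hη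
  obtain ⟨p3, q3, hp3, hpq3, hq3, hx3⟩ := exists_sub L b0 η hL hb0.1 hb0.2 hη
  have hin : ∀ t ∈ Icc p1 q1, ∀ a ∈ Icc p2 q2, ∀ b ∈ Icc p3 q3,
      σ < 1 + f t a b ∧ q0 / 2 < q t a b := by
    intro t ht a ha b hb
    apply hball (y := (t, a, b))
    simp only [Prod.dist_eq, Real.dist_eq]
    exact max_lt (hx1 t ht) (max_lt (hx2 a ha) (hx3 b hb))
  set V := (q1 - p1) * ((q2 - p2) * ((q3 - p3) * (q0 / 2))) with hV
  have hVpos : 0 < V := by
    have e1 := sub_pos.2 hpq1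
    have e2 := sub_pos.2 hpq2
    have e3 := sub_pos.2 hpq3
    positivity
  -- the inequality for each n
  have main : ∀ n : ℕ, V * σ ^ n ≤ (|K| + |M| * (T * (L * L))) * ρ ^ n := by
    intro n
    have cF : C3 fun t a b => (1 + f t a b) ^ n * q t a b + |M| * (1 + d0) ^ n :=
      (((continuous_const.add hf').pow n).mul hq').add continuous_const
    have hnn : ∀ t ∈ Icc 0 T, ∀ a ∈ Icc 0 L, ∀ b ∈ Icc 0 L,
        0 ≤ (1 + f t a b) ^ n * q t a b + |M| * (1 + d0) ^ n := by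
      intro t ht a ha b hb
      have hw : 0 ≤ 1 + f t a b := by linarith [(hf1 t a b).1]
      rcases le_or_gt (q t a b) 0 with h | h
      · have e1 := hd t ht a ha b hb h
        have e2 : (1 + f t a b) ^ n ≤ (1 + d0) ^ n := pow_le_pow_left₀ hw (by linarith) n
        have e3 := hMq t ht a ha b hb
        have e4 : 0 ≤ (1 + f t a b) ^ n := pow_nonneg hw n
        nlinarith
      · have e4 : 0 ≤ (1 + f t a b) ^ n := pow_nonneg hw n
        have : 0 ≤ |M| * (1 + d0) ^ n := mul_nonneg hM0 (pow_nonneg hd0 n)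
        have := mul_nonneg e4 h.le
        linarith
    have hlow := lower3 T L _ cF p1 q1 p2 q2 p3 q3 (σ ^ n * (q0 / 2))
      ⟨hp1, hpq1.le, hq1⟩ ⟨hp2, hpq2.le, hq2⟩ ⟨hp3, hpq3.le, hq3⟩ hnn (by
        intro t ht a ha b hb
        obtain ⟨e1, e2⟩ := hin t ht a ha b hb
        have e3 : σ ^ n ≤ (1 + f t a b) ^ n := pow_le_pow_left₀ (by linarith) e1.le n
        have e4 : 0 ≤ σ ^ n := pow_nonneg (by linarith) n
        have : 0 ≤ |M| * (1 + d0) ^ n := mul_nonneg hM0 (pow_nonneg hd0 n)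
        have e5 : σ ^ n * (q0 / 2) ≤ (1 + f t a b) ^ n * q t a b := by
          apply mul_le_mul e3 e2.le (by linarith) (e4.trans e3)
        linarith)
    have hsplit : ∫ t in (0:ℝ)..T, ∫ a in (0:ℝ)..L, ∫ b in (0:ℝ)..L,
        ((1 + f t a b) ^ n * q t a b + |M| * (1 + d0) ^ n)
        = (∫ t in (0:ℝ)..T, ∫ a in (0:ℝ)..L, ∫ b in (0:ℝ)..L, (1 + f t a b) ^ n * q t a b)
          + T * (L * (L * (|M| * (1 + d0) ^ n))) := by
      have cg : C3 fun t a b => (1 + f t a b) ^ n * q t a b :=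
        ((continuous_const.add hf').pow n).mul hq'
      have s1 : ∀ t a, ∫ b in (0:ℝ)..L, ((1 + f t a b) ^ n * q t a b + |M| * (1 + d0) ^ n)
          = (∫ b in (0:ℝ)..L, (1 + f t a b) ^ n * q t a b) + L * (|M| * (1 + d0) ^ n) := by
        intro t a
        rw [intervalIntegral.integral_add]
        · rw [intervalIntegral.integral_const, sub_zero, smul_eq_mul]
        · apply Continuous.intervalIntegrable
          exact cg.comp (f := fun b : ℝ => (t, a, b)) (by fun_prop)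
        · exact continuous_const.intervalIntegrable _ _
      have s2 : ∀ t, ∫ a in (0:ℝ)..L, ∫ b in (0:ℝ)..L, ((1 + f t a b) ^ n * q t a b + |M| * (1 + d0) ^ n)
          = (∫ a in (0:ℝ)..L, ∫ b in (0:ℝ)..L, (1 + f t a b) ^ n * q t a b)
            + L * (L * (|M| * (1 + d0) ^ n)) := by
        intro t
        simp only [s1 t]
        rw [intervalIntegral.integral_add]
        · rw [intervalIntegral.integral_const, sub_zero, smul_eq_mul]
        · apply Continuous.intervalIntegrable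
          apply cont_int (f := fun a b => (1 + f t a b) ^ n * q t a b)
          exact cg.comp (f := fun p : ℝ × ℝ => (t, p.1, p.2)) (by fun_prop)
        · exact continuous_const.intervalIntegrable _ _
      simp only [s2]
      rw [intervalIntegral.integral_add]
      · rw [intervalIntegral.integral_const, sub_zero, smul_eq_mul]
      · apply Continuous.intervalIntegrable
        exact cont_int (f := fun t a => ∫ b in (0:ℝ)..L, (1 + f t a b) ^ n * q t a b) (cg.inner L) 0 L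
      · exact continuous_const.intervalIntegrable _ _
    rw [hsplit] at hlow
    have hIn := hI n
    have hrn : r ^ n ≤ ρ ^ n := pow_le_pow_left₀ hr0 (le_max_left _ _) n
    have hdn : (1 + d0) ^ n ≤ ρ ^ n := pow_le_pow_left₀ hd0 (le_max_right _ _) n
    have hρn : 0 ≤ ρ ^ n := pow_nonneg hρ0 n
    -- K may be negative; handle
    have hK : K * r ^ n ≤ |K| * ρ ^ n := by
      calc K * r ^ n ≤ |K| * r ^ n := mul_le_mul_of_nonneg_right (le_abs_self K) (pow_nonneg hr0 n)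
        _ ≤ |K| * ρ ^ n := mul_le_mul_of_nonneg_left hrn (abs_nonneg K)
    have hTL : T * (L * (L * (|M| * (1 + d0) ^ n))) ≤ |M| * (T * (L * L)) * ρ ^ n := by
      have : 0 ≤ |M| * (T * (L * L)) := by positivity
      calc T * (L * (L * (|M| * (1 + d0) ^ n))) = |M| * (T * (L * L)) * (1 + d0) ^ n := by ring
        _ ≤ _ := mul_le_mul_of_nonneg_left hdn this
    have hVe : V * σ ^ n = (q1 - p1) * ((q2 - p2) * ((q3 - p3) * (σ ^ n * (q0 / 2)))) := by
      rw [hV]; ring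
    rw [hVe]
    have e9 : (|K| + |M| * (T * (L * L))) * ρ ^ n = |K| * ρ ^ n + |M| * (T * (L * L)) * ρ ^ n := by
      ring
    linarith
  -- conclusion
  set C := |K| + |M| * (T * (L * L)) with hC
  have hC0 : 0 ≤ C := by positivity
  -- (ρ/σ)^n → 0
  have hσpos : 0 < σ := by linarith
  have hlim : Filter.Tendsto (fun n : ℕ => C * (ρ / σ) ^ n) Filter.atTop (nhds (C * 0)) :=
    (tendsto_pow_atTop_nhds_zero_of_lt_one (div_nonneg hρ0 hσpos.le)
      ((div_lt_one hσpos).2 hσρ)).const_mul C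
  rw [mul_zero] at hlim
  have hle : V ≤ 0 := by
    refine ge_of_tendsto' hlim fun n => ?_
    have h3 := main n
    have h4 : 0 < σ ^ n := pow_pos hσpos n
    rw [div_pow, mul_div_assoc', le_div_iff₀ h4]
    exact h3
  linarith

end Pool.Agent.H81.Flat
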