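import Mathlib
import Pool.Agent.H81.Flat.Form
import Pool.Agent.H81.Flat.Growth

/-!
The equivalence relation and the separation argument.
-/

namespace Pool.Agent.H81.Flat

open Quaternion MeasureTheory intervalIntegral Set

theorem ip_self (q : ℍ[ℝ]) : ip q q = ‖q‖ ^ 2 := by
  rw [pow_two, ← Quaternion.normSq_eq_norm_mul_self, Quaternion.normSq_def']
  simp only [ip]; ring

theorem norm_one_of_ip {q : ℍ[ℝ]} (h : ip q q = 1) : ‖q‖ = 1 := by
  rw [ip_self] at h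
  have := norm_nonneg q
  nlinarith

theorem ip_of_norm_one {q : ℍ[ℝ]} (h : ‖q‖ = 1) : ip q q = 1 := by
  rw [ip_self, h]; norm_num

theorem abs_ip_le (p q : ℍ[ℝ]) : |ip p q| ≤ (ip p p + ip q q) / 2 := by
  rw [abs_le]
  simp only [ip]
  constructor
  · nlinarith [sq_nonneg (p.re + q.re), sq_nonneg (p.imI + q.imI), sq_nonneg (p.imJ + q.imJ),
      sq_nonneg (p.imK + q.imK)]
  · nlinarith [sq_nonneg (p.re - q.re), sq_nonneg (p.imI - q.imI), sq_nonneg (p.imJ - q.imJ),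
      sq_nonneg (p.imK - q.imK)]

theorem abs_re_le (q : ℍ[ℝ]) : |q.re| ≤ ‖q‖ := by
  apply abs_le_of_sq_le_sq _ (norm_nonneg q)
  rw [← ip_self]
  simp only [ip]
  nlinarith [sq_nonneg q.imI, sq_nonneg q.imJ, sq_nonneg q.imK]

theorem eq_one_of_re {q : ℍ[ℝ]} (h : ip q q = 1) (hr : q.re = 1) : q = 1 := by
  simp only [ip, hr] at h
  have e1 : q.imI ^ 2 + q.imJ ^ 2 + q.imK ^ 2 = 0 := by linarith
  have h1 : q.imI = 0 := by nlinarith [sq_nonneg q.imI, sq_nonneg q.imJ, sq_nonneg q.imK]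
  have h2 : q.imJ = 0 := by nlinarith [sq_nonneg q.imI, sq_nonneg q.imJ, sq_nonneg q.imK]
  have h3 : q.imK = 0 := by nlinarith [sq_nonneg q.imI, sq_nonneg q.imJ, sq_nonneg q.imK]
  ext <;> simp [hr, h1, h2, h3]

/-- every unit quaternion is on a great circle arc through `1` -/
theorem exists_rot (q : ℍ[ℝ]) (hq : ip q q = 1) : ∃ (s : ℍ[ℝ]) (T : ℝ), s.re = 0 ∧ ip s s = 1 ∧
    0 ≤ T ∧ T ≤ Real.pi ∧ rot s T = q ∧ ∀ t ∈ Icc 0 T, ‖rot s t - 1‖ ≤ ‖q - 1‖ := by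
  have hre : |q.re| ≤ 1 := (abs_re_le q).trans_eq (norm_one_of_ip hq)
  rw [abs_le] at hre
  set T := Real.arccos q.re with hT
  have hcos : Real.cos T = q.re := Real.cos_arccos hre.1 hre.2
  have hT0 : 0 ≤ T := Real.arccos_nonneg _
  have hTpi : T ≤ Real.pi := Real.arccos_le_pi _
  have hsin0 : 0 ≤ Real.sin T := Real.sin_nonneg_of_nonneg_of_le_pi hT0 hTpi
  have hsin2 : Real.sin T ^ 2 = q.imI ^ 2 + q.imJ ^ 2 + q.imK ^ 2 := by
    have h1 := Real.sin_sq_add_cos_sq T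
    rw [hcos] at h1
    simp only [ip] at hq
    linarith
  have key : ∃ s : ℍ[ℝ], s.re = 0 ∧ ip s s = 1 ∧ Real.sin T * s.imI = - q.imI ∧
      Real.sin T * s.imJ = - q.imJ ∧ Real.sin T * s.imK = - q.imK := by
    rcases eq_or_lt_of_le hsin0 with h | h
    · refine ⟨⟨0, 1, 0, 0⟩, rfl, by simp [ip], ?_⟩
      rw [← h] at hsin2 ⊢
      have h1 : q.imI = 0 := by nlinarith [sq_nonneg q.imI, sq_nonneg q.imJ, sq_nonneg q.imK]
      have h2 : q.imJ = 0 := by nlinarith [sq_nonneg q.imI, sq_nonneg q.imJ, sq_nonneg q.imK]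
      have h3 : q.imK = 0 := by nlinarith [sq_nonneg q.imI, sq_nonneg q.imJ, sq_nonneg q.imK]
      simp [h1, h2, h3]
    · refine ⟨⟨0, -q.imI / Real.sin T, -q.imJ / Real.sin T, -q.imK / Real.sin T⟩, rfl, ?_, ?_, ?_, ?_⟩
      · simp only [ip]
        field_simp
        linarith
      · simp only []; field_simp
      · simp only []; field_simp
      · simp only []; field_simp
  obtain ⟨s, hs0, hs1, hI, hJ, hK⟩ := key
  have hrot : rot s T = q := by
    unfold rot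
    rw [hcos]
    ext <;> simp [hs0] <;> linarith
  refine ⟨s, T, hs0, hs1, hT0, hTpi, hrot, ?_⟩
  have hn : ∀ t, ‖rot s t - 1‖ ^ 2 = 2 - 2 * Real.cos t := by
    intro t
    rw [← ip_self]
    have h1 := rot_unit s t hs0 hs1
    have h2 : (rot s t).re = Real.cos t := by simp [rot, hs0]
    simp only [ip, Quaternion.re_sub, Quaternion.imI_sub, Quaternion.imJ_sub, Quaternion.imK_sub,
      Quaternion.re_one, Quaternion.imI_one, Quaternion.imJ_one, Quaternion.imK_one] at h1 ⊢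
    rw [h2] at h1 ⊢
    linarith
  intro t ht
  rw [← hrot]
  apply le_of_sq_le_sq _ (norm_nonneg _)
  rw [hn, hn]
  have : Real.cos T ≤ Real.cos t := Real.cos_le_cos_of_nonneg_of_le_pi ht.1 hTpi ht.2
  linarith

namespace Loop

variable (l : Loop)

/-- `u⁻¹` is not on the surface `{star (c a) * c b}` -/
def Good (u : ℍ[ℝ]) : Prop := ∀ a b, u * l.G a b ≠ 1

/-- the equivalence relation -/
def R (u v : ℍ[ℝ]) : Prop := ∃ K r : ℝ, 0 ≤ r ∧ r < 2 ∧ ∀ n, |l.B n u - l.B n v| ≤ K * r ^ n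

theorem R.refl (u : ℍ[ℝ]) : l.R u u := ⟨0, 0, le_refl _, by norm_num, fun n => by simp⟩

variable {l}

theorem R.symm {u v : ℍ[ℝ]} (h : l.R u v) : l.R v u := by
  obtain ⟨K, r, h0, h1, h2⟩ := h
  exact ⟨K, r, h0, h1, fun n => by rw [abs_sub_comm]; exact h2 n⟩

theorem R.trans {u v w : ℍ[ℝ]} (h : l.R u v) (h' : l.R v w) : l.R u w := by
  obtain ⟨K, r, h0, h1, h2⟩ := h
  obtain ⟨K', r', h0', h1', h2'⟩ := h'
  refine ⟨K + K', max r r', h0.trans (le_max_left _ _), max_lt h1 h1', fun n => ?_⟩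
  have hK : 0 ≤ K := by have := (abs_nonneg _).trans (h2 0); simpa using this
  have hK' : 0 ≤ K' := by have := (abs_nonneg _).trans (h2' 0); simpa using this
  have e1 : K * r ^ n ≤ K * (max r r') ^ n :=
    mul_le_mul_of_nonneg_left (pow_le_pow_left₀ h0 (le_max_left _ _) n) hK
  have e2 : K' * r' ^ n ≤ K' * (max r r') ^ n :=
    mul_le_mul_of_nonneg_left (pow_le_pow_left₀ h0' (le_max_right _ _) n) hK'
  have e3 := abs_sub_le (l.B n u) (l.B n v) (l.B n w)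
  have e4 := h2 n
  have e5 := h2' n
  linarith [add_mul K K' ((max r r') ^ n)]

variable (l)

theorem red (s : ℝ) : ∃ s' ∈ Icc 0 l.L, l.c s' = l.c s ∧ l.c' s' = l.c' s := by
  have hp : Function.Periodic (fun s => (l.c s, l.c' s)) l.L := fun s => by
    simp only [l.per, l.per']
  obtain ⟨y, hy, h⟩ := hp.exists_mem_Ico₀ l.hL s
  simp only [Prod.mk.injEq] at h
  exact ⟨y, ⟨hy.1, hy.2.le⟩, h.1.symm, h.2.symm⟩

theorem G_red (a b : ℝ) : ∃ a' ∈ Icc 0 l.L, ∃ b' ∈ Icc 0 l.L, l.G a' b' = l.G a b := by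
  obtain ⟨a', ha', h1, -⟩ := l.red a
  obtain ⟨b', hb', h2, -⟩ := l.red b
  exact ⟨a', ha', b', hb', by unfold G; rw [h1, h2]⟩

theorem speed_bound : ∃ M : ℝ, 0 ≤ M ∧ ∀ s, ip (l.c' s) (l.c' s) ≤ M := by
  have hc : Continuous fun s => ip (l.c' s) (l.c' s) := cont_ip l.hc' l.hc'
  obtain ⟨x, -, hx⟩ := (isCompact_Icc (a := (0:ℝ)) (b := l.L)).exists_isMaxOn
    ⟨0, le_refl _, l.hL.le⟩ hc.continuousOn
  refine ⟨ip (l.c' x) (l.c' x), by rw [ip_self]; positivity, fun s => ?_⟩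
  obtain ⟨s', hs', -, h2⟩ := l.red s
  rw [← h2]
  exact hx hs'

theorem box_bound (T Lx C : ℝ) (hT : 0 ≤ T) (hL : 0 ≤ Lx) (F : ℝ → ℝ → ℝ → ℝ)
    (hF : ∀ t ∈ Icc 0 T, ∀ a b, |F t a b| ≤ C) :
    |∫ t in (0:ℝ)..T, ∫ a in (0:ℝ)..Lx, ∫ b in (0:ℝ)..Lx, F t a b| ≤ T * (Lx * (Lx * C)) := by
  have h3 : ∀ t ∈ Icc 0 T, ∀ a, |∫ b in (0:ℝ)..Lx, F t a b| ≤ Lx * C := by
    intro t ht a
    have := intervalIntegral.norm_integral_le_of_norm_le_const (a := (0:ℝ)) (b := Lx)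
      (f := fun b => F t a b) (C := C) (fun b _ => hF t ht a b)
    rw [Real.norm_eq_abs, sub_zero, abs_of_nonneg hL] at this
    linarith
  have h2 : ∀ t ∈ Icc 0 T, |∫ a in (0:ℝ)..Lx, ∫ b in (0:ℝ)..Lx, F t a b| ≤ Lx * (Lx * C) := by
    intro t ht
    have := intervalIntegral.norm_integral_le_of_norm_le_const (a := (0:ℝ)) (b := Lx)
      (f := fun a => ∫ b in (0:ℝ)..Lx, F t a b) (C := Lx * C) (fun a _ => h3 t ht a)
    rw [Real.norm_eq_abs, sub_zero, abs_of_nonneg hL] at this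
    linarith
  have := intervalIntegral.norm_integral_le_of_norm_le_const (a := (0:ℝ)) (b := T)
    (f := fun t => ∫ a in (0:ℝ)..Lx, ∫ b in (0:ℝ)..Lx, F t a b) (C := Lx * (Lx * C)) (fun t ht => by
      rw [uIoc_of_le hT] at ht
      exact h2 t ⟨ht.1.le, ht.2⟩)
  rw [Real.norm_eq_abs, sub_zero, abs_of_nonneg hT] at this
  linarith

/-- Lemma A. -/
theorem near (u₀ : ℍ[ℝ]) (hu₀ : ip u₀ u₀ = 1) (hg : l.Good u₀) :
    ∃ δ > 0, ∀ v, ip v v = 1 → ‖v - u₀‖ < δ → l.Good v ∧ l.R v u₀ := by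
  obtain ⟨f, hf⟩ : ∃ f : ℝ × ℝ → ℝ, ∀ p, f p = (u₀ * l.G p.1 p.2).re := ⟨_, fun _ => rfl⟩
  have hcG : Continuous f := by
    have : f = fun p : ℝ × ℝ => (u₀ * l.G p.1 p.2).re := funext hf
    rw [this]
    exact Quaternion.continuous_re.comp (continuous_const.mul l.cG)
  obtain ⟨x, hx, hmax⟩ := ((isCompact_Icc (a := (0:ℝ)) (b := l.L)).prod
    (isCompact_Icc (a := (0:ℝ)) (b := l.L))).exists_isMaxOn
    ⟨(0, 0), ⟨le_refl _, l.hL.le⟩, ⟨le_refl _, l.hL.le⟩⟩ hcG.continuousOn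
  rw [isMaxOn_iff] at hmax
  obtain ⟨m, hm⟩ : ∃ m : ℝ, m = (u₀ * l.G x.1 x.2).re := ⟨_, rfl⟩
  have hunit : ∀ (u : ℍ[ℝ]), ip u u = 1 → ∀ a b, ip (u * l.G a b) (u * l.G a b) = 1 := by
    intro u hu a b
    rw [ip_mul_left, l.GG, hu]; norm_num
  have habs : ∀ (u : ℍ[ℝ]), ip u u = 1 → ∀ a b, |(u * l.G a b).re| ≤ 1 := by
    intro u hu a b
    exact (abs_re_le _).trans_eq (norm_one_of_ip (hunit u hu a b))
  have hm1 : m < 1 := by
    rcases lt_or_eq_of_le (abs_le.1 (habs u₀ hu₀ x.1 x.2)).2 with h | h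
    · rw [hm]; exact h
    · exact absurd (eq_one_of_re (hunit u₀ hu₀ _ _) h) (hg _ _)
  have hm2 : -1 ≤ m := by rw [hm]; exact (abs_le.1 (habs u₀ hu₀ x.1 x.2)).1
  have hle : ∀ a b, (u₀ * l.G a b).re ≤ m := by
    intro a b
    obtain ⟨a', ha', b', hb', h⟩ := l.G_red a b
    have h2 := hmax (a', b') ⟨ha', hb'⟩
    rw [hf, hf] at h2
    rw [← h, hm]
    exact h2
  set δ := (1 - m) / 2 with hδ
  have hδ0 : 0 < δ := by rw [hδ]; linarith
  have hle2 : ∀ v : ℍ[ℝ], ‖v - u₀‖ ≤ δ → ∀ a b, (v * l.G a b).re ≤ 1 - δ := by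
    intro v hv a b
    have e1 : (v * l.G a b).re = (u₀ * l.G a b).re + ((v - u₀) * l.G a b).re := by
      rw [← Quaternion.re_add, ← add_mul]; congr 2; abel
    have e2 := abs_re_le ((v - u₀) * l.G a b)
    rw [norm_mul, norm_one_of_ip (l.GG a b), mul_one] at e2
    have e3 := (abs_le.1 e2).2
    have e4 := hle a b
    rw [e1]
    linarith
  obtain ⟨M, hM0, hM⟩ := l.speed_bound
  refine ⟨δ, hδ0, fun v hv hvu => ⟨?_, ?_⟩⟩
  · intro a b h
    have := hle2 v hvu.le a b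
    rw [h, Quaternion.re_one] at this
    linarith
  · -- the relation
    have hq : ip (v * star u₀) (v * star u₀) = 1 := by
      rw [ip_mul_left, ip_star, hv, hu₀]; norm_num
    obtain ⟨s, T, hs, hs1, hT0, hTpi, hrot, hdist⟩ := exists_rot _ hq
    have hrotu : rot s T * u₀ = v := by
      rw [hrot, mul_assoc, star_mul_self_of u₀ hu₀, mul_one]
    have hd : ∀ t ∈ Icc 0 T, ‖rot s t * u₀ - u₀‖ ≤ δ := by
      intro t ht
      have e1 : rot s t * u₀ - u₀ = (rot s t - 1) * u₀ := by rw [sub_mul, one_mul]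
      have e2 : v - u₀ = (v * star u₀ - 1) * u₀ := by
        rw [sub_mul, one_mul, mul_assoc, star_mul_self_of u₀ hu₀, mul_one]
      rw [e1, norm_mul, norm_one_of_ip hu₀, mul_one]
      refine (hdist t ht).trans ?_
      rw [e2, norm_mul, norm_one_of_ip hu₀, mul_one] at hvu
      exact hvu.le
    refine ⟨T * (l.L * (l.L * M)), 2 - δ, by rw [hδ]; linarith, by linarith, fun n => ?_⟩
    have hex := exact l n s u₀ hs hs1 hu₀ T
    rw [hrotu] at hex
    rw [abs_sub_comm, ← hex]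
    have hb := box_bound T l.L ((2 - δ) ^ n * M) hT0 l.hL.le
      (fun t a b => (1 + ((rot s t * u₀) * l.G a b).re) ^ n
        * ip (s * ((rot s t * u₀) * l.Ga a b)) ((rot s t * u₀) * l.Gb a b)) (by
      intro t ht a b
      have hrtu : ip (rot s t * u₀) (rot s t * u₀) = 1 := by
        rw [ip_mul_left, rot_unit s t hs hs1, hu₀]; norm_num
      rw [abs_mul, abs_pow]
      apply mul_le_mul
      · apply pow_le_pow_left₀ (abs_nonneg _)
        have e1 := (abs_le.1 (habs _ hrtu a b)).1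
        have e2 := hle2 _ (hd t ht) a b
        rw [abs_of_nonneg (by linarith)]
        linarith
      · refine (abs_ip_le _ _).trans ?_
        rw [ip_mul_left s, ip_mul_left (rot s t * u₀) (l.Ga a b), ip_mul_left (rot s t * u₀) (l.Gb a b),
          hs1, hrtu]
        unfold Ga Gb
        rw [ip_mul_right (l.c b), ip_mul_left (star (l.c a)), ip_star, ip_star, l.hn, l.hn]
        have := hM a
        have := hM b
        linarith
      · exact abs_nonneg _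
      · apply pow_nonneg; rw [hδ]; linarith)
    refine hb.trans_eq ?_
    ring

end Loop

end Pool.Agent.H81.Flat
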