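import Mathlib
import Pool.Agent.H81.Flat.Sep

/-!
Lemma B: the potential distinguishes `-i` from `-1`.
-/

namespace Pool.Agent.H81.Flat

open Quaternion MeasureTheory intervalIntegral Set

/-- an explicit quaternion -/
def mk4 (a b c d : ℝ) : ℍ[ℝ] := ⟨a, b, c, d⟩

@[simp] theorem mk4_re (a b c d : ℝ) : (mk4 a b c d).re = a := rfl
@[simp] theorem mk4_imI (a b c d : ℝ) : (mk4 a b c d).imI = b := rfl
@[simp] theorem mk4_imJ (a b c d : ℝ) : (mk4 a b c d).imJ = c := rfl
@[simp] theorem mk4_imK (a b c d : ℝ) : (mk4 a b c d).imK = d := rfl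

/-- the left logarithmic derivative is `x i + y j` with `y > 0`. -/
structure TLoop extends Loop where
  x : ℝ → ℝ
  y : ℝ → ℝ
  hω : ∀ s, c' s = c s * mk4 0 (x s) (y s) 0
  hy : ∀ s, 0 < y s

namespace TLoop

variable (l : TLoop)

theorem Gb_eq (a b : ℝ) : l.Gb a b = l.G a b * mk4 0 (l.x b) (l.y b) 0 := by
  unfold Loop.Gb Loop.G
  rw [l.hω, mul_assoc]

theorem Ga_eq (a b : ℝ) : l.Ga a b = - (mk4 0 (l.x a) (l.y a) 0 * l.G a b) := by
  unfold Loop.Ga Loop.G
  rw [l.hω, star_mul, mul_assoc, ← neg_mul]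
  congr 1
  ext <;> simp

theorem G_symm (a b : ℝ) : l.G b a = star (l.G a b) := by
  unfold Loop.G; rw [star_mul, star_star]

theorem rot_i (t : ℝ) : rot (mk4 0 1 0 0) t * mk4 0 (-1) 0 0 =
    mk4 (- Real.sin t) (- Real.cos t) 0 0 := by
  unfold rot
  ext <;> simp

theorem not_R (hm1 : ∀ a b, l.G a b ≠ -1) (hi : ∀ a b, l.G a b ≠ mk4 0 1 0 0)
    (hU : ∃ a b P Q, P < 0 ∧ 0 < Q ∧ l.G a b = mk4 P Q 0 0) :
    ¬ l.R (mk4 0 (-1) 0 0) (-1) := by
  rintro ⟨K, r, hr0, hr2, hR⟩
  have hpi := Real.pi_pos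
  set I : ℍ[ℝ] := mk4 0 1 0 0 with hI
  set J : ℍ[ℝ] := mk4 0 (-1) 0 0 with hJ
  have hI0 : I.re = 0 := rfl
  have hI1 : ip I I = 1 := by simp [ip, hI]
  have hJ1 : ip J J = 1 := by simp [ip, hJ]
  have hrt : ∀ t, rot I t * J = mk4 (- Real.sin t) (- Real.cos t) 0 0 := rot_i
  have hu : ∀ t, ip (rot I t * J) (rot I t * J) = 1 := by
    intro t; rw [ip_mul_left, rot_unit I t hI0 hI1, hJ1]; norm_num
  have hxG : ∀ t a b, ip ((rot I t * J) * l.G a b) ((rot I t * J) * l.G a b) = 1 := by
    intro t a b; rw [ip_mul_left, hu, l.GG]; norm_num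
  have cr : Continuous fun p : ℝ × ℝ × ℝ => rot I p.1 * J :=
    ((rot_cont I).comp continuous_fst).mul continuous_const
  apply growth (Real.pi / 2) l.L (by positivity) l.hL
    (fun t a b => ((rot I t * J) * l.G a b).re)
    (fun t a b => ip (I * ((rot I t * J) * l.Ga a b)) ((rot I t * J) * l.Gb a b))
    ?_ ?_ ?_ ?_ ?_ K r hr2 hr0 ?_
  · exact Quaternion.continuous_re.comp (cr.mul (l.cG.comp continuous_snd))
  · exact cont_ip (continuous_const.mul (cr.mul (l.cGa.comp continuous_snd)))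
      (cr.mul (l.cGb.comp continuous_snd))
  · intro t a b
    exact abs_le.1 ((abs_re_le _).trans_eq (norm_one_of_ip (hxG t a b)))
  · intro t ht a _ b _ h1
    have h2 := eq_one_of_re (hxG t a b) h1
    have hG : l.G a b = mk4 (- Real.sin t) (Real.cos t) 0 0 := by
      have h3 : star (rot I t * J) * ((rot I t * J) * l.G a b) = star (rot I t * J) := by
        rw [h2, mul_one]
      rw [← mul_assoc, star_mul_self_of _ (hu t), one_mul] at h3
      rw [h3, hrt]
      ext <;> simp
    have ht0 : 0 < t := by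
      rcases lt_or_eq_of_le ht.1 with h | h
      · exact h
      · exfalso
        apply hi a b
        rw [hG, ← h]
        ext <;> simp [hI]
    have htp : t < Real.pi / 2 := by
      rcases lt_or_eq_of_le ht.2 with h | h
      · exact h
      · exfalso
        apply hm1 a b
        rw [hG, h]
        ext <;> simp
    have hs : 0 < Real.sin t := Real.sin_pos_of_pos_of_lt_pi ht0 (by linarith)
    have hc : 0 < Real.cos t := Real.cos_pos_of_mem_Ioo ⟨by linarith, htp⟩
    have hsc := Real.sin_sq_add_cos_sq t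
    have hval : ip (I * ((rot I t * J) * l.Ga a b)) ((rot I t * J) * l.Gb a b)
        = 2 * Real.sin t * Real.cos t * (l.y a * l.y b) := by
      rw [l.Ga_eq, l.Gb_eq, hG, hrt]
      simp only [ip, hI, Quaternion.re_mul, Quaternion.imI_mul, Quaternion.imJ_mul,
        Quaternion.imK_mul, Quaternion.re_neg, Quaternion.imI_neg, Quaternion.imJ_neg,
        Quaternion.imK_neg, mk4_re, mk4_imI, mk4_imJ, mk4_imK]
      linear_combination (2 * Real.sin t * Real.cos t * (l.y a * l.y b)) * hsc
    show 0 < ip (I * ((rot I t * J) * l.Ga a b)) ((rot I t * J) * l.Gb a b)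
    rw [hval]
    have := l.hy a
    have := l.hy b
    positivity
  · obtain ⟨a, b, P, Q, hP, hQ, hG⟩ := hU
    obtain ⟨a', ha', b', hb', h⟩ := l.G_red a b
    rw [hG] at h
    have hPQ : P ^ 2 + Q ^ 2 = 1 := by
      have := l.GG a b
      rw [hG] at this
      simp only [ip, mk4_re, mk4_imI, mk4_imJ, mk4_imK] at this
      linarith
    have hP1 : -1 ≤ P := by nlinarith
    set θ := Real.arccos P with hθ
    have hcos : Real.cos θ = P := Real.cos_arccos hP1 (by linarith)
    have hθ0 : Real.pi / 2 < θ := by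
      by_contra hcon
      push Not at hcon
      have := Real.cos_nonneg_of_mem_Icc (x := θ) ⟨by linarith [Real.arccos_nonneg P], hcon⟩
      linarith
    have hθ1 : θ ≤ Real.pi := Real.arccos_le_pi _
    have hsin : Real.sin θ = Q := by
      rw [hθ, Real.sin_arccos, ← Real.sqrt_sq hQ.le]
      congr 1
      linarith
    refine ⟨θ - Real.pi / 2, ⟨by linarith, by linarith⟩, a', ha', b', hb', ?_⟩
    show ((rot I (θ - Real.pi / 2) * J) * l.G a' b').re = 1
    rw [h, hrt, Real.sin_sub_pi_div_two, Real.cos_sub_pi_div_two, hcos, hsin]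
    simp
    linarith
  · intro n
    have hex := exact l.toLoop n I J hI0 hI1 hJ1 (Real.pi / 2)
    have hend : rot I (Real.pi / 2) * J = -1 := by
      rw [hrt]; ext <;> simp
    rw [hend] at hex
    have := hR n
    rw [← hex] at this
    exact (le_abs_self _).trans this

end TLoop

end Pool.Agent.H81.Flat
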