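import Mathlib
import Pool.Agent.H81.Flat.LemB

/-!
Lemma U: the surface `star (c a) * c b` meets the circle `e^{θ i}` at a point with nonpositive
real part.
-/

namespace Pool.Agent.H81.Flat

open Quaternion MeasureTheory Set

theorem const_of_int {f : ℝ → ℝ} {a b : ℝ} (hab : a ≤ b) (hf : ContinuousOn f (Icc a b))
    (h : ∀ x ∈ Icc a b, ∃ n : ℤ, f x = f a + 2 * Real.pi * n) : f b = f a := by
  obtain ⟨n, hn⟩ := h b ⟨hab, le_refl _⟩
  have hpi := Real.pi_pos
  have key : ∀ x ∈ Icc a b, f x ≠ f a + Real.pi ∧ f x ≠ f a - Real.pi := by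
    intro x hx
    obtain ⟨k, hk⟩ := h x hx
    constructor
    · intro h1
      rw [hk] at h1
      have h2 : Real.pi * (2 * (k:ℝ) - 1) = 0 := by linarith
      rcases mul_eq_zero.1 h2 with h3 | h3
      · linarith
      · have : (2 * k - 1 : ℤ) = 0 := by exact_mod_cast h3
        omega
    · intro h1
      rw [hk] at h1
      have h2 : Real.pi * (2 * (k:ℝ) + 1) = 0 := by linarith
      rcases mul_eq_zero.1 h2 with h3 | h3
      · linarith
      · have : (2 * k + 1 : ℤ) = 0 := by exact_mod_cast h3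
        omega
  rcases lt_trichotomy n 0 with h0 | h0 | h0
  · exfalso
    have h1 : (n:ℝ) ≤ -1 := by exact_mod_cast Int.le_sub_one_of_lt h0
    have h2 : f b ≤ f a - Real.pi := by rw [hn]; nlinarith
    obtain ⟨x, hx, hx2⟩ := intermediate_value_Icc' hab hf (⟨h2, by linarith⟩ : f a - Real.pi ∈ Icc (f b) (f a))
    exact (key x hx).2 hx2
  · rw [hn, h0]; simp
  · exfalso
    have h1 : (1:ℝ) ≤ n := by exact_mod_cast h0
    have h2 : f a + Real.pi ≤ f b := by rw [hn]; nlinarith
    obtain ⟨x, hx, hx2⟩ := intermediate_value_Icc hab hf (⟨by linarith, h2⟩ : f a + Real.pi ∈ Icc (f a) (f b))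
    exact (key x hx).1 hx2

theorem band {f : ℝ → ℝ} (hf : ContinuousOn f (Icc 0 1)) (h : ∀ x ∈ Icc (0:ℝ) 1, 0 < Real.cos (f x)) :
    ∃ k : ℤ, ∀ x ∈ Icc (0:ℝ) 1, |f x - 2 * Real.pi * k| < Real.pi / 2 := by
  have hpi := Real.pi_pos
  have h0 : (0:ℝ) ∈ Icc (0:ℝ) 1 := ⟨le_refl _, zero_le_one⟩
  set k : ℤ := round (f 0 / (2 * Real.pi)) with hk
  have hcos : ∀ y : ℝ, Real.cos (y - 2 * Real.pi * k) = Real.cos y := by
    intro y
    have := Real.cos_sub_int_mul_two_pi y k
    rw [← this]; congr 1; ring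
  have hb0 : |f 0 - 2 * Real.pi * k| < Real.pi / 2 := by
    have h1 : |f 0 - 2 * Real.pi * k| ≤ Real.pi := by
      have h2 := abs_sub_round (f 0 / (2 * Real.pi))
      have h3 : f 0 - 2 * Real.pi * k = (2 * Real.pi) * (f 0 / (2 * Real.pi) - k) := by
        field_simp
      rw [h3, abs_mul, abs_of_pos (by positivity : 0 < 2 * Real.pi)]
      nlinarith
    by_contra hcon
    push Not at hcon
    have h4 := Real.cos_nonpos_of_pi_div_two_le_of_le hcon (by linarith)
    rw [Real.cos_abs, hcos] at h4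
    linarith [h 0 h0]
  refine ⟨k, fun x hx => ?_⟩
  by_contra hcon
  push Not at hcon
  have hc : ContinuousOn (fun y => |f y - 2 * Real.pi * k|) (Icc 0 x) :=
    ((hf.mono (Icc_subset_Icc_right hx.2)).sub continuousOn_const).abs
  obtain ⟨y, hy, hy2⟩ := intermediate_value_Icc hx.1 hc
    (⟨hb0.le, hcon⟩ : Real.pi / 2 ∈ Icc (|f 0 - 2 * Real.pi * k|) (|f x - 2 * Real.pi * k|))
  have h5 := h y ⟨hy.1, hy.2.trans hx.2⟩
  rw [← hcos, ← Real.cos_abs] at h5
  simp only at hy2
  rw [hy2, Real.cos_pi_div_two] at h5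
  exact lt_irrefl _ h5

namespace TLoop

variable (l : TLoop)

theorem shift (a : ℝ) : ∃ a' ∈ Ico 0 l.L, ∀ d, l.G a' (a' + d) = l.G a (a + d) ∧
    l.Gb a' (a' + d) = l.Gb a (a + d) := by
  have hp : Function.Periodic (fun a => (fun d => (l.G a (a + d), l.Gb a (a + d)))) l.L := by
    intro a
    ext1 d
    have e : a + l.L + d = a + d + l.L := by ring
    simp only [Loop.G, Loop.Gb, e, l.per, l.per']
  obtain ⟨a', ha', h⟩ := hp.exists_mem_Ico₀ l.hL a
  refine ⟨a', ha', fun d => ?_⟩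
  have := congrFun h d
  simp only [Prod.mk.injEq] at this
  exact ⟨this.1.symm, this.2.symm⟩

theorem G_diag (a : ℝ) : l.G a a = 1 := star_mul_self_of _ (l.hn a)

theorem near_diag : ∃ ε > 0, ∀ a b, a < b → b - a < ε → 0 < (l.G a b).imJ := by
  have hk : Continuous fun p : ℝ × ℝ => (l.Gb p.1 p.2).imJ :=
    Quaternion.continuous_imJ.comp l.cGb
  have hcd : Continuous fun a : ℝ => (a, a) := by fun_prop
  have hK : IsCompact ((fun a : ℝ => (a, a)) '' Icc 0 l.L) := isCompact_Icc.image hcd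
  have hO : IsOpen {p : ℝ × ℝ | 0 < (l.Gb p.1 p.2).imJ} := isOpen_lt continuous_const hk
  have hsub : (fun a : ℝ => (a, a)) '' Icc 0 l.L ⊆ {p : ℝ × ℝ | 0 < (l.Gb p.1 p.2).imJ} := by
    rintro _ ⟨a, -, rfl⟩
    show 0 < (l.Gb a a).imJ
    rw [l.Gb_eq, l.G_diag, one_mul]
    exact l.hy a
  obtain ⟨ε, hε, hth⟩ := hK.exists_thickening_subset_open hO hsub
  have h1 : ∀ a d, 0 ≤ d → d < ε → 0 < (l.Gb a (a + d)).imJ := by
    intro a d hd0 hd
    obtain ⟨a', ha', h⟩ := l.shift a
    rw [← (h d).2]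
    have hmem : (a', a' + d) ∈ {p : ℝ × ℝ | 0 < (l.Gb p.1 p.2).imJ} := by
      apply hth
      rw [Metric.mem_thickening_iff]
      refine ⟨(a', a'), ⟨a', ⟨ha'.1, ha'.2.le⟩, rfl⟩, ?_⟩
      rw [Prod.dist_eq, Real.dist_eq, Real.dist_eq]
      simp only [sub_self, abs_zero, add_sub_cancel_left, abs_of_nonneg hd0]
      exact max_lt hε hd
    exact hmem
  refine ⟨ε, hε, fun a b hab hlt => ?_⟩
  have hmono : StrictMonoOn (fun b => (l.G a b).imJ) (Icc a b) := by
    apply strictMonoOn_of_deriv_pos (convex_Icc a b)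
    · exact (Quaternion.continuous_imJ.comp (l.cG.comp (by fun_prop : Continuous fun b : ℝ => (a, b)))).continuousOn
    · intro β hβ
      rw [interior_Icc] at hβ
      rw [(dJ (l.dGb a β)).deriv]
      have := h1 a (β - a) (by linarith [hβ.1]) (by linarith [hβ.2])
      rwa [add_sub_cancel] at this
  have := hmono ⟨le_refl _, hab.le⟩ ⟨hab.le, le_refl _⟩ hab
  simp only [l.G_diag, Quaternion.imJ_one] at this
  exact this

theorem cJ : Continuous fun p : ℝ × ℝ => (l.G p.1 p.2).imJ := Quaternion.continuous_imJ.comp l.cG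
theorem cK : Continuous fun p : ℝ × ℝ => (l.G p.1 p.2).imK := Quaternion.continuous_imK.comp l.cG

/-- the first double point in the sense of minimal parameter distance -/
theorem min_zero (ε : ℝ) (hε : 0 < ε)
    (hd : ∀ a b, a < b → b - a < ε → 0 < (l.G a b).imJ) :
    ∃ a b, a < b ∧ (l.G a b).imJ = 0 ∧ (l.G a b).imK = 0 ∧
      ∀ a' b', a' < b' → b' - a' < b - a → ¬ ((l.G a' b').imJ = 0 ∧ (l.G a' b').imK = 0) := by
  have hG0 : l.G 0 l.L = 1 := by
    have : l.c l.L = l.c 0 := by rw [← l.per 0, zero_add]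
    unfold Loop.G; rw [this]; exact star_mul_self_of _ (l.hn 0)
  have hεL : ε ≤ l.L := by
    by_contra hcon
    push Not at hcon
    have := hd 0 l.L l.hL (by linarith)
    rw [hG0] at this
    simp at this
  have hZc : IsCompact ((Icc 0 l.L ×ˢ Icc 0 (2 * l.L)) ∩
      {p : ℝ × ℝ | ε ≤ p.2 - p.1 ∧ (l.G p.1 p.2).imJ = 0 ∧ (l.G p.1 p.2).imK = 0}) := by
    apply (isCompact_Icc.prod isCompact_Icc).inter_right
    apply IsClosed.inter
    · exact isClosed_le continuous_const (continuous_snd.sub continuous_fst)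
    · apply IsClosed.inter
      · exact isClosed_eq l.cJ continuous_const
      · exact isClosed_eq l.cK continuous_const
  obtain ⟨p, hp, hmin⟩ := hZc.exists_isMinOn (f := fun p : ℝ × ℝ => p.2 - p.1)
    ⟨(0, l.L), ⟨⟨⟨le_refl _, l.hL.le⟩, ⟨l.hL.le, by linarith [l.hL]⟩⟩,
      ⟨by simpa using hεL, by simp [hG0], by simp [hG0]⟩⟩⟩ (by fun_prop)
  have hpe : ε ≤ p.2 - p.1 := hp.2.1
  have hpL : p.2 - p.1 ≤ l.L := by
    have := isMinOn_iff.1 hmin (0, l.L) ⟨⟨⟨le_refl _, l.hL.le⟩, ⟨l.hL.le, by linarith [l.hL]⟩⟩,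
      ⟨by simpa using hεL, by simp [hG0], by simp [hG0]⟩⟩
    simpa using this
  refine ⟨p.1, p.2, by linarith, hp.2.2.1, hp.2.2.2, ?_⟩
  rintro a b hab hlt ⟨h1, h2⟩
  obtain ⟨a', ha', h⟩ := l.shift a
  have hG : l.G a' (a' + (b - a)) = l.G a b := by
    have := (h (b - a)).1
    rwa [add_sub_cancel] at this
  have hbe : ε ≤ b - a := by
    by_contra hcon
    push Not at hcon
    have := hd a b hab hcon
    linarith
  have := isMinOn_iff.1 hmin (a', a' + (b - a)) ⟨⟨⟨ha'.1, ha'.2.le⟩, ⟨by linarith [ha'.1], by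
    show a' + (b - a) ≤ 2 * l.L
    linarith [ha'.2]⟩⟩,
    ⟨by simpa using hbe, by show (l.G a' (a' + (b - a))).imJ = 0; rw [hG, h1],
      by show (l.G a' (a' + (b - a))).imK = 0; rw [hG, h2]⟩⟩
  simp only [add_sub_cancel_left] at this
  linarith

/-- behaviour near the corner -/
theorem corner (A B : ℝ) (hAB : (l.G A B).imJ = 0 ∧ (l.G A B).imK = 0) (hre : 0 < (l.G A B).re) :
    ∃ η > 0, ∀ a b, A ≤ a → a < A + η → B - η < b → b ≤ B → (a, b) ≠ (A, B) →
      (l.G a b).imJ < 0 := by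
  have hk1 : Continuous fun p : ℝ × ℝ => (l.Gb p.1 p.2).imJ :=
    Quaternion.continuous_imJ.comp l.cGb
  have hk2 : Continuous fun p : ℝ × ℝ => (l.Ga p.1 p.2).imJ :=
    Quaternion.continuous_imJ.comp l.cGa
  have h1 : 0 < (l.Gb A B).imJ := by
    rw [l.Gb_eq]
    simp only [Quaternion.imJ_mul, mk4_re, mk4_imI, mk4_imJ, mk4_imK, hAB.1, hAB.2]
    have := mul_pos hre (l.hy B)
    linarith
  have h2 : (l.Ga A B).imJ < 0 := by
    rw [l.Ga_eq]
    simp only [Quaternion.imJ_neg, Quaternion.imJ_mul, mk4_re, mk4_imI, mk4_imJ, mk4_imK, hAB.1,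
      hAB.2]
    have := mul_pos hre (l.hy A)
    linarith
  have hnb : ∀ᶠ p : ℝ × ℝ in nhds (A, B), 0 < (l.Gb p.1 p.2).imJ ∧ (l.Ga p.1 p.2).imJ < 0 :=
    ((hk1.continuousAt (x := (A, B))).eventually (lt_mem_nhds h1)).and
      ((hk2.continuousAt (x := (A, B))).eventually (gt_mem_nhds h2))
  obtain ⟨η, hη, hball⟩ := Metric.eventually_nhds_iff.1 hnb
  refine ⟨η, hη, fun a b ha1 ha2 hb1 hb2 hne => ?_⟩
  have hin : ∀ α β, A ≤ α → α < A + η → B - η < β → β ≤ B →
      0 < (l.Gb α β).imJ ∧ (l.Ga α β).imJ < 0 := by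
    intro α β h1 h2 h3 h4
    apply hball (y := (α, β))
    rw [Prod.dist_eq, Real.dist_eq, Real.dist_eq]
    exact max_lt (abs_lt.2 ⟨by simp only []; linarith, by simp only []; linarith⟩)
      (abs_lt.2 ⟨by simp only []; linarith, by simp only []; linarith⟩)
  have hmono : StrictMonoOn (fun b => (l.G A b).imJ) (Icc b B) := by
    apply strictMonoOn_of_deriv_pos (convex_Icc b B)
    · exact (l.cJ.comp (by fun_prop : Continuous fun b : ℝ => (A, b))).continuousOn
    · intro β hβ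
      rw [interior_Icc] at hβ
      rw [(dJ (l.dGb A β)).deriv]
      exact (hin A β (le_refl _) (by linarith) (by linarith [hβ.1]) hβ.2.le).1
  have hanti : StrictAntiOn (fun a => (l.G a b).imJ) (Icc A a) := by
    apply strictAntiOn_of_deriv_neg (convex_Icc A a)
    · exact (l.cJ.comp (by fun_prop : Continuous fun a : ℝ => (a, b))).continuousOn
    · intro α hα
      rw [interior_Icc] at hα
      rw [(dJ (l.dGa α b)).deriv]
      exact (hin α b hα.1.le (by linarith [hα.2]) hb1 hb2).2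
  have e1 : (l.G A b).imJ ≤ 0 :=
    (hmono.monotoneOn ⟨le_refl _, hb2⟩ ⟨hb2, le_refl _⟩ hb2).trans_eq hAB.1
  have e2 : (l.G a b).imJ ≤ (l.G A b).imJ :=
    hanti.antitoneOn ⟨le_refl _, ha1⟩ ⟨ha1, le_refl _⟩ ha1
  rcases eq_or_lt_of_le ha1 with h | h
  · subst h
    have hbB : b < B := by
      rcases lt_or_eq_of_le hb2 with h | h
      · exact h
      · exact absurd (by rw [h]) hne
    have := hmono ⟨le_refl _, hb2⟩ ⟨hb2, le_refl _⟩ hbB
    simp only [hAB.1] at this
    exact this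
  · have := hanti ⟨le_refl _, ha1⟩ ⟨ha1, le_refl _⟩ h
    simp only at this
    linarith

/-- Lemma U. -/
theorem umlauf : ∃ a b, (l.G a b).imJ = 0 ∧ (l.G a b).imK = 0 ∧ (l.G a b).re ≤ 0 := by
  obtain ⟨ε, hε, hd⟩ := l.near_diag
  obtain ⟨A, B, hAB, hJ0, hK0, hmin⟩ := l.min_zero ε hε hd
  refine ⟨A, B, hJ0, hK0, ?_⟩
  by_contra hre
  push Not at hre
  obtain ⟨η, hη, hcor⟩ := l.corner A B ⟨hJ0, hK0⟩ hre
  have hpi := Real.pi_pos
  set m := B - A with hm
  have hm0 : 0 < m := by rw [hm]; linarith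
  set h0 := min ε (min η m) / 2 with hh0
  have hh0pos : 0 < h0 := by
    have : 0 < min ε (min η m) := lt_min hε (lt_min hη hm0)
    positivity
  have hmle1 : min ε (min η m) ≤ ε := min_le_left _ _
  have hmle2 : min ε (min η m) ≤ η := (min_le_right _ _).trans (min_le_left _ _)
  have hmle3 : min ε (min η m) ≤ m := (min_le_right _ _).trans (min_le_right _ _)
  have h0ε : h0 < ε := by linarith
  have h0η : h0 < η := by linarith
  have h0m : h0 ≤ m / 2 := by rw [hh0]; linarith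
  -- the map
  set cl : ℝ → ℝ := fun θ => max 0 (min 1 θ) with hcl
  have hcl_cont : Continuous cl := by fun_prop
  have hcl0 : ∀ θ, 0 ≤ cl θ := fun θ => le_max_left _ _
  have hcl1 : ∀ θ, cl θ ≤ 1 := fun θ => max_le zero_le_one (min_le_left _ _)
  have hclθ : ∀ θ ∈ Icc (0:ℝ) 1, cl θ = θ := by
    intro θ hθ
    simp only [hcl]
    rw [min_eq_right hθ.2, max_eq_right hθ.1]
  set AA : ℝ × ℝ → ℝ := fun p => A + cl p.2 * (m - p.1) with hAA
  have hAAc : Continuous AA := by fun_prop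
  set pt : ℝ × ℝ → ℝ × ℝ := fun p => (AA p, AA p + p.1) with hpt
  have hptc : Continuous pt := by fun_prop
  set Ψ : ℝ × ℝ → ℂ := fun p => (((l.G (pt p).1 (pt p).2).imJ : ℝ) : ℂ)
    + (((l.G (pt p).1 (pt p).2).imK : ℝ) : ℂ) * Complex.I with hΨ
  have hΨc : Continuous Ψ :=
    (Complex.continuous_ofReal.comp (l.cJ.comp hptc)).add
      ((Complex.continuous_ofReal.comp (l.cK.comp hptc)).mul continuous_const)
  have hΨre : ∀ p, (Ψ p).re = (l.G (pt p).1 (pt p).2).imJ := by intro p; simp [hΨ]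
  have hΨim : ∀ p, (Ψ p).im = (l.G (pt p).1 (pt p).2).imK := by intro p; simp [hΨ]
  set U : Set (ℝ × ℝ) := Ioo 0 m ×ˢ univ with hU
  have hUo : IsOpen U := isOpen_Ioo.prod isOpen_univ
  have hUconv : Convex ℝ U := (convex_Ioo 0 m).prod convex_univ
  have hUne : U.Nonempty := ⟨(m / 2, 0), ⟨⟨by positivity, by linarith⟩, mem_univ _⟩⟩
  have hUsc : IsSimplyConnected U := by
    have := hUconv.contractibleSpace hUne
    show SimplyConnectedSpace U
    infer_instance
  have hΨne : (0:ℂ) ∉ Ψ '' U := by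
    rintro ⟨p, hp, h⟩
    have h1 : (l.G (pt p).1 (pt p).2).imJ = 0 := by rw [← hΨre, h]; simp
    have h2 : (l.G (pt p).1 (pt p).2).imK = 0 := by rw [← hΨim, h]; simp
    refine hmin (pt p).1 (pt p).2 ?_ ?_ ⟨h1, h2⟩
    · simp only [hpt]; linarith [hp.1.1]
    · simp only [hpt]; linarith [hp.1.2]
  obtain ⟨φ, hφc, hφe⟩ := Complex.exists_continuousOn_eqOn_exp_comp hUsc hUo hΨc.continuousOn hΨne
  have hφ : ∀ p ∈ U, Complex.exp (φ p) = Ψ p := fun p hp => hφe hp
  have himc : ContinuousOn (fun p => (φ p).im) U := Complex.continuous_im.comp_continuousOn hφc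
  have hre_eq : ∀ p ∈ U, (Ψ p).re = Real.exp (φ p).re * Real.cos (φ p).im := by
    intro p hp; rw [← hφ p hp, Complex.exp_re]
  -- slices
  have hslice : ∀ h ∈ Ioo 0 m, ContinuousOn (fun θ : ℝ => (φ (h, θ)).im) (Icc 0 1) := by
    intro h hh
    apply himc.comp (f := fun θ : ℝ => (h, θ)) (by fun_prop)
    intro θ _
    exact ⟨hh, mem_univ _⟩
  have hh0mem : h0 ∈ Ioo 0 m := ⟨hh0pos, by linarith⟩
  have hh1mem : m - h0 ∈ Ioo 0 m := ⟨by linarith, by linarith⟩
  obtain ⟨k0, hk0⟩ := band (hslice h0 hh0mem) (by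
    intro θ hθ
    have e1 := hre_eq (h0, θ) ⟨hh0mem, mem_univ _⟩
    have e2 : 0 < (Ψ (h0, θ)).re := by
      rw [hΨre]
      apply hd
      · simp only [hpt]; linarith
      · simp only [hpt]; linarith
    rw [e1] at e2
    exact (pos_iff_pos_of_mul_pos e2).1 (Real.exp_pos _))
  obtain ⟨k1, hk1⟩ := band (f := fun θ => (φ (m - h0, θ)).im - Real.pi)
    ((hslice (m - h0) hh1mem).sub continuousOn_const) (by
    intro θ hθ
    have e1 := hre_eq (m - h0, θ) ⟨hh1mem, mem_univ _⟩
    have e2 : (Ψ (m - h0, θ)).re < 0 := by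
      rw [hΨre]
      have hc0 := hcl0 θ
      have hc1 := hcl1 θ
      have ea : AA (m - h0, θ) = A + cl θ * h0 := by simp only [hAA]; ring
      have eb : cl θ * h0 ≤ h0 := by nlinarith
      have ec : 0 ≤ cl θ * h0 := by positivity
      apply hcor
      · simp only [hpt, ea]; linarith
      · simp only [hpt, ea]; linarith
      · simp only [hpt, ea]; linarith
      · simp only [hpt, ea]; linarith
      · intro heq
        simp only [hpt, Prod.mk.injEq] at heq
        linarith [heq.1, heq.2]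
    rw [e1] at e2
    have e3 : Real.cos (φ (m - h0, θ)).im < 0 := by
      by_contra hcon
      push Not at hcon
      have := mul_nonneg (Real.exp_pos (φ (m - h0, θ)).re).le hcon
      linarith
    show 0 < Real.cos ((φ (m - h0, θ)).im - Real.pi)
    rw [Real.cos_sub_pi]
    linarith)
  -- the relation between the two edges
  have hrel : ∀ h ∈ Ioo 0 m, Ψ (m - h, 1) =
      (((-(l.G A B).re : ℝ) : ℂ) + (((l.G A B).imI : ℝ) : ℂ) * Complex.I) * Ψ (h, 0) := by
    intro h hh
    have hcl_1 : cl 1 = 1 := hclθ 1 ⟨zero_le_one, le_refl _⟩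
    have hcl_0 : cl 0 = 0 := hclθ 0 ⟨le_refl _, zero_le_one⟩
    have p1 : pt (m - h, 1) = (A + h, B) := by
      simp only [hpt, hAA, hcl_1, hm]
      refine Prod.ext ?_ ?_ <;> simp only [] <;> ring
    have p0 : pt (h, 0) = (A, A + h) := by
      simp only [hpt, hAA, hcl_0]
      refine Prod.ext ?_ ?_ <;> simp only [] <;> ring
    have hG : l.G (A + h) B = star (l.G A (A + h)) * l.G A B := by
      rw [← l.G_symm A (A + h)]
      unfold Loop.G
      rw [mul_assoc, ← mul_assoc (l.c A), self_mul_star_of _ (l.hn A), one_mul]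
    apply Complex.ext
    · rw [hΨre, p1, hG]
      simp only [Complex.mul_re, Complex.add_re, Complex.add_im, Complex.mul_im, Complex.ofReal_re,
        Complex.ofReal_im, Complex.I_re, Complex.I_im, hΨre, hΨim, p0, Quaternion.imJ_mul,
        Quaternion.re_star, Quaternion.imI_star, Quaternion.imJ_star, Quaternion.imK_star, hJ0, hK0]
      ring
    · rw [hΨim, p1, hG]
      simp only [Complex.mul_re, Complex.add_re, Complex.add_im, Complex.mul_im, Complex.ofReal_re,
        Complex.ofReal_im, Complex.I_re, Complex.I_im, hΨre, hΨim, p0, Quaternion.imK_mul,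
        Quaternion.re_star, Quaternion.imI_star, Quaternion.imJ_star, Quaternion.imK_star, hJ0, hK0]
      ring
  set κ : ℂ := (((-(l.G A B).re : ℝ) : ℂ) + (((l.G A B).imI : ℝ) : ℂ) * Complex.I) with hκ
  -- the constant difference
  set g : ℝ → ℝ := fun h => (φ (m - h, 1)).im - (φ (h, 0)).im with hg
  have hIcc : Icc h0 (m - h0) ⊆ Ioo 0 m := fun x hx => ⟨by linarith [hx.1], by linarith [hx.2]⟩
  have hgc : ContinuousOn g (Icc h0 (m - h0)) := by
    apply ContinuousOn.sub
    · apply himc.comp (f := fun h : ℝ => (m - h, (1:ℝ))) (by fun_prop)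
      intro x hx
      have := hIcc hx
      exact ⟨⟨by linarith [this.2], by linarith [this.1]⟩, mem_univ _⟩
    · apply himc.comp (f := fun h : ℝ => (h, (0:ℝ))) (by fun_prop)
      intro x hx
      exact ⟨hIcc hx, mem_univ _⟩
  have hexp : ∀ h ∈ Ioo 0 m, Complex.exp (φ (m - h, 1) - φ (h, 0)) = κ := by
    intro h hh
    have hh' : m - h ∈ Ioo 0 m := ⟨by linarith [hh.2], by linarith [hh.1]⟩
    rw [Complex.exp_sub, hφ _ ⟨hh', mem_univ _⟩, hrel h hh, ← hφ (h, 0) ⟨hh, mem_univ _⟩]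
    field_simp
  have hconst : g (m - h0) = g h0 := by
    apply const_of_int (by linarith) hgc
    intro x hx
    have e1 := hexp x (hIcc hx)
    have e2 := hexp h0 hh0mem
    rw [← e2, Complex.exp_eq_exp_iff_exists_int] at e1
    obtain ⟨n, hn⟩ := e1
    refine ⟨n, ?_⟩
    have e3 := congrArg Complex.im hn
    simp only [Complex.sub_im, Complex.add_im, Complex.mul_im, Complex.intCast_re,
      Complex.intCast_im, Complex.I_re, Complex.I_im, Complex.ofReal_re, Complex.ofReal_im,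
      Complex.re_ofNat, Complex.im_ofNat, Complex.mul_re] at e3
    simp only [hg]
    rw [e3]
    ring
  have hm1 : m - (m - h0) = h0 := by ring
  simp only [hg, hm1] at hconst
  have a1 := abs_lt.1 (hk0 0 ⟨le_refl _, zero_le_one⟩)
  have a2 := abs_lt.1 (hk0 1 ⟨zero_le_one, le_refl _⟩)
  have b1 := abs_lt.1 (hk1 0 ⟨le_refl _, zero_le_one⟩)
  have b2 := abs_lt.1 (hk1 1 ⟨zero_le_one, le_refl _⟩)
  -- sum of the two relations
  have s1 : 4 * Real.pi * (k1:ℝ) - 4 * Real.pi * (k0:ℝ) < 0 := by linarith [a1.1, a1.2]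
  have s2 : -(4 * Real.pi) < 4 * Real.pi * (k1:ℝ) - 4 * Real.pi * (k0:ℝ) := by
    linarith [a1.1, a1.2]
  have s3 : ((k1 - k0 : ℤ) : ℝ) < 0 := by
    push_cast
    have : 4 * Real.pi * ((k1:ℝ) - k0) < 0 := by linarith
    by_contra hcon
    push Not at hcon
    have := mul_nonneg (by positivity : 0 ≤ 4 * Real.pi) hcon
    linarith
  have s4 : (-1 : ℝ) < ((k1 - k0 : ℤ) : ℝ) := by
    push_cast
    by_contra hcon
    push Not at hcon
    have := mul_le_mul_of_nonneg_left hcon (by positivity : 0 ≤ 4 * Real.pi)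
    linarith
  have s5 : k1 - k0 < 0 := by exact_mod_cast s3
  have s6 : -1 < k1 - k0 := by exact_mod_cast s4
  omega

/-- a point `e^{θ i}` with `θ ∈ (π/2, π)` on the surface. -/
theorem exists_second_quadrant (hm1 : ∀ a b, l.G a b ≠ -1) (hi : ∀ a b, l.G a b ≠ mk4 0 1 0 0) :
    ∃ a b P Q, P < 0 ∧ 0 < Q ∧ l.G a b = mk4 P Q 0 0 := by
  obtain ⟨a, b, hJ, hK, hre⟩ := l.umlauf
  have hGG := l.GG a b
  simp only [ip, hJ, hK] at hGG
  have hre' : (l.G a b).re < 0 := by
    rcases lt_or_eq_of_le hre with h | h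
    · exact h
    · exfalso
      rw [h] at hGG
      have : ((l.G a b).imI - 1) * ((l.G a b).imI + 1) = 0 := by linarith
      rcases mul_eq_zero.1 this with h1 | h1
      · apply hi a b
        ext
        · simpa using h
        · simp only [mk4_imI]; linarith
        · simpa using hJ
        · simpa using hK
      · apply hi b a
        rw [l.G_symm]
        ext
        · simpa using h
        · simp only [Quaternion.imI_star, mk4_imI]; linarith
        · simpa using hJ
        · simpa using hK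
  have hQ : (l.G a b).imI ≠ 0 := by
    intro h0
    apply hm1 a b
    rw [h0] at hGG
    have : ((l.G a b).re - 1) * ((l.G a b).re + 1) = 0 := by linarith
    rcases mul_eq_zero.1 this with h1 | h1
    · linarith
    · ext
      · simp only [Quaternion.re_neg, Quaternion.re_one]; linarith
      · simpa using h0
      · simpa using hJ
      · simpa using hK
  rcases lt_or_gt_of_ne hQ with h | h
  · refine ⟨b, a, (l.G a b).re, -(l.G a b).imI, hre', by linarith, ?_⟩
    rw [l.G_symm]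
    ext <;> simp [hJ, hK]
  · refine ⟨a, b, (l.G a b).re, (l.G a b).imI, hre', h, ?_⟩
    ext <;> simp [hJ, hK]

/-- if `-1` is not on the surface, `-i` is not in the good class of `-1`. -/
theorem main_not (hm1 : ∀ a b, l.G a b ≠ -1) :
    ¬ (l.Good (mk4 0 (-1) 0 0) ∧ l.R (mk4 0 (-1) 0 0) (-1)) := by
  rintro ⟨hg, hR⟩
  have hi : ∀ a b, l.G a b ≠ mk4 0 1 0 0 := by
    intro a b h
    apply hg a b
    rw [h]
    ext <;> simp
  exact l.not_R hm1 hi (l.exists_second_quadrant hm1 hi) hR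

end TLoop

end Pool.Agent.H81.Flat
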