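import Mathlib
import Pool.Agent.H81.Flat.Umlauf

/-!
The topological main theorem: two closed transverse curves always produce antipodal points.
-/

namespace Pool.Agent.H81.Flat

open Quaternion MeasureTheory Set

theorem locconst {X : Type*} [TopologicalSpace X] [PreconnectedSpace X] (P : X → Prop)
    (h : ∀ x₀, ∀ᶠ x in nhds x₀, (P x ↔ P x₀)) (a b : X) (ha : P a) : P b := by
  have hc : IsClopen {x | P x} := by
    constructor
    · rw [← isOpen_compl_iff, isOpen_iff_eventually]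
      intro x hx
      filter_upwards [h x] with y hy
      intro hy'
      exact hx (hy.1 hy')
    · rw [isOpen_iff_eventually]
      intro x hx
      filter_upwards [h x] with y hy
      exact hy.2 hx
  rcases isClopen_iff.1 hc with h1 | h1
  · exfalso
    have : a ∈ {x | P x} := ha
    rw [h1] at this; exact this
  · have : b ∈ {x | P x} := by rw [h1]; exact mem_univ _
    exact this

/-- admissible sets -/
structure Adm (l : Loop) (W : Set ℍ[ℝ]) : Prop where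
  neg_one : (-1 : ℍ[ℝ]) ∈ W
  good : ∀ u ∈ W, l.Good u
  near : ∀ u₀, ip u₀ u₀ = 1 → l.Good u₀ → ∃ δ > 0, ∀ v, ip v v = 1 → ‖v - u₀‖ < δ → (v ∈ W ↔ u₀ ∈ W)

theorem G_swap (l : Loop) (a b : ℝ) : l.G b a = star (l.G a b) := by
  unfold Loop.G; rw [star_mul, star_star]

theorem mul_eq_one_iff_of_unit {u g : ℍ[ℝ]} (hg : ip g g = 1) : u * g = 1 ↔ u = star g := by
  constructor
  · intro h
    have : u * g * star g = star g := by rw [h, one_mul]
    rwa [mul_assoc, self_mul_star_of g hg, mul_one] at this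
  · rintro rfl
    exact star_mul_self_of g hg

theorem ip_neg_neg (u : ℍ[ℝ]) : ip (-u) (-u) = ip u u := by
  simp only [ip, Quaternion.re_neg, Quaternion.imI_neg, Quaternion.imJ_neg, Quaternion.imK_neg]
  ring

/-- `-D₂ ⊆ W₁` -/
theorem neg_mem (l₁ l₂ : Loop) (W₁ : Set ℍ[ℝ]) (h₁ : Adm l₁ W₁)
    (hD : ∀ a b c d, l₁.G a b ≠ - l₂.G c d) (c d : ℝ) : - l₂.G c d ∈ W₁ := by
  have hgood : ∀ c d, l₁.Good (- l₂.G c d) := by
    intro c d a b h
    rw [mul_eq_one_iff_of_unit (l₁.GG a b), ← G_swap] at h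
    exact hD _ _ _ _ h.symm
  have hcont : Continuous fun p : ℝ × ℝ => - l₂.G p.1 p.2 := l₂.cG.neg
  refine locconst (X := ℝ × ℝ) (fun p => - l₂.G p.1 p.2 ∈ W₁) ?_ (0, 0) (c, d) ?_
  · intro p
    obtain ⟨δ, hδ, h⟩ := h₁.near (- l₂.G p.1 p.2) (by rw [ip_neg_neg, l₂.GG]) (hgood _ _)
    have hev := Metric.continuousAt_iff'.1 (hcont.continuousAt (x := p)) δ hδ
    filter_upwards [hev] with q hq
    rw [dist_eq_norm] at hq
    exact h _ (by rw [ip_neg_neg, l₂.GG]) hq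
  · show - l₂.G 0 0 ∈ W₁
    have : l₂.G 0 0 = 1 := star_mul_self_of _ (l₂.hn 0)
    rw [this]
    exact h₁.neg_one

theorem separation (l₁ l₂ : Loop) (W₁ W₂ : Set ℍ[ℝ]) (h₁ : Adm l₁ W₁) (h₂ : Adm l₂ W₂)
    (hD : ∀ a b c d, l₁.G a b ≠ - l₂.G c d) (w : ℍ[ℝ]) (hw : ip w w = 1) (hw1 : w ∉ W₁)
    (hw2 : - w ∉ W₂) : False := by
  have n1 := neg_mem l₁ l₂ W₁ h₁ hD
  have n2 := neg_mem l₂ l₁ W₂ h₂ (by
    intro a b c d h
    apply hD c d a b
    rw [h, neg_neg])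
  have hconn : PreconnectedSpace (Metric.sphere (0:ℍ[ℝ]) 1) := by
    apply isPreconnected_iff_preconnectedSpace.1
    apply (isConnected_sphere _ 0 zero_le_one).isPreconnected
    rw [Quaternion.rank_eq_four]
    norm_num
  have hn : ∀ x : Metric.sphere (0:ℍ[ℝ]) 1, ip (x:ℍ[ℝ]) x = 1 := by
    intro x
    apply ip_of_norm_one
    have := x.2
    rwa [mem_sphere_zero_iff_norm] at this
  have hcoe : ∀ x₀ : Metric.sphere (0:ℍ[ℝ]) 1, ∀ δ > 0, ∀ᶠ x : Metric.sphere (0:ℍ[ℝ]) 1 in nhds x₀,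
      ‖(x:ℍ[ℝ]) - x₀‖ < δ := by
    intro x₀ δ hδ
    have := Metric.continuousAt_iff'.1
      ((continuous_subtype_val (p := fun x => x ∈ Metric.sphere (0:ℍ[ℝ]) 1)).continuousAt (x := x₀)) δ hδ
    filter_upwards [this] with q hq
    rwa [dist_eq_norm] at hq
  have key := locconst (X := Metric.sphere (0:ℍ[ℝ]) 1)
    (fun x => (x:ℍ[ℝ]) ∈ W₁ ∨ -(x:ℍ[ℝ]) ∈ W₂) ?_
    ⟨-1, by simp⟩ ⟨w, by simp [norm_one_of_ip hw]⟩ (Or.inl h₁.neg_one)
  · rcases key with h | h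
    · exact hw1 h
    · exact hw2 h
  · intro x₀
    have hd2 : ∀ x : Metric.sphere (0:ℍ[ℝ]) 1, ‖-(x:ℍ[ℝ]) - -(x₀:ℍ[ℝ])‖ = ‖(x:ℍ[ℝ]) - x₀‖ := by
      intro x
      rw [← norm_neg]; congr 1; abel
    by_cases g1 : l₁.Good x₀
    · by_cases g2 : l₂.Good (-(x₀:ℍ[ℝ]))
      · obtain ⟨δ, hδ, h⟩ := h₁.near x₀ (hn x₀) g1
        obtain ⟨δ', hδ', h'⟩ := h₂.near (-(x₀:ℍ[ℝ])) (by rw [ip_neg_neg]; exact hn x₀) g2
        filter_upwards [hcoe x₀ δ hδ, hcoe x₀ δ' hδ'] with x hx hx'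
        rw [h x (hn x) hx, h' (-(x:ℍ[ℝ])) (by rw [ip_neg_neg]; exact hn x) (by rw [hd2]; exact hx')]
      · -- x₀ = - G₂
        unfold Loop.Good at g2
        push Not at g2
        obtain ⟨a, b, hab⟩ := g2
        rw [mul_eq_one_iff_of_unit (l₂.GG a b), ← G_swap] at hab
        have hx0 : (x₀:ℍ[ℝ]) = - l₂.G b a := by rw [← hab, neg_neg]
        have hmem : (x₀:ℍ[ℝ]) ∈ W₁ := by rw [hx0]; exact n1 _ _
        obtain ⟨δ, hδ, h⟩ := h₁.near x₀ (hn x₀) g1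
        filter_upwards [hcoe x₀ δ hδ] with x hx
        have := (h x (hn x) hx).2 hmem
        simp only [this, hmem, true_or]
    · unfold Loop.Good at g1
      push Not at g1
      obtain ⟨a, b, hab⟩ := g1
      rw [mul_eq_one_iff_of_unit (l₁.GG a b), ← G_swap] at hab
      have hmem : -(x₀:ℍ[ℝ]) ∈ W₂ := by rw [hab]; exact n2 _ _
      obtain ⟨δ', hδ', h'⟩ := h₂.near (-(x₀:ℍ[ℝ])) (by rw [ip_neg_neg]; exact hn x₀) (h₂.good _ hmem)
      filter_upwards [hcoe x₀ δ' hδ'] with x hx'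
      have := (h' (-(x:ℍ[ℝ])) (by rw [ip_neg_neg]; exact hn x) (by rw [hd2]; exact hx')).2 hmem
      simp only [this, hmem, or_true]

/-- the standard admissible set -/
def Wset (l : Loop) : Set ℍ[ℝ] := {u | l.Good u ∧ l.R u (-1)}

theorem adm_Wset (l : Loop) (hm1 : ∀ a b, l.G a b ≠ -1) : Adm l (Wset l) where
  neg_one := by
    refine ⟨fun a b h => hm1 a b ?_, Loop.R.refl l _⟩
    rw [neg_mul, one_mul] at h
    rw [← h, neg_neg]
  good := fun u hu => hu.1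
  near := by
    intro u₀ hu₀ hg
    obtain ⟨δ, hδ, h⟩ := l.near u₀ hu₀ hg
    refine ⟨δ, hδ, fun v hv hvu => ?_⟩
    obtain ⟨h1, h2⟩ := h v hv hvu
    exact ⟨fun h3 => ⟨hg, h2.symm.trans h3.2⟩, fun h3 => ⟨h1, h2.trans h3.2⟩⟩

/-- conjugation by `j` -/
def cj (q : ℍ[ℝ]) : ℍ[ℝ] := mk4 q.re (-q.imI) q.imJ (-q.imK)

theorem cj_mul (p q : ℍ[ℝ]) : cj (p * q) = cj p * cj q := by
  ext <;> simp [cj] <;> ring

theorem cj_star (p : ℍ[ℝ]) : cj (star p) = star (cj p) := by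
  ext <;> simp [cj]

theorem cj_cj (p : ℍ[ℝ]) : cj (cj p) = p := by
  ext <;> simp [cj]

theorem cj_one : cj 1 = 1 := by ext <;> simp [cj]
theorem cj_neg (p : ℍ[ℝ]) : cj (-p) = -cj p := by ext <;> simp [cj]
theorem cj_sub (p q : ℍ[ℝ]) : cj (p - q) = cj p - cj q := by ext <;> simp [cj] <;> ring

theorem ip_cj (p q : ℍ[ℝ]) : ip (cj p) (cj q) = ip p q := by
  simp only [ip, cj, mk4_re, mk4_imI, mk4_imJ, mk4_imK]; ring

theorem norm_cj (p : ℍ[ℝ]) : ‖cj p‖ = ‖p‖ := by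
  have h := ip_cj p p
  rw [ip_self, ip_self] at h
  exact (sq_eq_sq₀ (norm_nonneg _) (norm_nonneg _)).1 h

noncomputable def Lcj : ℍ[ℝ] →L[ℝ] ℍ[ℝ] :=
  LinearMap.toContinuousLinearMap { toFun := cj, map_add' := by intro a b; ext <;> simp [cj] <;> ring, map_smul' := by intro a b; ext <;> simp [cj] }

/-- the conjugate loop -/
noncomputable def TLoop.conj (l : TLoop) : TLoop where
  c := fun s => cj (l.c s)
  c' := fun s => cj (l.c' s)
  L := l.L
  hL := l.hL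
  hc := fun s => Lcj.hasFDerivAt.comp_hasDerivAt s (l.hc s)
  hc' := Lcj.continuous.comp l.hc'
  hn := fun s => by rw [ip_cj, l.hn]
  per := fun s => by rw [l.per]
  per' := fun s => by rw [l.per']
  x := fun s => - l.x s
  y := fun s => l.y s
  hω := fun s => by
    rw [l.hω, cj_mul]
    congr 1
    ext <;> simp [cj]
  hy := l.hy

theorem TLoop.conj_G (l : TLoop) (a b : ℝ) : l.conj.G a b = cj (l.G a b) := by
  unfold Loop.G
  rw [cj_mul, cj_star]
  rfl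

/-- The topological theorem. -/
theorem topo (l₁ l₂ : TLoop) : ∃ a b c d, l₁.G a b = - l₂.G c d := by
  by_contra hcon
  push Not at hcon
  have hm1 : ∀ a b, l₁.G a b ≠ -1 := by
    intro a b h
    apply hcon a b 0 0
    rw [h, l₂.G_diag]
  have hm2 : ∀ a b, l₂.G a b ≠ -1 := by
    intro a b h
    apply hcon 0 0 a b
    rw [h, l₁.G_diag, neg_neg]
  have hm2' : ∀ a b, l₂.conj.G a b ≠ -1 := by
    intro a b h
    apply hm2 a b
    rw [l₂.conj_G] at h
    rw [← cj_cj (l₂.G a b), h, cj_neg, cj_one]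
  have hgood : ∀ u, l₂.conj.Good (cj u) ↔ l₂.Good u := by
    intro u
    unfold Loop.Good
    apply forall_congr'; intro a
    apply forall_congr'; intro b
    rw [l₂.conj_G, ← cj_mul, not_iff_not]
    constructor
    · intro h
      rw [← cj_cj (u * l₂.G a b), h, cj_one]
    · intro h
      rw [h, cj_one]
  have A1 := adm_Wset l₁.toLoop hm1
  have A2' := adm_Wset l₂.conj.toLoop hm2'
  have A2 : Adm l₂.toLoop {u | cj u ∈ Wset l₂.conj.toLoop} := by
    refine ⟨?_, ?_, ?_⟩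
    · show cj (-1) ∈ Wset l₂.conj.toLoop
      rw [cj_neg, cj_one]
      exact A2'.neg_one
    · intro u hu
      exact (hgood u).1 (A2'.good _ hu)
    · intro u₀ hu₀ hg
      obtain ⟨δ, hδ, h⟩ := A2'.near (cj u₀) (by rw [ip_cj, hu₀]) ((hgood _).2 hg)
      refine ⟨δ, hδ, fun v hv hvu => ?_⟩
      exact h (cj v) (by rw [ip_cj, hv]) (by rw [← cj_sub, norm_cj]; exact hvu)
  refine separation l₁.toLoop l₂.toLoop _ _ A1 A2 hcon (mk4 0 (-1) 0 0) (by simp [ip]) ?_ ?_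
  · exact l₁.main_not hm1
  · intro h
    apply l₂.conj.main_not hm2'
    have e : cj (-(mk4 0 (-1) 0 0)) = mk4 0 (-1) 0 0 := by ext <;> simp [cj]
    have h' : cj (-(mk4 0 (-1) 0 0)) ∈ Wset l₂.conj.toLoop := h
    rw [e] at h'
    exact h'

end Pool.Agent.H81.Flat
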