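import Mathlib
import Pool.Agent.H81.Flat.Frame
import Pool.Agent.H81.Flat.Top

/-!
Structure equations of an isometric immersion of the plane in the unit 3-sphere.
-/

namespace Pool.Agent.H81.Flat

open Quaternion Set
open scoped RealInnerProductSpace ContDiff

/-! ### calculus helpers -/

theorem sm_mul {g h : E2 → ℍ[ℝ]} (hg : ContDiff ℝ ∞ g) (hh : ContDiff ℝ ∞ h) :
    ContDiff ℝ ∞ (fun p => g p * h p) := hg.mul hh
theorem sm_star {g : E2 → ℍ[ℝ]} (hg : ContDiff ℝ ∞ g) :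
    ContDiff ℝ ∞ (fun p => star (g p)) := Lstar.contDiff.comp hg
theorem sm_fd {g : E2 → ℍ[ℝ]} (hg : ContDiff ℝ ∞ g) (u : E2) :
    ContDiff ℝ ∞ (fun p => fderiv ℝ g p u) :=
  ((contDiff_infty_iff_fderiv.1 hg).2).clm_apply contDiff_const
theorem sm_diff {F : Type*} [NormedAddCommGroup F] [NormedSpace ℝ F] {g : E2 → F}
    (hg : ContDiff ℝ ∞ g) (p : E2) : DifferentiableAt ℝ g p := (contDiff_infty_iff_fderiv.1 hg).1 p

theorem fd_mul {g h : E2 → ℍ[ℝ]} {p : E2} (hg : DifferentiableAt ℝ g p)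
    (hh : DifferentiableAt ℝ h p) (u : E2) :
    fderiv ℝ (fun p => g p * h p) p u = fderiv ℝ g p u * h p + g p * fderiv ℝ h p u := by
  have h1 : HasFDerivAt (fun p => g p * h p) (g p • fderiv ℝ h p + MulOpposite.op (h p) • fderiv ℝ g p) p :=
    hg.hasFDerivAt.mul' hh.hasFDerivAt
  rw [h1.fderiv]
  simp
  abel

theorem fd_star {g : E2 → ℍ[ℝ]} {p : E2} (hg : DifferentiableAt ℝ g p) (u : E2) :
    fderiv ℝ (fun p => star (g p)) p u = star (fderiv ℝ g p u) := by
  have h1 : HasFDerivAt (fun p => star (g p)) (Lstar.comp (fderiv ℝ g p)) p :=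
    Lstar.hasFDerivAt.comp p hg.hasFDerivAt
  rw [h1.fderiv]
  rfl

/-- the bilinear form `ip` as a continuous bilinear map -/
noncomputable def ipL : ℍ[ℝ] →L[ℝ] ℍ[ℝ] →L[ℝ] ℝ :=
  Lre.smulRight Lre + LI.smulRight LI + LJ.smulRight LJ + LK.smulRight LK

theorem ipL_apply (a b : ℍ[ℝ]) : ipL a b = ip a b := by
  simp only [ipL, ip, add_apply, ContinuousLinearMap.smulRight_apply,
    smul_apply, smul_eq_mul]
  rfl

theorem fd_ip {g h : E2 → ℍ[ℝ]} {p : E2} (hg : DifferentiableAt ℝ g p)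
    (hh : DifferentiableAt ℝ h p) (u : E2) :
    fderiv ℝ (fun p => ip (g p) (h p)) p u = ip (fderiv ℝ g p u) (h p) + ip (g p) (fderiv ℝ h p u) := by
  have e : (fun p => ip (g p) (h p)) = fun p => ipL (g p) (h p) := by
    ext p; rw [ipL_apply]
  rw [e]
  have h0 : HasFDerivAt (fun q : ℍ[ℝ] => ipL q) ipL (g p) := ipL.hasFDerivAt
  have h1 : HasFDerivAt (fun p => ipL (g p)) (ipL.comp (fderiv ℝ g p)) p := by
    have := HasFDerivAt.comp (g := fun q : ℍ[ℝ] => (ipL q : ℍ[ℝ] →L[ℝ] ℝ)) (g' := ipL) p h0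
      hg.hasFDerivAt
    exact this
  have h2 := h1.clm_apply hh.hasFDerivAt
  rw [h2.fderiv]
  simp only [add_apply, ContinuousLinearMap.comp_apply,
    ContinuousLinearMap.flip_apply, ipL_apply]
  ring

/-! ### algebra helpers -/

theorem ip_add_left (a b c : ℍ[ℝ]) : ip (a + b) c = ip a c + ip b c := by
  simp only [ip, Quaternion.re_add, Quaternion.imI_add, Quaternion.imJ_add, Quaternion.imK_add]; ring
theorem ip_add_right (a b c : ℍ[ℝ]) : ip a (b + c) = ip a b + ip a c := by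
  simp only [ip, Quaternion.re_add, Quaternion.imI_add, Quaternion.imJ_add, Quaternion.imK_add]; ring
theorem ip_sub_left (a b c : ℍ[ℝ]) : ip (a - b) c = ip a c - ip b c := by
  simp only [ip, Quaternion.re_sub, Quaternion.imI_sub, Quaternion.imJ_sub, Quaternion.imK_sub]; ring
theorem ip_sub_right (a b c : ℍ[ℝ]) : ip a (b - c) = ip a b - ip a c := by
  simp only [ip, Quaternion.re_sub, Quaternion.imI_sub, Quaternion.imJ_sub, Quaternion.imK_sub]; ring
theorem ip_smul_left (r : ℝ) (a b : ℍ[ℝ]) : ip (r • a) b = r * ip a b := by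
  simp only [ip, Quaternion.re_smul, Quaternion.imI_smul, Quaternion.imJ_smul, Quaternion.imK_smul,
    smul_eq_mul]; ring
theorem ip_smul_right (r : ℝ) (a b : ℍ[ℝ]) : ip a (r • b) = r * ip a b := by
  rw [ip_comm, ip_smul_left, ip_comm]
theorem ip_neg_left (a b : ℍ[ℝ]) : ip (-a) b = - ip a b := by
  simp only [ip, Quaternion.re_neg, Quaternion.imI_neg, Quaternion.imJ_neg, Quaternion.imK_neg]; ring
theorem ip_zero_left (b : ℍ[ℝ]) : ip 0 b = 0 := by simp [ip]

/-- orthonormal imaginary pair -/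
structure ON (A B : ℍ[ℝ]) : Prop where
  a0 : A.re = 0
  b0 : B.re = 0
  aa : ip A A = 1
  bb : ip B B = 1
  ab : ip A B = 0

theorem anti (a b : ℍ[ℝ]) (ha : a.re = 0) (hb : b.re = 0) (h : ip a b = 0) : a * b = -(b * a) := by
  simp only [ip, ha, hb] at h
  ext <;> simp [ha, hb] <;> linarith

namespace ON

variable {A B : ℍ[ℝ]} (h : ON A B)
include h

theorem AA : A * A = -1 := sq_of_unit A h.a0 h.aa
theorem BB : B * B = -1 := sq_of_unit B h.b0 h.bb
theorem BA : B * A = -(A * B) := by rw [anti B A h.b0 h.a0 (by rw [ip_comm]; exact h.ab)]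
theorem n0 : (A * B).re = 0 := by
  have := h.ab
  simp only [ip, h.a0, h.b0] at this
  simp [h.a0, h.b0]
  linarith
theorem nn : ip (A * B) (A * B) = 1 := by rw [ip_mul_left, h.aa, h.bb]; norm_num
theorem an : ip A (A * B) = 0 := by
  have : ip (A * 1) (A * B) = 0 := by
    rw [ip_mul_left, h.aa, one_mul]
    simp [ip, h.b0]
  rwa [mul_one] at this
theorem bn : ip B (A * B) = 0 := by
  have : ip (1 * B) (A * B) = 0 := by
    rw [ip_mul_right, h.bb, one_mul]
    simp [ip, h.a0]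
  rwa [one_mul] at this
theorem NB : (A * B) * B = - A := by rw [mul_assoc, h.BB, mul_neg, mul_one]
theorem AN : A * (A * B) = - B := by rw [← mul_assoc, h.AA, neg_mul, one_mul]
theorem NN : (A * B) * (A * B) = -1 := sq_of_unit _ h.n0 h.nn

/-- an imaginary quaternion orthogonal to `A` and `B` is a multiple of `A * B`. -/
theorem par (q : ℍ[ℝ]) (hq : q.re = 0) (hA : ip q A = 0) (hB : ip q B = 0) :
    q = ip q (A * B) • (A * B) := by
  have h1 := anti q A hq h.a0 hA
  have h2 := anti q B hq h.b0 hB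
  have h4 : q * (A * B) = (A * B) * q := by
    rw [← mul_assoc, h1, neg_mul, mul_assoc, h2, mul_neg, neg_neg, mul_assoc]
  have h5 : q * (A * B) + (A * B) * q = (-2 * ip q (A * B)) • (1 : ℍ[ℝ]) := by
    have hn := h.n0
    generalize A * B = N at *
    ext <;> simp [hq, hn, ip] <;> ring
  have h6 : q * (A * B) = (- ip q (A * B)) • (1 : ℍ[ℝ]) := by
    rw [← h4] at h5
    have h7 : (2:ℝ) • (q * (A * B)) = (2:ℝ) • ((- ip q (A * B)) • (1 : ℍ[ℝ])) := by
      rw [two_smul, h5, smul_smul]; congr 1; ring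
    exact smul_right_injective _ (two_ne_zero) h7
  have h8 : q = -(q * (A * B) * (A * B)) := by
    rw [mul_assoc, h.NN, mul_neg, mul_one, neg_neg]
  rw [h6, smul_mul_assoc, one_mul, neg_smul, neg_neg] at h8
  exact h8

end ON

theorem fd_re {g : E2 → ℍ[ℝ]} {p : E2} (hg : DifferentiableAt ℝ g p) (u : E2) :
    fderiv ℝ (fun p => (g p).re) p u = (fderiv ℝ g p u).re := by
  have h1 : HasFDerivAt (fun p => (g p).re) (Lre.comp (fderiv ℝ g p)) p :=
    Lre.hasFDerivAt.comp p hg.hasFDerivAt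
  rw [h1.fderiv]
  rfl

theorem sym2 {g : E2 → ℍ[ℝ]} (hg : ContDiff ℝ ∞ g) (p u v : E2) :
    fderiv ℝ (fun p => fderiv ℝ g p v) p u = fderiv ℝ (fun p => fderiv ℝ g p u) p v := by
  have h1 := (contDiff_infty_iff_fderiv.1 hg).2
  have h2 : HasFDerivAt (fderiv ℝ g) (fderiv ℝ (fderiv ℝ g) p) p := (sm_diff h1 p).hasFDerivAt
  have h3 : ∀ u v, fderiv ℝ (fun p => fderiv ℝ g p v) p u = fderiv ℝ (fderiv ℝ g) p u v := by
    intro u v
    have := (h2.clm_apply (hasFDerivAt_const v p)).fderiv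
    rw [this]
    simp
  rw [h3, h3]
  exact second_derivative_symmetric (fun q => (sm_diff hg q).hasFDerivAt) h2 u v

theorem re_star_mul (a b : ℍ[ℝ]) : (star a * b).re = ip a b := by
  simp [ip]

theorem star_of_im {a : ℍ[ℝ]} (h : a.re = 0) : star a = -a := by
  ext <;> simp [h]

noncomputable def e1 : E2 := EuclideanSpace.single 0 1
noncomputable def e2 : E2 := EuclideanSpace.single 1 1

theorem decomp (v : E2) : v = v 0 • e1 + v 1 • e2 := by
  ext i
  fin_cases i <;> simp [e1, e2]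

theorem e1_0 : e1 0 = 1 := by simp [e1]
theorem e1_1 : e1 1 = 0 := by simp [e1]
theorem e2_0 : e2 0 = 0 := by simp [e2]
theorem e2_1 : e2 1 = 1 := by simp [e2]

/-- an isometric immersion of a flat torus in the unit 3-sphere -/
structure Geo where
  f : E2 → ℍ[ℝ]
  sm : ContDiff ℝ ∞ f
  unit : ∀ p, ip (f p) (f p) = 1
  iso : ∀ p w, ip (fderiv ℝ f p w) (fderiv ℝ f p w) = ⟪w, w⟫
  u : E2
  v : E2
  ind : LinearIndependent ℝ ![u, v]
  hu : ∀ p, f (p + u) = f p
  hv : ∀ p, f (p + v) = f p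

namespace Geo

variable (g : Geo)

noncomputable def A (p : E2) : ℍ[ℝ] := star (g.f p) * fderiv ℝ g.f p e1
noncomputable def B (p : E2) : ℍ[ℝ] := star (g.f p) * fderiv ℝ g.f p e2
noncomputable def N (p : E2) : ℍ[ℝ] := g.A p * g.B p

theorem smA : ContDiff ℝ ∞ g.A := sm_mul (sm_star g.sm) (sm_fd g.sm _)
theorem smB : ContDiff ℝ ∞ g.B := sm_mul (sm_star g.sm) (sm_fd g.sm _)
theorem smN : ContDiff ℝ ∞ g.N := sm_mul g.smA g.smB

theorem f_orth (p u : E2) : ip (g.f p) (fderiv ℝ g.f p u) = 0 := by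
  have h := fd_ip (sm_diff g.sm p) (sm_diff g.sm p) u
  have h0 : (fun p => ip (g.f p) (g.f p)) = fun _ => 1 := funext g.unit
  rw [h0, ip_comm (fderiv ℝ g.f p u)] at h
  simp at h
  linarith

theorem iso' (p u v : E2) : ip (fderiv ℝ g.f p u) (fderiv ℝ g.f p v) = ⟪u, v⟫ := by
  have h1 := g.iso p (u + v)
  have h2 := g.iso p u
  have h3 := g.iso p v
  rw [map_add, ip_add_left, ip_add_right, ip_add_right, inner_add_left, inner_add_right,
    inner_add_right, h2, h3, ip_comm (fderiv ℝ g.f p v), real_inner_comm u v] at h1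
  linarith

theorem on (p : E2) : ON (g.A p) (g.B p) where
  a0 := by unfold A; rw [re_star_mul, g.f_orth]
  b0 := by unfold B; rw [re_star_mul, g.f_orth]
  aa := by unfold A; rw [ip_mul_left, ip_star, g.unit, g.iso', Planar.inner_E2]; simp [e1]
  bb := by unfold B; rw [ip_mul_left, ip_star, g.unit, g.iso', Planar.inner_E2]; simp [e2]
  ab := by unfold A B; rw [ip_mul_left, g.iso', Planar.inner_E2]; simp [e1, e2]

theorem fA (p : E2) : g.f p * g.A p = fderiv ℝ g.f p e1 := by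
  unfold A; rw [← mul_assoc, self_mul_star_of _ (g.unit p), one_mul]
theorem fB (p : E2) : g.f p * g.B p = fderiv ℝ g.f p e2 := by
  unfold B; rw [← mul_assoc, self_mul_star_of _ (g.unit p), one_mul]

/-- the frame as a linear map -/
noncomputable def Lam (p v : E2) : ℍ[ℝ] := v 0 • g.A p + v 1 • g.B p

theorem df (p v : E2) : fderiv ℝ g.f p v = g.f p * g.Lam p v := by
  conv_lhs => rw [decomp v]
  rw [map_add, map_smul, map_smul, ← g.fA, ← g.fB, Lam, mul_add, mul_smul_comm, mul_smul_comm]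

theorem DB1 (p : E2) : fderiv ℝ g.B p e1 - fderiv ℝ g.A p e2 = -((2:ℝ) • g.N p) := by
  have hB : fderiv ℝ g.B p e1 = star (fderiv ℝ g.f p e1) * fderiv ℝ g.f p e2
      + star (g.f p) * fderiv ℝ (fun p => fderiv ℝ g.f p e2) p e1 := by
    have := fd_mul (sm_diff (sm_star g.sm) p) (sm_diff (sm_fd g.sm e2) p) e1
    rw [fd_star (sm_diff g.sm p)] at this
    exact this
  have hA : fderiv ℝ g.A p e2 = star (fderiv ℝ g.f p e2) * fderiv ℝ g.f p e1
      + star (g.f p) * fderiv ℝ (fun p => fderiv ℝ g.f p e1) p e2 := by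
    have := fd_mul (sm_diff (sm_star g.sm) p) (sm_diff (sm_fd g.sm e1) p) e2
    rw [fd_star (sm_diff g.sm p)] at this
    exact this
  rw [hA, hB, sym2 g.sm p e1 e2, ← g.fA, ← g.fB, star_mul, star_mul]
  have h1 : star (g.A p) * star (g.f p) * (g.f p * g.B p) = -(g.N p) := by
    rw [mul_assoc, ← mul_assoc (star (g.f p)), star_mul_self_of _ (g.unit p), one_mul,
      star_of_im (g.on p).a0, neg_mul]
    rfl
  have h2 : star (g.B p) * star (g.f p) * (g.f p * g.A p) = g.N p := by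
    rw [mul_assoc, ← mul_assoc (star (g.f p)), star_mul_self_of _ (g.unit p), one_mul,
      star_of_im (g.on p).b0, neg_mul, (g.on p).BA, neg_neg]
    rfl
  rw [h1, h2, two_smul]
  abel

theorem DA_re (p u : E2) : (fderiv ℝ g.A p u).re = 0 := by
  rw [← fd_re (sm_diff g.smA p)]
  have : (fun p => (g.A p).re) = fun _ => 0 := funext fun p => (g.on p).a0
  rw [this]; simp
theorem DB_re (p u : E2) : (fderiv ℝ g.B p u).re = 0 := by
  rw [← fd_re (sm_diff g.smB p)]
  have : (fun p => (g.B p).re) = fun _ => 0 := funext fun p => (g.on p).b0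
  rw [this]; simp
theorem A_DA (p u : E2) : ip (g.A p) (fderiv ℝ g.A p u) = 0 := by
  have h := fd_ip (sm_diff g.smA p) (sm_diff g.smA p) u
  have h0 : (fun p => ip (g.A p) (g.A p)) = fun _ => 1 := funext fun p => (g.on p).aa
  rw [h0, ip_comm (fderiv ℝ g.A p u)] at h
  simp at h
  linarith
theorem B_DB (p u : E2) : ip (g.B p) (fderiv ℝ g.B p u) = 0 := by
  have h := fd_ip (sm_diff g.smB p) (sm_diff g.smB p) u
  have h0 : (fun p => ip (g.B p) (g.B p)) = fun _ => 1 := funext fun p => (g.on p).bb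
  rw [h0, ip_comm (fderiv ℝ g.B p u)] at h
  simp at h
  linarith
theorem DA_B (p u : E2) : ip (fderiv ℝ g.A p u) (g.B p) + ip (g.A p) (fderiv ℝ g.B p u) = 0 := by
  have h := fd_ip (sm_diff g.smA p) (sm_diff g.smB p) u
  have h0 : (fun p => ip (g.A p) (g.B p)) = fun _ => 0 := funext fun p => (g.on p).ab
  rw [h0] at h
  simp at h
  linarith

theorem DA_B0 (p u : E2) : ip (fderiv ℝ g.A p u) (g.B p) = 0 := by
  have h := g.DB1 p
  have hN1 : ip (g.A p) (g.N p) = 0 := (g.on p).an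
  have hN2 : ip (g.B p) (g.N p) = 0 := (g.on p).bn
  have k1 : ip (g.A p) (fderiv ℝ g.B p e1) = 0 := by
    have e : fderiv ℝ g.B p e1 = fderiv ℝ g.A p e2 - (2:ℝ) • g.N p := by
      rw [sub_eq_add_neg, ← h]; abel
    rw [e, ip_sub_right, ip_smul_right, hN1, g.A_DA]; ring
  have k2 : ip (fderiv ℝ g.A p e2) (g.B p) = 0 := by
    have e : fderiv ℝ g.A p e2 = fderiv ℝ g.B p e1 + (2:ℝ) • g.N p := by
      rw [← sub_eq_iff_eq_add', ← neg_inj, neg_sub, h]
    rw [e, ip_add_left, ip_smul_left, ip_comm (g.N p), hN2, ip_comm, g.B_DB]; ring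
  have k3 : ip (fderiv ℝ g.A p e1) (g.B p) = 0 := by
    have := g.DA_B p e1
    rw [k1] at this
    linarith
  rw [decomp u, map_add, map_smul, map_smul, ip_add_left, ip_smul_left, ip_smul_left, k2, k3]
  ring

theorem A_DB0 (p u : E2) : ip (g.A p) (fderiv ℝ g.B p u) = 0 := by
  have := g.DA_B p u
  rw [g.DA_B0] at this
  linarith

/-- the second fundamental data as one-forms -/
noncomputable def K1 (p : E2) : E2 →L[ℝ] ℝ := (ipL (g.N p)).comp (fderiv ℝ g.A p)
noncomputable def K2 (p : E2) : E2 →L[ℝ] ℝ := (ipL (g.N p)).comp (fderiv ℝ g.B p)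

theorem K1_apply (p u : E2) : g.K1 p u = ip (fderiv ℝ g.A p u) (g.N p) := by
  unfold K1; rw [ContinuousLinearMap.comp_apply, ipL_apply, ip_comm]
theorem K2_apply (p u : E2) : g.K2 p u = ip (fderiv ℝ g.B p u) (g.N p) := by
  unfold K2; rw [ContinuousLinearMap.comp_apply, ipL_apply, ip_comm]

theorem smL : ContDiff ℝ ∞ (fun p => (ipL (g.N p) : ℍ[ℝ] →L[ℝ] ℝ)) := by
  have h0 : ContDiff ℝ ∞ (fun q : ℍ[ℝ] => (ipL q : ℍ[ℝ] →L[ℝ] ℝ)) :=
    ContinuousLinearMap.contDiff (𝕜 := ℝ) (E := ℍ[ℝ]) (F := ℍ[ℝ] →L[ℝ] ℝ) ipL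
  have := h0.comp g.smN
  exact this
theorem smK1 : ContDiff ℝ ∞ g.K1 := by
  have := g.smL.clm_comp (contDiff_infty_iff_fderiv.1 g.smA).2
  exact this
theorem smK2 : ContDiff ℝ ∞ g.K2 := by
  have := g.smL.clm_comp (contDiff_infty_iff_fderiv.1 g.smB).2
  exact this

theorem DA (p u : E2) : fderiv ℝ g.A p u = g.K1 p u • g.N p := by
  rw [K1_apply]
  exact (g.on p).par _ (g.DA_re p u) (by rw [ip_comm]; exact g.A_DA p u) (g.DA_B0 p u)
theorem DB (p u : E2) : fderiv ℝ g.B p u = g.K2 p u • g.N p := by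
  rw [K2_apply]
  exact (g.on p).par _ (g.DB_re p u) (by rw [ip_comm]; exact g.A_DB0 p u)
    (by rw [ip_comm]; exact g.B_DB p u)
theorem DN (p u : E2) : fderiv ℝ g.N p u = -(g.K1 p u • g.A p) - g.K2 p u • g.B p := by
  have := fd_mul (sm_diff g.smA p) (sm_diff g.smB p) u
  rw [g.DA, g.DB] at this
  have h1 : g.N p * g.B p = - g.A p := (g.on p).NB
  have h2 : g.A p * g.N p = - g.B p := (g.on p).AN
  rw [smul_mul_assoc, mul_smul_comm, h1, h2] at this
  have h3 : fderiv ℝ g.N p u = fderiv ℝ (fun p => g.A p * g.B p) p u := rfl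
  rw [h3, this, smul_neg, smul_neg]
  abel

theorem K_trace (p : E2) : g.K2 p e1 - g.K1 p e2 = -2 := by
  have h := g.DB1 p
  rw [g.DA, g.DB, ← sub_smul] at h
  have h2 := congrArg (fun q => ip q (g.N p)) h
  simp only [ip_smul_left, ip_neg_left] at h2
  have hNN : ip (g.N p) (g.N p) = 1 := (g.on p).nn
  rw [hNN] at h2
  linarith

end Geo

end Pool.Agent.H81.Flat
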