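import Mathlib
import Pool.Agent.H81.Flat.Geo

/-!
Codazzi and Gauss equations, and the planar structure of a flat torus.
-/

namespace Pool.Agent.H81.Flat

open Quaternion Set
open scoped RealInnerProductSpace ContDiff

/-- differentiate `k p u • N p` -/
theorem fd_smul {k : E2 → E2 →L[ℝ] ℝ} {N : E2 → ℍ[ℝ]} {p : E2} (hk : DifferentiableAt ℝ k p)
    (hN : DifferentiableAt ℝ N p) (u w : E2) :
    fderiv ℝ (fun p => k p u • N p) p w = fderiv ℝ k p w u • N p + k p u • fderiv ℝ N p w := by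
  have h1 : HasFDerivAt (fun p => k p u) ((fderiv ℝ k p).flip u) p := by
    have := hk.hasFDerivAt.clm_apply (hasFDerivAt_const u p)
    simpa using this
  have h2 : fderiv ℝ (fun p => k p u • N p) p = _ := (h1.smul hN.hasFDerivAt).fderiv
  rw [h2]
  simp
  abel

namespace Geo

variable (g : Geo)

theorem codazzi_gauss_A (p u w : E2) :
    fderiv ℝ g.K1 p w u = fderiv ℝ g.K1 p u w ∧ g.K1 p u * g.K2 p w = g.K1 p w * g.K2 p u := by
  have h := sym2 g.smA p w u
  have e1 : (fun p => fderiv ℝ g.A p u) = fun p => g.K1 p u • g.N p := funext fun p => g.DA p u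
  have e2 : (fun p => fderiv ℝ g.A p w) = fun p => g.K1 p w • g.N p := funext fun p => g.DA p w
  rw [e1, e2, fd_smul (sm_diff g.smK1 p) (sm_diff g.smN p), fd_smul (sm_diff g.smK1 p) (sm_diff g.smN p),
    g.DN, g.DN] at h
  have o := g.on p
  have hNN : ip (g.N p) (g.N p) = 1 := o.nn
  have hAN : ip (g.A p) (g.N p) = 0 := o.an
  have hBN : ip (g.B p) (g.N p) = 0 := o.bn
  have h1 := congrArg (fun q => ip q (g.N p)) h
  have h2 := congrArg (fun q => ip q (g.B p)) h
  simp only [ip_add_left, ip_smul_left, ip_sub_left, ip_neg_left, hNN, hAN, hBN] at h1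
  simp only [ip_add_left, ip_smul_left, ip_sub_left, ip_neg_left, ip_comm (g.N p) (g.B p), hBN,
    o.ab, o.bb] at h2
  constructor <;> linarith

theorem codazzi_gauss_B (p u w : E2) :
    fderiv ℝ g.K2 p w u = fderiv ℝ g.K2 p u w := by
  have h := sym2 g.smB p w u
  have e1 : (fun p => fderiv ℝ g.B p u) = fun p => g.K2 p u • g.N p := funext fun p => g.DB p u
  have e2 : (fun p => fderiv ℝ g.B p w) = fun p => g.K2 p w • g.N p := funext fun p => g.DB p w
  rw [e1, e2, fd_smul (sm_diff g.smK2 p) (sm_diff g.smN p), fd_smul (sm_diff g.smK2 p) (sm_diff g.smN p),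
    g.DN, g.DN] at h
  have o := g.on p
  have hNN : ip (g.N p) (g.N p) = 1 := o.nn
  have hAN : ip (g.A p) (g.N p) = 0 := o.an
  have hBN : ip (g.B p) (g.N p) = 0 := o.bn
  have h1 := congrArg (fun q => ip q (g.N p)) h
  simp only [ip_add_left, ip_smul_left, ip_sub_left, ip_neg_left, hNN, hAN, hBN] at h1
  linarith

/-- `c ↦ (u ↦ c u • e)` -/
noncomputable def sr (e : E2) : (E2 →L[ℝ] ℝ) →L[ℝ] (E2 →L[ℝ] E2) :=
  (ContinuousLinearMap.smulRightL ℝ E2 E2).flip e

theorem sr_apply (e : E2) (c : E2 →L[ℝ] ℝ) (u : E2) : sr e c u = c u • e := by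
  simp [sr]

/-- the idempotent field -/
noncomputable def M (p : E2) : E2 →L[ℝ] E2 :=
  ContinuousLinearMap.id ℝ E2 + ((1/2:ℝ) • sr e1 (g.K2 p) - (1/2:ℝ) • sr e2 (g.K1 p))

theorem M_apply (p u : E2) : g.M p u = u + ((1/2:ℝ) • (g.K2 p u • e1) - (1/2:ℝ) • (g.K1 p u • e2)) := by
  simp [M, sr_apply]

theorem K1_M (p u : E2) : g.K1 p (g.M p u) = 0 := by
  rw [M_apply, map_add, map_sub, map_smul, map_smul, map_smul, map_smul]
  simp only [smul_eq_mul]
  have h1 := (g.codazzi_gauss_A p u e1).2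
  have h2 := g.K_trace p
  linear_combination (-(1/2:ℝ)) * h1 + (1/2 : ℝ) * g.K1 p u * h2

theorem K2_M (p u : E2) : g.K2 p (g.M p u) = 0 := by
  rw [M_apply, map_add, map_sub, map_smul, map_smul, map_smul, map_smul]
  simp only [smul_eq_mul]
  have h1 := (g.codazzi_gauss_A p u e2).2
  have h2 := g.K_trace p
  linear_combination (-(1/2:ℝ)) * h1 + (1/2 : ℝ) * g.K2 p u * h2

theorem idem (p u : E2) : g.M p (g.M p u) = g.M p u := by
  rw [g.M_apply p (g.M p u), K1_M, K2_M]
  simp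

theorem smM : ContDiff ℝ ∞ g.M := by
  have h1 : ContDiff ℝ ∞ (fun p => sr e1 (g.K2 p)) := by
    have h0 : ContDiff ℝ ∞ (fun c : E2 →L[ℝ] ℝ => sr e1 c) :=
      ContinuousLinearMap.contDiff (𝕜 := ℝ) (E := E2 →L[ℝ] ℝ) (F := E2 →L[ℝ] E2) (sr e1)
    exact h0.comp g.smK2
  have h2 : ContDiff ℝ ∞ (fun p => sr e2 (g.K1 p)) := by
    have h0 : ContDiff ℝ ∞ (fun c : E2 →L[ℝ] ℝ => sr e2 c) :=
      ContinuousLinearMap.contDiff (𝕜 := ℝ) (E := E2 →L[ℝ] ℝ) (F := E2 →L[ℝ] E2) (sr e2)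
    exact h0.comp g.smK1
  have h3 : ContDiff ℝ ∞ (fun p => (1/2:ℝ) • sr e1 (g.K2 p) - (1/2:ℝ) • sr e2 (g.K1 p)) :=
    (h1.const_smul (1/2:ℝ)).sub (h2.const_smul (1/2:ℝ))
  exact contDiff_const.add h3

theorem fd_M (p w u : E2) : fderiv ℝ g.M p w u =
    (1/2:ℝ) • (fderiv ℝ g.K2 p w u • e1) - (1/2:ℝ) • (fderiv ℝ g.K1 p w u • e2) := by
  have h1 : HasFDerivAt (fun p => sr e1 (g.K2 p)) ((sr e1).comp (fderiv ℝ g.K2 p)) p := by
    have h0 : HasFDerivAt (fun c : E2 →L[ℝ] ℝ => sr e1 c) (sr e1) (g.K2 p) :=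
      (sr e1).hasFDerivAt
    have := HasFDerivAt.comp (g := fun c : E2 →L[ℝ] ℝ => sr e1 c) (g' := sr e1) p h0
      (sm_diff g.smK2 p).hasFDerivAt
    exact this
  have h2 : HasFDerivAt (fun p => sr e2 (g.K1 p)) ((sr e2).comp (fderiv ℝ g.K1 p)) p := by
    have h0 : HasFDerivAt (fun c : E2 →L[ℝ] ℝ => sr e2 c) (sr e2) (g.K1 p) :=
      (sr e2).hasFDerivAt
    have := HasFDerivAt.comp (g := fun c : E2 →L[ℝ] ℝ => sr e2 c) (g' := sr e2) p h0
      (sm_diff g.smK1 p).hasFDerivAt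
    exact this
  have h3 : HasFDerivAt g.M ((1/2:ℝ) • ((sr e1).comp (fderiv ℝ g.K2 p)) - (1/2:ℝ) • ((sr e2).comp (fderiv ℝ g.K1 p))) p := by
    have := ((h1.const_smul (1/2:ℝ)).sub (h2.const_smul (1/2:ℝ))).const_add (ContinuousLinearMap.id ℝ E2)
    exact this
  rw [h3.fderiv]
  simp [sr_apply]

theorem f_per (l : E2) (hl : ∀ p, g.f (p + l) = g.f p) (p : E2) :
    fderiv ℝ g.f (p + l) = fderiv ℝ g.f p := by
  have h1 : HasFDerivAt (fun p => g.f (p + l)) ((fderiv ℝ g.f (p + l)).comp (ContinuousLinearMap.id ℝ E2)) p :=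
    ((sm_diff g.sm (p + l)).hasFDerivAt).comp p ((hasFDerivAt_id p).add_const l)
  rw [ContinuousLinearMap.comp_id] at h1
  have h2 : (fun p => g.f (p + l)) = g.f := funext hl
  rw [h2] at h1
  exact h1.fderiv.symm

theorem A_per (l : E2) (hl : ∀ p, g.f (p + l) = g.f p) (p : E2) : g.A (p + l) = g.A p := by
  unfold A; rw [hl, g.f_per l hl]
theorem B_per (l : E2) (hl : ∀ p, g.f (p + l) = g.f p) (p : E2) : g.B (p + l) = g.B p := by
  unfold B; rw [hl, g.f_per l hl]
theorem N_per (l : E2) (hl : ∀ p, g.f (p + l) = g.f p) (p : E2) : g.N (p + l) = g.N p := by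
  unfold N; rw [g.A_per l hl, g.B_per l hl]

theorem fd_per {h : E2 → ℍ[ℝ]} (hh : ContDiff ℝ ∞ h) (l : E2) (hl : ∀ p, h (p + l) = h p) (p : E2) :
    fderiv ℝ h (p + l) = fderiv ℝ h p := by
  have h1 : HasFDerivAt (fun p => h (p + l)) ((fderiv ℝ h (p + l)).comp (ContinuousLinearMap.id ℝ E2)) p :=
    ((sm_diff hh (p + l)).hasFDerivAt).comp p ((hasFDerivAt_id p).add_const l)
  rw [ContinuousLinearMap.comp_id] at h1
  have h2 : (fun p => h (p + l)) = h := funext hl
  rw [h2] at h1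
  exact h1.fderiv.symm

theorem M_per (l : E2) (hl : ∀ p, g.f (p + l) = g.f p) (p : E2) : g.M (p + l) = g.M p := by
  unfold M K1 K2
  rw [fd_per g.smA l (g.A_per l hl), fd_per g.smB l (g.B_per l hl), g.N_per l hl]

theorem e1_ne : e1 ≠ 0 := by
  intro h
  have := e1_0
  rw [h] at this
  simp at this

/-- the planar structure -/
noncomputable def planar : Planar where
  M := g.M
  M' := fderiv ℝ g.M
  hM := fun p => (sm_diff g.smM p).hasFDerivAt
  hM' := (contDiff_infty_iff_fderiv.1 g.smM).2.continuous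
  idem := g.idem
  symm := fun p u v => by rw [fd_M, fd_M, (g.codazzi_gauss_A p u v).1, g.codazzi_gauss_B p u v]
  u := g.u
  v := g.v
  ind := g.ind
  hu := g.M_per _ g.hu
  hv := g.M_per _ g.hv
  ker := by
    intro p
    by_contra hcon
    push Not at hcon
    -- M = id, contradiction with the trace
    have hid : ∀ u, g.M p u = u := by
      intro u
      by_contra hne
      apply hcon (u - g.M p u) (by rw [sub_ne_zero]; exact fun h => hne h.symm)
      rw [map_sub, g.idem, sub_self]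
    have h1 := hid e1
    have h2 := hid e2
    have t := g.K_trace p
    rw [M_apply, add_eq_left] at h1 h2
    have h1' := congrArg (fun z : E2 => z 0) h1
    have h2' := congrArg (fun z : E2 => z 1) h2
    simp [e1_0, e1_1, e2_0, e2_1] at h1' h2'
    rw [h1', h2'] at t
    norm_num at t
  im := by
    intro p
    by_contra hcon
    push Not at hcon
    have hid : ∀ u, g.M p u = 0 := by
      intro u
      by_contra hne
      exact hcon (g.M p u) hne (g.idem p u)
    have h1 := hid e1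
    have h2 := hid e2
    have t := g.K_trace p
    rw [M_apply] at h1 h2
    have h1' := congrArg (fun z : E2 => z 0) h1
    have h2' := congrArg (fun z : E2 => z 1) h2
    simp [e1_0, e1_1, e2_0, e2_1] at h1' h2'
    linarith

end Geo

end Pool.Agent.H81.Flat
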