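import Mathlib
import Pool.Agent.H81.Flat.Geo2

/-!
The product decomposition `f (S p + T q) = f (S p) * star (f 0) * f (T q)`.
-/

namespace Pool.Agent.H81.Flat

open Quaternion Set
open scoped RealInnerProductSpace ContDiff

theorem re_comm (a b : ℍ[ℝ]) : (a * b).re = (b * a).re := by
  simp only [Quaternion.re_mul]; ring

namespace Geo

variable (g : Geo)

/-- first projection -/
noncomputable def S : E2 → E2 := g.planar.S
/-- second projection -/
noncomputable def T : E2 → E2 := g.planar.T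

theorem S_zero : g.S 0 = 0 := g.planar.S_zero
theorem T_zero : g.T 0 = 0 := g.planar.T_zero
theorem S_add_T (p : E2) : g.S p + g.T p = p := g.planar.S_add_T p
theorem hS (p : E2) : HasFDerivAt g.S (g.M p) p := g.planar.hS p
theorem hT (p : E2) : HasFDerivAt g.T (ContinuousLinearMap.id ℝ E2 - g.M p) p := g.planar.hT p
theorem S_key (p q : E2) : g.S (g.S p + g.T q) = g.S p := g.planar.S_key p q
theorem T_key (p q : E2) : g.T (g.S p + g.T q) = g.T q := g.planar.T_key p q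
theorem M_key1 (p q z : E2) : g.M (g.S p + g.T q) (g.M p z) = g.M p z := g.planar.M_key1 p q z

theorem const_of (h : E2 → ℍ[ℝ]) (h' : E2 → E2 →L[ℝ] ℍ[ℝ]) (hh : ∀ p, HasFDerivAt h (h' p) p)
    (h0 : ∀ p v, h' p v = 0) (p q : E2) : h p = h q := by
  apply is_const_of_fderiv_eq_zero (𝕜 := ℝ) (fun p => (hh p).differentiableAt)
  intro p
  rw [(hh p).fderiv]
  ext1 v
  rw [h0]; rfl

theorem A_key (p q : E2) : g.A (g.S p + g.T q) = g.A q := by
  have h1 : ∀ p, HasFDerivAt (fun p => g.A (g.S p + g.T q))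
      ((fderiv ℝ g.A (g.S p + g.T q)).comp (g.M p)) p := fun p =>
    ((sm_diff g.smA _).hasFDerivAt).comp p ((g.hS p).add_const _)
  have h2 := const_of _ _ h1 (fun p v => by
    rw [ContinuousLinearMap.comp_apply, g.DA, ← g.M_key1 p q v, g.K1_M, zero_smul]) p q
  simp only [S_add_T] at h2
  exact h2

theorem B_key (p q : E2) : g.B (g.S p + g.T q) = g.B q := by
  have h1 : ∀ p, HasFDerivAt (fun p => g.B (g.S p + g.T q))
      ((fderiv ℝ g.B (g.S p + g.T q)).comp (g.M p)) p := fun p =>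
    ((sm_diff g.smB _).hasFDerivAt).comp p ((g.hS p).add_const _)
  have h2 := const_of _ _ h1 (fun p v => by
    rw [ContinuousLinearMap.comp_apply, g.DB, ← g.M_key1 p q v, g.K2_M, zero_smul]) p q
  simp only [S_add_T] at h2
  exact h2

theorem Lam_T (q v : E2) : g.Lam (g.T q) v = g.Lam q v := by
  have h1 := g.A_key 0 q
  have h2 := g.B_key 0 q
  rw [S_zero, zero_add] at h1 h2
  unfold Lam; rw [h1, h2]

theorem Lam_S (p v : E2) : g.Lam (g.S p) v = g.Lam 0 v := by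
  have h1 := g.A_key p 0
  have h2 := g.B_key p 0
  rw [T_zero, add_zero] at h1 h2
  unfold Lam; rw [h1, h2]

theorem Lam_re (p v : E2) : (g.Lam p v).re = 0 := by
  unfold Lam
  rw [Quaternion.re_add, Quaternion.re_smul, Quaternion.re_smul, (g.on p).a0, (g.on p).b0]
  simp

theorem Lam_sub (p v w : E2) : g.Lam p (v - w) = g.Lam p v - g.Lam p w := by
  unfold Lam
  simp only [PiLp.sub_apply, sub_smul]
  abel

/-- the two factors -/
noncomputable def Pf (p : E2) : ℍ[ℝ] := g.f (g.S p)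
noncomputable def Qf (q : E2) : ℍ[ℝ] := star (g.f 0) * g.f (g.T q)

theorem hPf (p : E2) : ∃ L : E2 →L[ℝ] ℍ[ℝ], HasFDerivAt g.Pf L p ∧
    ∀ v, L v = g.Pf p * g.Lam 0 (g.M p v) := by
  refine ⟨(fderiv ℝ g.f (g.S p)).comp (g.M p), ((sm_diff g.sm _).hasFDerivAt).comp p (g.hS p), ?_⟩
  intro v
  rw [ContinuousLinearMap.comp_apply, g.df, g.Lam_S]
  rfl

theorem hQf (q : E2) : ∃ L : E2 →L[ℝ] ℍ[ℝ], HasFDerivAt g.Qf L q ∧
    ∀ v, L v = g.Qf q * g.Lam q (v - g.M q v) := by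
  have h1 : HasFDerivAt (fun q => g.f (g.T q)) ((fderiv ℝ g.f (g.T q)).comp (ContinuousLinearMap.id ℝ E2 - g.M q)) q :=
    ((sm_diff g.sm _).hasFDerivAt).comp q (g.hT q)
  have h2 : HasFDerivAt g.Qf (star (g.f 0) • ((fderiv ℝ g.f (g.T q)).comp (ContinuousLinearMap.id ℝ E2 - g.M q))) q :=
    h1.const_mul (star (g.f 0))
  refine ⟨_, h2, ?_⟩
  intro v
  have e : (star (g.f 0) • ((fderiv ℝ g.f (g.T q)).comp (ContinuousLinearMap.id ℝ E2 - g.M q))) v
    = star (g.f 0) * (fderiv ℝ g.f (g.T q) (v - g.M q v)) := by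
    simp
  rw [e, g.df, g.Lam_T, ← mul_assoc]
  rfl

theorem Pf_unit (p : E2) : ip (g.Pf p) (g.Pf p) = 1 := g.unit _
theorem Qf_unit (p : E2) : ip (g.Qf p) (g.Qf p) = 1 := by
  unfold Qf; rw [ip_mul_left, ip_star, g.unit, g.unit]; norm_num
theorem Qf_zero : g.Qf 0 = 1 := by
  unfold Qf; rw [T_zero]; exact star_mul_self_of _ (g.unit 0)

/-- product rule with explicit values -/
theorem hmul {a b : E2 → ℍ[ℝ]} {p : E2} {La Lb : E2 →L[ℝ] ℍ[ℝ]} (ha : HasFDerivAt a La p)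
    (hb : HasFDerivAt b Lb p) : ∃ L : E2 →L[ℝ] ℍ[ℝ], HasFDerivAt (fun p => a p * b p) L p ∧
      ∀ v, L v = La v * b p + a p * Lb v := by
  refine ⟨_, ha.mul' hb, fun v => ?_⟩
  simp
  abel

theorem hstar {a : E2 → ℍ[ℝ]} {p : E2} {La : E2 →L[ℝ] ℍ[ℝ]} (ha : HasFDerivAt a La p) :
    ∃ L : E2 →L[ℝ] ℍ[ℝ], HasFDerivAt (fun p => star (a p)) L p ∧ ∀ v, L v = star (La v) :=
  ⟨Lstar.comp La, Lstar.hasFDerivAt.comp p ha, fun _ => rfl⟩

/-- the component of `v - M v` -/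
theorem Lam_compl (q v : E2) : g.Lam q (v - g.M q v) =
    (-(1/2:ℝ) * g.K2 q v) • g.A q + ((1/2:ℝ) * g.K1 q v) • g.B q := by
  have : v - g.M q v = (-(1/2:ℝ) * g.K2 q v) • e1 + ((1/2:ℝ) * g.K1 q v) • e2 := by
    rw [g.M_apply]; module
  rw [this]
  unfold Lam
  simp [e1_0, e1_1, e2_0, e2_1]

theorem QAQ (q : E2) : g.Qf q * g.A q * star (g.Qf q) = g.A 0 := by
  have h : ∀ q, ∃ L : E2 →L[ℝ] ℍ[ℝ], HasFDerivAt (fun q => g.Qf q * g.A q * star (g.Qf q)) L q ∧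
      ∀ v, L v = 0 := by
    intro q
    obtain ⟨L1, h1, e1⟩ := g.hQf q
    obtain ⟨L2, h2, e2⟩ := hmul h1 (sm_diff g.smA q).hasFDerivAt
    obtain ⟨L3, h3, e3⟩ := hstar h1
    obtain ⟨L4, h4, e4⟩ := hmul h2 h3
    refine ⟨L4, h4, fun v => ?_⟩
    rw [e4, e2, e3, e1, star_mul, star_of_im (g.Lam_re _ _), g.DA, g.Lam_compl]
    have o := g.on q
    have hN : g.N q = g.A q * g.B q := rfl
    have key : ((-(1/2:ℝ) * g.K2 q v) • g.A q + ((1/2:ℝ) * g.K1 q v) • g.B q) * g.A q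
        + g.K1 q v • g.N q
        - g.A q * ((-(1/2:ℝ) * g.K2 q v) • g.A q + ((1/2:ℝ) * g.K1 q v) • g.B q) = 0 := by
      rw [add_mul, mul_add, smul_mul_assoc, smul_mul_assoc, mul_smul_comm, mul_smul_comm, o.BA, hN]
      module
    have : g.Qf q * ((-(1/2:ℝ) * g.K2 q v) • g.A q + ((1/2:ℝ) * g.K1 q v) • g.B q) * g.A q * star (g.Qf q)
        + g.Qf q * (g.K1 q v • g.N q) * star (g.Qf q)
        + g.Qf q * g.A q * (-((-(1/2:ℝ) * g.K2 q v) • g.A q + ((1/2:ℝ) * g.K1 q v) • g.B q) * star (g.Qf q))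
        = g.Qf q * (((-(1/2:ℝ) * g.K2 q v) • g.A q + ((1/2:ℝ) * g.K1 q v) • g.B q) * g.A q
        + g.K1 q v • g.N q
        - g.A q * ((-(1/2:ℝ) * g.K2 q v) • g.A q + ((1/2:ℝ) * g.K1 q v) • g.B q)) * star (g.Qf q) := by
      generalize ((-(1/2:ℝ) * g.K2 q v) • g.A q + ((1/2:ℝ) * g.K1 q v) • g.B q) = L
      generalize g.K1 q v • g.N q = X
      noncomm_ring
    rw [add_mul, this, key, mul_zero, zero_mul]
  choose L hL hL0 using h
  have := const_of _ L hL hL0 q 0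
  rw [this, Qf_zero, star_one, one_mul, mul_one]

theorem QBQ (q : E2) : g.Qf q * g.B q * star (g.Qf q) = g.B 0 := by
  have h : ∀ q, ∃ L : E2 →L[ℝ] ℍ[ℝ], HasFDerivAt (fun q => g.Qf q * g.B q * star (g.Qf q)) L q ∧
      ∀ v, L v = 0 := by
    intro q
    obtain ⟨L1, h1, e1⟩ := g.hQf q
    obtain ⟨L2, h2, e2⟩ := hmul h1 (sm_diff g.smB q).hasFDerivAt
    obtain ⟨L3, h3, e3⟩ := hstar h1
    obtain ⟨L4, h4, e4⟩ := hmul h2 h3
    refine ⟨L4, h4, fun v => ?_⟩
    rw [e4, e2, e3, e1, star_mul, star_of_im (g.Lam_re _ _), g.DB, g.Lam_compl]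
    have o := g.on q
    have hN : g.N q = g.A q * g.B q := rfl
    have key : ((-(1/2:ℝ) * g.K2 q v) • g.A q + ((1/2:ℝ) * g.K1 q v) • g.B q) * g.B q
        + g.K2 q v • g.N q
        - g.B q * ((-(1/2:ℝ) * g.K2 q v) • g.A q + ((1/2:ℝ) * g.K1 q v) • g.B q) = 0 := by
      rw [add_mul, mul_add, smul_mul_assoc, smul_mul_assoc, mul_smul_comm, mul_smul_comm, o.BA, hN]
      module
    have : g.Qf q * ((-(1/2:ℝ) * g.K2 q v) • g.A q + ((1/2:ℝ) * g.K1 q v) • g.B q) * g.B q * star (g.Qf q)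
        + g.Qf q * (g.K2 q v • g.N q) * star (g.Qf q)
        + g.Qf q * g.B q * (-((-(1/2:ℝ) * g.K2 q v) • g.A q + ((1/2:ℝ) * g.K1 q v) • g.B q) * star (g.Qf q))
        = g.Qf q * (((-(1/2:ℝ) * g.K2 q v) • g.A q + ((1/2:ℝ) * g.K1 q v) • g.B q) * g.B q
        + g.K2 q v • g.N q
        - g.B q * ((-(1/2:ℝ) * g.K2 q v) • g.A q + ((1/2:ℝ) * g.K1 q v) • g.B q)) * star (g.Qf q) := by
      generalize ((-(1/2:ℝ) * g.K2 q v) • g.A q + ((1/2:ℝ) * g.K1 q v) • g.B q) = L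
      generalize g.K2 q v • g.N q = X
      noncomm_ring
    rw [add_mul, this, key, mul_zero, zero_mul]
  choose L hL hL0 using h
  have := const_of _ L hL hL0 q 0
  rw [this, Qf_zero, star_one, one_mul, mul_one]

theorem QLam (q v : E2) : g.Qf q * g.Lam q v = g.Lam 0 v * g.Qf q := by
  have h : g.Qf q * g.Lam q v * star (g.Qf q) = g.Lam 0 v := by
    unfold Lam
    rw [mul_add, mul_smul_comm, mul_smul_comm, add_mul, smul_mul_assoc, smul_mul_assoc, g.QAQ,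
      g.QBQ]
  rw [← h, mul_assoc, mul_assoc, star_mul_self_of _ (g.Qf_unit q), mul_one]

theorem LamQ (q v : E2) : g.Lam q v * star (g.Qf q) = star (g.Qf q) * g.Lam 0 v := by
  have h := g.QLam q v
  have h2 : star (g.Qf q) * (g.Qf q * g.Lam q v) * star (g.Qf q)
      = star (g.Qf q) * (g.Lam 0 v * g.Qf q) * star (g.Qf q) := by rw [h]
  rw [← mul_assoc (star (g.Qf q)), star_mul_self_of _ (g.Qf_unit q), one_mul, mul_assoc (star (g.Qf q)),
    mul_assoc (g.Lam 0 v), self_mul_star_of _ (g.Qf_unit q), mul_one] at h2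
  exact h2

/-- the decomposition -/
theorem f_eq (p : E2) : g.f p = g.Pf p * g.Qf p := by
  set Y : E2 → ℍ[ℝ] := fun p => star (g.Pf p) * g.f p * star (g.Qf p) with hY
  have hYu : ∀ p, ip (Y p) (Y p) = 1 := by
    intro p
    simp only [hY]
    rw [ip_mul_left, ip_mul_left, ip_star, ip_star, g.Pf_unit, g.Qf_unit, g.unit]; norm_num
  have h : ∀ p, ∃ L : E2 →L[ℝ] ℍ[ℝ], HasFDerivAt Y L p ∧ ∀ v, (L v).re = 0 := by
    intro p
    obtain ⟨L1, h1, e1⟩ := g.hPf p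
    obtain ⟨L2, h2, e2⟩ := hstar h1
    obtain ⟨L3, h3, e3⟩ := g.hQf p
    obtain ⟨L4, h4, e4⟩ := hstar h3
    obtain ⟨L5, h5, e5⟩ := hmul h2 (sm_diff g.sm p).hasFDerivAt
    obtain ⟨L6, h6, e6⟩ := hmul h5 h4
    refine ⟨L6, h6, fun v => ?_⟩
    have hval : L6 v = Y p * g.Lam 0 (g.M p v) - g.Lam 0 (g.M p v) * Y p := by
      rw [e6, e5, e4, e3, e2, e1, star_mul, star_mul, star_of_im (g.Lam_re _ _),
        star_of_im (g.Lam_re _ _), g.df, g.Lam_sub]
      have hq := g.LamQ p (g.M p v)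
      simp only [hY]
      have e : (-g.Lam 0 (g.M p v) * star (g.Pf p) * g.f p + star (g.Pf p) * (g.f p * g.Lam p v)) * star (g.Qf p)
          + star (g.Pf p) * g.f p * (-(g.Lam p v - g.Lam p (g.M p v)) * star (g.Qf p))
          = star (g.Pf p) * g.f p * (g.Lam p (g.M p v) * star (g.Qf p))
            - g.Lam 0 (g.M p v) * (star (g.Pf p) * g.f p * star (g.Qf p)) := by
        noncomm_ring
      rw [e, hq]
      noncomm_ring
    rw [hval, Quaternion.re_sub, re_comm, sub_self]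
  choose L hL hL0 using h
  have hre : ∀ p, (Y p).re = 1 := by
    intro p
    have h1 : ∀ p, HasFDerivAt (fun p => (Y p).re) (Lre.comp (L p)) p := fun p =>
      Lre.hasFDerivAt.comp p (hL p)
    have h2 : (fun p => (Y p).re) p = (fun p => (Y p).re) 0 := by
      apply is_const_of_fderiv_eq_zero (𝕜 := ℝ) (fun p => (h1 p).differentiableAt)
      intro p
      rw [(h1 p).fderiv]
      ext1 v
      exact hL0 p v
    have h3 : Y 0 = 1 := by
      simp only [hY, Qf_zero, star_one, mul_one]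
      unfold Pf
      rw [S_zero]
      exact star_mul_self_of _ (g.unit 0)
    have h4 : (Y p).re = (Y 0).re := h2
    rw [h4, h3, Quaternion.re_one]
  have h1 := eq_one_of_re (hYu p) (hre p)
  simp only [hY] at h1
  have h2 : g.Pf p * (star (g.Pf p) * g.f p * star (g.Qf p)) * g.Qf p = g.Pf p * 1 * g.Qf p := by
    rw [h1]
  rw [mul_one, ← mul_assoc, ← mul_assoc, self_mul_star_of _ (g.Pf_unit p), one_mul, mul_assoc,
    star_mul_self_of _ (g.Qf_unit p), mul_one] at h2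
  exact h2

theorem f_mix (p q : E2) : g.f (g.S p + g.T q) = g.Pf p * g.Qf q := by
  rw [g.f_eq]
  unfold Pf Qf
  rw [g.S_key, g.T_key]

end Geo

end Pool.Agent.H81.Flat
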