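import Mathlib
import Pool.Agent.H81.Flat.Geo3

/-!
Periods, the two closed curves and the final argument.
-/

namespace Pool.Agent.H81.Flat

open Quaternion Set
open scoped RealInnerProductSpace ContDiff

theorem ON.real_of_comm {A B : ℍ[ℝ]} (h : ON A B) (R : ℍ[ℝ]) (hA : R * A = A * R)
    (hB : R * B = B * R) : R = R.re • (1 : ℍ[ℝ]) := by
  set q : ℍ[ℝ] := R - R.re • (1 : ℍ[ℝ]) with hq
  have q0 : q.re = 0 := by simp [hq]
  have hqA : q * A = A * q := by
    rw [hq, sub_mul, mul_sub, hA, smul_mul_assoc, mul_smul_comm, one_mul, mul_one]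
  have hqB : q * B = B * q := by
    rw [hq, sub_mul, mul_sub, hB, smul_mul_assoc, mul_smul_comm, one_mul, mul_one]
  have key : ∀ C : ℍ[ℝ], C.re = 0 → C * C = -1 → q * C = C * q → q = ip q C • C := by
    intro C hC hCC hc
    have h5 : q * C + C * q = (-2 * ip q C) • (1 : ℍ[ℝ]) := by
      ext <;> simp [q0, hC, ip] <;> ring
    have h6 : q * C = (- ip q C) • (1 : ℍ[ℝ]) := by
      rw [← hc] at h5
      have h7 : (2:ℝ) • (q * C) = (2:ℝ) • ((- ip q C) • (1 : ℍ[ℝ])) := by
        rw [two_smul, h5, smul_smul]; congr 1; ring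
      exact smul_right_injective _ (two_ne_zero) h7
    have h8 : q = -(q * C * C) := by
      rw [mul_assoc, hCC, mul_neg, mul_one, neg_neg]
    rw [h6, smul_mul_assoc, one_mul, neg_smul, neg_neg] at h8
    exact h8
  have k1 := key A h.a0 h.AA hqA
  have k2 := key B h.b0 h.BB hqB
  have h0 : ip q q = 0 := by
    calc ip q q = ip (ip q A • A) (ip q B • B) := by rw [← k1, ← k2]
      _ = 0 := by rw [ip_smul_left, ip_smul_right, h.ab]; ring
  rw [ip_self] at h0
  have h1 : ‖q‖ = 0 := by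
    exact pow_eq_zero_iff (two_ne_zero) |>.1 h0
  rw [norm_eq_zero] at h1
  rw [hq, sub_eq_zero] at h1
  exact h1

theorem hshift {h : E2 → ℍ[ℝ]} {L : E2 →L[ℝ] ℍ[ℝ]} {p l : E2} (hh : HasFDerivAt h L (p + l)) :
    HasFDerivAt (fun p => h (p + l)) L p := by
  have h1 : HasFDerivAt (fun p : E2 => p + l) (ContinuousLinearMap.id ℝ E2) p :=
    (hasFDerivAt_id p).add_const l
  have h2 : HasFDerivAt (fun p => h (p + l)) (L.comp (ContinuousLinearMap.id ℝ E2)) p :=
    HasFDerivAt.comp (g := h) p hh h1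
  rwa [ContinuousLinearMap.comp_id] at h2

namespace Geo

variable (g : Geo)

/-- behaviour of the factors under a period -/
theorem period_sign (l : E2) (hl : ∀ p, g.f (p + l) = g.f p) :
    (∀ p, g.Pf (p + l) = g.Pf p ∧ g.Qf (p + l) = g.Qf p) ∨ g.Pf l = - g.Pf 0 := by
  set R : E2 → ℍ[ℝ] := fun p => star (g.Pf p) * g.Pf (p + l) with hR
  have hR2 : ∀ p, R p = g.Qf p * star (g.Qf (p + l)) := by
    intro p
    have h := hl p
    rw [g.f_eq, g.f_eq p] at h
    have h2 : star (g.Pf p) * (g.Pf (p + l) * g.Qf (p + l)) * star (g.Qf (p + l))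
      = star (g.Pf p) * (g.Pf p * g.Qf p) * star (g.Qf (p + l)) := by rw [h]
    rw [← mul_assoc (star (g.Pf p)) (g.Pf p), star_mul_self_of _ (g.Pf_unit p), one_mul,
      mul_assoc, mul_assoc (g.Pf (p + l)), self_mul_star_of _ (g.Qf_unit _), mul_one] at h2
    exact h2
  have hMl := g.M_per l hl
  have hd1 : ∀ p, ∃ L : E2 →L[ℝ] ℍ[ℝ], HasFDerivAt R L p ∧
      ∀ v, L v = R p * g.Lam 0 (g.M p v) - g.Lam 0 (g.M p v) * R p := by
    intro p
    obtain ⟨L1, h1, e1⟩ := g.hPf p
    obtain ⟨L2, h2, e2⟩ := hstar h1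
    obtain ⟨L3, h3, e3⟩ := g.hPf (p + l)
    have h3' := hshift h3
    obtain ⟨L4, h4, e4⟩ := hmul h2 h3'
    refine ⟨L4, h4, fun v => ?_⟩
    rw [e4, e2, e1, e3, star_mul, star_of_im (g.Lam_re _ _), hMl]
    simp only [hR]
    noncomm_ring
  have hd2 : ∀ p, ∃ L : E2 →L[ℝ] ℍ[ℝ], HasFDerivAt R L p ∧
      ∀ v, L v = g.Lam 0 (v - g.M p v) * R p - R p * g.Lam 0 (v - g.M p v) := by
    intro p
    obtain ⟨L1, h1, e1⟩ := g.hQf p
    obtain ⟨L3, h3, e3⟩ := g.hQf (p + l)
    have h3' := hshift h3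
    obtain ⟨L2, h2, e2⟩ := hstar h3'
    obtain ⟨L4, h4, e4⟩ := hmul h1 h2
    have hfun : R = fun p => g.Qf p * star (g.Qf (p + l)) := funext hR2
    rw [hfun]
    refine ⟨L4, h4, fun v => ?_⟩
    rw [e4, e2, e1, e3, g.QLam, g.QLam, star_mul, star_of_im (g.Lam_re _ _), hMl]
    noncomm_ring
  have hcomm : ∀ p v, R p * g.Lam 0 v = g.Lam 0 v * R p := by
    intro p v
    obtain ⟨L1, h1, e1⟩ := hd1 p
    obtain ⟨L2, h2, e2⟩ := hd2 p
    have h3 := h1.unique h2
    have h4 : L1 v = L2 v := by rw [h3]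
    rw [e1, e2, g.Lam_sub] at h4
    have h5 : R p * g.Lam 0 v - g.Lam 0 v * R p
      = (R p * g.Lam 0 (g.M p v) - g.Lam 0 (g.M p v) * R p)
        - ((g.Lam 0 v - g.Lam 0 (g.M p v)) * R p - R p * (g.Lam 0 v - g.Lam 0 (g.M p v))) := by
      noncomm_ring
    rw [h4, sub_self, sub_eq_zero] at h5
    exact h5
  have hreal : ∀ p, R p = (R p).re • (1 : ℍ[ℝ]) := by
    intro p
    apply (g.on 0).real_of_comm
    · have := hcomm p e1
      simpa [Lam, e1_0, e1_1] using this
    · have := hcomm p e2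
      simpa [Lam, e2_0, e2_1] using this
  have hconst : ∀ p, R p = R 0 := by
    intro p
    choose L hL hL0 using hd1
    exact const_of R L hL (fun p v => by rw [hL0, hcomm, sub_self]) p 0
  have hunit : ip (R 0) (R 0) = 1 := by
    simp only [hR]
    rw [ip_mul_left, ip_star, g.Pf_unit, g.Pf_unit]; norm_num
  have hsq : (R 0).re = 1 ∨ (R 0).re = -1 := by
    have h1 := hreal 0
    rw [h1, ip_smul_left, ip_smul_right] at hunit
    have h2 : ip (1:ℍ[ℝ]) 1 = 1 := by simp [ip]
    rw [h2] at hunit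
    have : ((R 0).re - 1) * ((R 0).re + 1) = 0 := by linarith
    rcases mul_eq_zero.1 this with h | h
    · left; linarith
    · right; linarith
  have hP : ∀ p, g.Pf (p + l) = g.Pf p * R p := by
    intro p
    simp only [hR]
    rw [← mul_assoc, self_mul_star_of _ (g.Pf_unit p), one_mul]
  rcases hsq with h | h
  · left
    intro p
    have hR1 : R p = 1 := by rw [hconst, hreal 0, h, one_smul]
    constructor
    · rw [hP, hR1, mul_one]
    · have h2 := hR2 p
      rw [hR1] at h2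
      have h3 : (1 : ℍ[ℝ]) * g.Qf (p + l) = g.Qf p * star (g.Qf (p + l)) * g.Qf (p + l) := by rw [← h2]
      rw [one_mul, mul_assoc, star_mul_self_of _ (g.Qf_unit _), mul_one] at h3
      exact h3
  · right
    have hR1 : R 0 = -1 := by rw [hreal 0, h, neg_smul, one_smul]
    have := hP 0
    rw [hR1, mul_neg, mul_one, zero_add] at this
    exact this

end Geo

/-! ### transport of structure -/

/-- the algebra automorphism taking `A, B` to `i, j`. -/
noncomputable def psi (A B q : ℍ[ℝ]) : ℍ[ℝ] := mk4 q.re (ip A q) (ip B q) (ip (A * B) q)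

/-- its inverse -/
noncomputable def phi (A B x : ℍ[ℝ]) : ℍ[ℝ] := x.re • (1:ℍ[ℝ]) + x.imI • A + x.imJ • B + x.imK • (A * B)

namespace ON

variable {A B : ℍ[ℝ]} (h : ON A B)
include h

theorem phi_psi (q : ℍ[ℝ]) : phi A B (psi A B q) = q := by
  set q' : ℍ[ℝ] := q - q.re • (1:ℍ[ℝ]) - ip A q • A - ip B q • B with hq'
  have hone : ∀ C : ℍ[ℝ], ip 1 C = C.re := by intro C; simp [ip]
  have e0 : q'.re = 0 := by simp [hq', h.a0, h.b0]
  have eA : ip q' A = 0 := by
    rw [hq', ip_sub_left, ip_sub_left, ip_sub_left, ip_smul_left, ip_smul_left, ip_smul_left, hone,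
      h.a0, h.aa, ip_comm B A, h.ab, ip_comm q A]; ring
  have eB : ip q' B = 0 := by
    rw [hq', ip_sub_left, ip_sub_left, ip_sub_left, ip_smul_left, ip_smul_left, ip_smul_left, hone,
      h.b0, h.bb, h.ab, ip_comm q B]; ring
  have eN : ip q' (A * B) = ip (A * B) q := by
    rw [hq', ip_sub_left, ip_sub_left, ip_sub_left, ip_smul_left, ip_smul_left, ip_smul_left, hone,
      h.n0, h.an, h.bn, ip_comm q]; ring
  have hp := h.par q' e0 eA eB
  rw [eN] at hp
  unfold phi psi
  simp only [mk4_re, mk4_imI, mk4_imJ, mk4_imK]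
  rw [← hp, hq']
  abel

theorem psi_phi (x : ℍ[ℝ]) : psi A B (phi A B x) = x := by
  have hone : ∀ C : ℍ[ℝ], ip C 1 = C.re := by intro C; simp [ip]
  unfold phi psi
  ext
  · simp only [mk4_re, Quaternion.re_add, Quaternion.re_smul, h.a0, h.b0, h.n0, Quaternion.re_one,
      smul_eq_mul]
    ring
  · simp only [mk4_imI, ip_add_right, ip_smul_right, hone, h.a0, h.aa, h.ab, h.an]
    ring
  · simp only [mk4_imJ, ip_add_right, ip_smul_right, hone, h.b0, ip_comm B A, h.bb, h.ab, h.bn]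
    ring
  · simp only [mk4_imK, ip_add_right, ip_smul_right, hone, ip_comm (A * B) A, ip_comm (A * B) B,
      h.n0, h.an, h.bn, h.nn]
    ring

theorem NA : (A * B) * A = B := by
  rw [mul_assoc, h.BA, mul_neg, h.AN, neg_neg]
theorem BN : B * (A * B) = A := by
  rw [← mul_assoc, h.BA, neg_mul, h.NB, neg_neg]

theorem phi_mul (x y : ℍ[ℝ]) : phi A B (x * y) = phi A B x * phi A B y := by
  unfold phi
  simp only [mul_add, add_mul, smul_mul_assoc, mul_smul_comm, one_mul, mul_one, h.AA, h.BB, h.BA,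
    h.NN, h.AN, h.NB, h.NA, h.BN, Quaternion.re_mul, Quaternion.imI_mul, Quaternion.imJ_mul,
    Quaternion.imK_mul]
  module

theorem psi_mul (x y : ℍ[ℝ]) : psi A B (x * y) = psi A B x * psi A B y := by
  conv_lhs => rw [← h.phi_psi x, ← h.phi_psi y, ← h.phi_mul]
  rw [h.psi_phi]

theorem psi_star (x : ℍ[ℝ]) : psi A B (star x) = star (psi A B x) := by
  have key : ∀ C : ℍ[ℝ], C.re = 0 → ip C (star x) = - ip C x := by
    intro C hC; simp [ip, hC]; ring
  unfold psi
  rw [key A h.a0, key B h.b0, key _ h.n0]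
  ext <;> simp

theorem psi_A : psi A B A = mk4 0 1 0 0 := by
  unfold psi
  rw [h.a0, h.aa, ip_comm B A, h.ab, ip_comm (A * B) A, h.an]

theorem psi_B : psi A B B = mk4 0 0 1 0 := by
  unfold psi
  rw [h.b0, h.bb, h.ab, ip_comm (A * B) B, h.bn]

theorem ip_psi (x y : ℍ[ℝ]) : ip (psi A B x) (psi A B y) = ip x y := by
  rw [← re_star_mul, ← re_star_mul, ← h.psi_star, ← h.psi_mul]
  rfl

end ON

theorem psi_add (A B x y : ℍ[ℝ]) : psi A B (x + y) = psi A B x + psi A B y := by
  unfold psi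
  ext <;> simp [ip_add_right]

theorem psi_smul (A B : ℍ[ℝ]) (r : ℝ) (x : ℍ[ℝ]) : psi A B (r • x) = r • psi A B x := by
  unfold psi
  ext <;> simp [ip_smul_right]

noncomputable def psiL (A B : ℍ[ℝ]) : ℍ[ℝ] →L[ℝ] ℍ[ℝ] :=
  LinearMap.toContinuousLinearMap { toFun := psi A B, map_add' := psi_add A B, map_smul' := psi_smul A B }

/-- construction of a `TLoop` -/
noncomputable def mkTLoop (c : ℝ → ℍ[ℝ]) (m : ℝ → ℝ) (X : ℝ) (hX : X ≠ 0) (hm : Continuous m)
    (hder : ∀ s, HasDerivAt c (c s * mk4 0 (m s) 1 0) s) (hn : ∀ s, ip (c s) (c s) = 1)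
    (hper : ∀ s, c (s + X) = c s) : TLoop :=
  have hper' : ∀ s, c (s + |X|) = c s := by
    intro s
    rcases abs_cases X with ⟨h, _⟩ | ⟨h, _⟩
    · rw [h]; exact hper s
    · rw [h]
      have := hper (s + -X)
      rw [← this]; congr 1; ring
  have hc : Continuous c := continuous_iff_continuousAt.2 fun s => (hder s).continuousAt
  have hmk : Continuous fun s => mk4 0 (m s) 1 0 := by
    have : (fun s => mk4 0 (m s) 1 0) = fun s => (m s) • mk4 0 1 0 0 + mk4 0 0 1 0 := by
      ext s <;> simp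
    rw [this]
    exact (hm.smul continuous_const).add continuous_const
  { c := c
    c' := fun s => c s * mk4 0 (m s) 1 0
    L := |X|
    hL := abs_pos.2 hX
    hc := hder
    hc' := hc.mul hmk
    hn := hn
    per := hper'
    per' := by
      intro s
      have h1 : HasDerivAt (fun s => c (s + |X|)) (c (s + |X|) * mk4 0 (m (s + |X|)) 1 0) s := by
        have := (hder (s + |X|)).comp_add_const s |X|
        exact this
      have h2 : (fun s => c (s + |X|)) = c := funext hper'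
      rw [h2] at h1
      exact h1.unique (hder s)
    x := m
    y := fun _ => 1
    hω := fun s => rfl
    hy := fun _ => one_pos }

end Pool.Agent.H81.Flat
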