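import Mathlib
import Pool.Agent.H81.Flat.Geo4

/-!
The main theorem.
-/

namespace Pool.Agent.H81.Flat

open Quaternion Set
open scoped RealInnerProductSpace ContDiff

theorem hcomp {h : E2 → ℍ[ℝ]} {L : E2 →L[ℝ] ℍ[ℝ]} {γ : ℝ → E2} {γ' : E2} {s : ℝ}
    (hL : HasFDerivAt h L (γ s)) (hγ : HasDerivAt γ γ' s) :
    HasDerivAt (fun s => h (γ s)) (L γ') s := hL.comp_hasDerivAt s hγ

namespace Geo

variable (g : Geo)

theorem Lam_on (w n : E2) (hw : ⟪w, w⟫ = 1) (hn : ⟪n, n⟫ = 1) (hwn : ⟪w, n⟫ = 0) (p : E2) :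
    ON (g.Lam p w) (g.Lam p n) where
  a0 := g.Lam_re p w
  b0 := g.Lam_re p n
  aa := by
    rw [← hw, ← g.iso' p w w, g.df, ip_mul_left, g.unit, one_mul]
  bb := by
    rw [← hn, ← g.iso' p n n, g.df, ip_mul_left, g.unit, one_mul]
  ab := by
    rw [← hwn, ← g.iso' p w n, g.df, g.df, ip_mul_left, g.unit, one_mul]

theorem Lam_add (p v w : E2) : g.Lam p (v + w) = g.Lam p v + g.Lam p w := by
  unfold Lam
  simp only [PiLp.add_apply, add_smul]
  abel

theorem Lam_smul (p v : E2) (r : ℝ) : g.Lam p (r • v) = r • g.Lam p v := by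
  unfold Lam
  simp only [PiLp.smul_apply, smul_eq_mul, smul_add, smul_smul]

theorem antipodal : ∃ x y : E2, g.f y = - g.f x := by
  by_contra hcon
  push Not at hcon
  obtain ⟨F⟩ := g.planar.exists_frame
  -- the periods act trivially
  have hper : ∀ l : E2, (∀ p, g.f (p + l) = g.f p) →
      ∀ p, g.Pf (p + l) = g.Pf p ∧ g.Qf (p + l) = g.Qf p := by
    intro l hl
    rcases g.period_sign l hl with h | h
    · exact h
    · exact absurd h (hcon _ _)
  -- notation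
  set w := F.w with hw
  set n := F.n with hn
  have o : ON (g.Lam 0 w) (g.Lam 0 n) := g.Lam_on w n F.hw F.hn F.hwn 0
  set I := g.Lam 0 w with hI
  set J := g.Lam 0 n with hJ
  set b : ℝ → ℝ := F.b with hb
  have hbpos : ∀ s, 0 < b s := F.b_pos
  set m : ℝ → ℝ := fun s => ⟪w, g.M (F.τ s • w) w⟫ with hm
  have hMc : Continuous g.M := g.smM.continuous
  have hmc : Continuous m := by
    exact continuous_const.inner ((hMc.comp (F.contτ.smul continuous_const)).clm_apply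
      continuous_const)
  have hbc : Continuous b := F.contb
  have hMw : ∀ s, g.M (F.τ s • w) w = m s • w + b s • n := fun s => F.hexp _
  have hpath : ∀ s, HasDerivAt (fun s => F.τ s • w) ((b s)⁻¹ • w) s := fun s =>
    (F.hτ s).smul_const w
  -- first curve
  set c₁ : ℝ → ℍ[ℝ] := fun s => psi I J (g.Pf (F.τ s • w)) with hc₁
  set m₁ : ℝ → ℝ := fun s => m s / b s with hm₁
  have hd₁ : ∀ s, HasDerivAt c₁ (c₁ s * mk4 0 (m₁ s) 1 0) s := by
    intro s
    obtain ⟨L, hL, hLv⟩ := g.hPf (F.τ s • w)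
    have h1 : HasDerivAt (fun s => g.Pf (F.τ s • w)) (L ((b s)⁻¹ • w)) s :=
      hcomp (h := g.Pf) (γ := fun s => F.τ s • w) hL (hpath s)
    have h2 : HasDerivAt c₁ (psiL I J (L ((b s)⁻¹ • w))) s :=
      (psiL I J).hasFDerivAt.comp_hasDerivAt s h1
    refine h2.congr_deriv ?_
    have h3 : psiL I J (L ((b s)⁻¹ • w)) = psi I J (L ((b s)⁻¹ • w)) := rfl
    rw [h3, map_smul, hLv, hMw, psi_smul, o.psi_mul, g.Lam_add, g.Lam_smul, g.Lam_smul, ← hI, ← hJ,
      psi_add, psi_smul, psi_smul, o.psi_A, o.psi_B, ← mul_smul_comm]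
    have h4 : (b s)⁻¹ • (m s • mk4 0 1 0 0 + b s • mk4 0 0 1 0) = mk4 0 (m₁ s) 1 0 := by
      have hb0 := (hbpos s).ne'
      ext
      · simp
      · simp [hm₁]; field_simp
      · simp; field_simp
      · simp
    rw [h4]
  have hn₁ : ∀ s, ip (c₁ s) (c₁ s) = 1 := by
    intro s; simp only [hc₁]; rw [o.ip_psi, g.Pf_unit]
  -- second curve
  set c₂ : ℝ → ℍ[ℝ] := fun s => psi I J (star (g.Qf (F.τ s • w))) with hc₂
  set m₂ : ℝ → ℝ := fun s => (m s - 1) / b s with hm₂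
  have hd₂ : ∀ s, HasDerivAt c₂ (c₂ s * mk4 0 (m₂ s) 1 0) s := by
    intro s
    obtain ⟨L0, hL0, hLv0⟩ := g.hQf (F.τ s • w)
    obtain ⟨L, hL, hLv⟩ := hstar hL0
    have h1 : HasDerivAt (fun s => star (g.Qf (F.τ s • w))) (L ((b s)⁻¹ • w)) s :=
      hcomp (h := fun p => star (g.Qf p)) (γ := fun s => F.τ s • w) hL (hpath s)
    have h2 : HasDerivAt c₂ (psiL I J (L ((b s)⁻¹ • w))) s :=
      (psiL I J).hasFDerivAt.comp_hasDerivAt s h1
    refine h2.congr_deriv ?_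
    have h3 : psiL I J (L ((b s)⁻¹ • w)) = psi I J (L ((b s)⁻¹ • w)) := rfl
    have h5 : star (g.Lam 0 (w - (m s • w + b s • n)) * g.Qf (F.τ s • w))
        = star (g.Qf (F.τ s • w)) * ((m s - 1) • I + b s • J) := by
      rw [star_mul, star_of_im (g.Lam_re _ _), g.Lam_sub, g.Lam_add, g.Lam_smul, g.Lam_smul, ← hI,
        ← hJ]
      congr 1
      module
    rw [h3, map_smul, hLv, hLv0, hMw, g.QLam, h5, psi_smul, o.psi_mul,
      psi_add, psi_smul, psi_smul, o.psi_A, o.psi_B, ← mul_smul_comm]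
    have h4 : (b s)⁻¹ • ((m s - 1) • mk4 0 1 0 0 + b s • mk4 0 0 1 0) = mk4 0 (m₂ s) 1 0 := by
      have hb0 := (hbpos s).ne'
      ext
      · simp
      · simp [hm₂]; field_simp
      · simp; field_simp
      · simp
    rw [h4]
  have hn₂ : ∀ s, ip (c₂ s) (c₂ s) = 1 := by
    intro s; simp only [hc₂]; rw [o.ip_psi, ip_star, g.Qf_unit]
  -- periods
  have hS : ∀ l : E2, (∀ p, g.f (p + l) = g.f p) → ∀ s, c₁ (s + ⟪n, g.S l⟫) = c₁ s := by
    intro l hl s
    have h1 := F.S_period l (g.M_per l hl) s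
    have h2 := (hper l hl (F.τ s • w)).1
    simp only [hc₁]
    have h3 : g.Pf (F.τ (s + ⟪n, g.S l⟫) • w) = g.Pf (F.τ s • w + l) := by
      unfold Pf
      exact congrArg g.f h1
    rw [h3, h2]
  have hT : ∀ l : E2, (∀ p, g.f (p + l) = g.f p) → ∀ s, c₂ (s + -⟪n, g.T l⟫) = c₂ s := by
    intro l hl s
    have h1 := F.T_period l (g.M_per l hl) s
    have h2 := (hper l hl (F.τ s • w)).2
    simp only [hc₂]
    have h3 : g.Qf (F.τ (s + -⟪n, g.T l⟫) • w) = g.Qf (F.τ s • w + l) := by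
      unfold Qf
      rw [← sub_eq_add_neg]
      exact congrArg (fun z => star (g.f 0) * g.f z) h1
    rw [h3, h2]
  obtain ⟨X₁, hX₁, hp₁⟩ : ∃ X : ℝ, X ≠ 0 ∧ ∀ s, c₁ (s + X) = c₁ s := by
    rcases F.exists_S_period with h | h
    · exact ⟨_, h, hS g.u g.hu⟩
    · exact ⟨_, h, hS g.v g.hv⟩
  obtain ⟨X₂, hX₂, hp₂⟩ : ∃ X : ℝ, X ≠ 0 ∧ ∀ s, c₂ (s + X) = c₂ s := by
    rcases F.exists_T_period with h | h
    · exact ⟨_, neg_ne_zero.2 h, hT g.u g.hu⟩
    · exact ⟨_, neg_ne_zero.2 h, hT g.v g.hv⟩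
  have hm₁c : Continuous m₁ := hmc.div hbc fun s => (hbpos s).ne'
  have hm₂c : Continuous m₂ := (hmc.sub continuous_const).div hbc fun s => (hbpos s).ne'
  set l₁ := mkTLoop c₁ m₁ X₁ hX₁ hm₁c hd₁ hn₁ hp₁ with hl₁
  set l₂ := mkTLoop c₂ m₂ X₂ hX₂ hm₂c hd₂ hn₂ hp₂ with hl₂
  obtain ⟨a, b', c, d, htopo⟩ := topo l₁ l₂
  have hG1 : l₁.G a b' = psi I J (star (g.Pf (F.τ a • w)) * g.Pf (F.τ b' • w)) := by
    rw [o.psi_mul, o.psi_star]; rfl
  have hG2 : l₂.G c d = psi I J (g.Qf (F.τ c • w) * star (g.Qf (F.τ d • w))) := by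
    rw [o.psi_mul]
    have : g.Qf (F.τ c • w) = star (star (g.Qf (F.τ c • w))) := by rw [star_star]
    rw [this, o.psi_star]; rfl
  rw [hG1, hG2] at htopo
  have hinj := congrArg (phi I J) htopo
  rw [o.phi_psi] at hinj
  have hneg : ∀ x : ℍ[ℝ], phi I J (-x) = -phi I J x := by
    intro x; unfold phi; simp; abel
  rw [hneg, o.phi_psi] at hinj
  -- conclusion
  have hfin : g.Pf (F.τ b' • w) * g.Qf (F.τ d • w) = -(g.Pf (F.τ a • w) * g.Qf (F.τ c • w)) := by
    have h1 : g.Pf (F.τ a • w) * (star (g.Pf (F.τ a • w)) * g.Pf (F.τ b' • w)) * g.Qf (F.τ d • w)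
      = g.Pf (F.τ a • w) * (-(g.Qf (F.τ c • w) * star (g.Qf (F.τ d • w)))) * g.Qf (F.τ d • w) := by
      rw [hinj]
    rw [← mul_assoc, self_mul_star_of _ (g.Pf_unit _), one_mul, mul_neg, neg_mul, ← mul_assoc,
      mul_assoc (g.Pf (F.τ a • w) * g.Qf (F.τ c • w)), star_mul_self_of _ (g.Qf_unit _), mul_one] at h1
    exact h1
  rw [← g.f_mix, ← g.f_mix] at hfin
  exact hcon _ _ hfin

end Geo

/-- **Main theorem.** -/
theorem main (u v : EuclideanSpace ℝ (Fin 2))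
    (F : EuclideanSpace ℝ (Fin 2) → EuclideanSpace ℝ (Fin 4))
    (hind : LinearIndependent ℝ ![u, v])
    (hsm : ∀ n : ℕ, ContDiff ℝ n F)
    (hper : ∀ x, F (x + u) = F x ∧ F (x + v) = F x)
    (hunit : ∀ x, ‖F x‖ = 1)
    (hiso : ∀ x w, ‖fderiv ℝ F x w‖ = ‖w‖) :
    ∃ x y : EuclideanSpace ℝ (Fin 2), F y = -F x := by
  set e := Quaternion.linearIsometryEquivTuple with he
  have hsm' : ContDiff ℝ ∞ F := contDiff_infty.2 hsm
  have hder : ∀ p, HasFDerivAt (fun p => e.symm (F p)) ((e.symm.toContinuousLinearEquiv : EuclideanSpace ℝ (Fin 4) →L[ℝ] ℍ[ℝ]).comp (fderiv ℝ F p)) p := by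
    intro p
    exact (e.symm.toContinuousLinearEquiv.hasFDerivAt).comp p (sm_diff hsm' p).hasFDerivAt
  set g : Geo :=
    { f := fun p => e.symm (F p)
      sm := e.symm.toContinuousLinearEquiv.contDiff.comp hsm'
      unit := fun p => by
        apply ip_of_norm_one
        rw [LinearIsometryEquiv.norm_map, hunit]
      iso := fun p w => by
        rw [(hder p).fderiv, ip_self]
        have : ((e.symm.toContinuousLinearEquiv : EuclideanSpace ℝ (Fin 4) →L[ℝ] ℍ[ℝ]).comp (fderiv ℝ F p)) w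
          = e.symm (fderiv ℝ F p w) := rfl
        rw [this, LinearIsometryEquiv.norm_map, hiso, real_inner_self_eq_norm_sq]
      u := u
      v := v
      ind := hind
      hu := fun p => by simp only [(hper p).1]
      hv := fun p => by simp only [(hper p).2] } with hg
  obtain ⟨x, y, hxy⟩ := g.antipodal
  refine ⟨x, y, ?_⟩
  have h1 : e.symm (F y) = - e.symm (F x) := hxy
  rw [← map_neg] at h1
  exact e.symm.injective h1

end Pool.Agent.H81.Flat
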